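import Pool.Agent.TH235.PQ.Goal

/-!
# Every vector is a PEPS; from all large `L` to every `L`
-/

set_option autoImplicit false
set_option linter.unusedSectionVars false

open scoped BigOperators Matrix InnerProductSpace
open Finset Pool.Agent.TH235.PP Pool.Agent.Results.MP_953b23_mp.OverlapBoosting
  Pool.Agent.Results.MP_953b23_mp.ThermalCriterion

namespace Pool.Agent.TH235.PQ

namespace Ev

variable {d L : ℕ} [NeZero L]

/-- a function on the torus invariant under both unit shifts is constant -/
lemma const_of_shift {K : Type*} (h : Site L → K)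
    (h1 : ∀ x : Site L, h (x.1 - 1, x.2) = h x) (h2 : ∀ x : Site L, h (x.1, x.2 - 1) = h x)
    (x : Site L) : h x = h 0 := by
  have a1 : ∀ (n : ℕ) (b : ZMod L), h ((n : ZMod L), b) = h (0, b) := by
    intro n b
    induction n with
    | zero => rw [Nat.cast_zero]
    | succ n ih =>
      have := h1 (((n + 1 : ℕ) : ZMod L), b)
      simp only [Nat.cast_add, Nat.cast_one, add_sub_cancel_right] at this
      rw [← ih, Nat.cast_add, Nat.cast_one]
      exact this.symm
  have a2 : ∀ (n : ℕ) (a : ZMod L), h (a, (n : ZMod L)) = h (a, 0) := by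
    intro n a
    induction n with
    | zero => rw [Nat.cast_zero]
    | succ n ih =>
      have := h2 (a, ((n + 1 : ℕ) : ZMod L))
      simp only [Nat.cast_add, Nat.cast_one, add_sub_cancel_right] at this
      rw [← ih, Nat.cast_add, Nat.cast_one]
      exact this.symm
  obtain ⟨a, b⟩ := x
  have e1 := a1 a.val b
  have e2 := a2 b.val 0
  rw [ZMod.natCast_zmod_val] at e1 e2
  rw [e1, e2]
  rfl

/-- every vector is a PEPS -/
lemma isPEPS_all (ψ : (Site L → Fin d) → ℂ) : IsPEPS (Fintype.card (Site L → Fin d)) ψ := by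
  classical
  have key : ψ = contract (K := Site L → Fin d) (fun x i l r dn up =>
      if l = r ∧ dn = up ∧ l = dn ∧ i = r x then (if x = 0 then ψ r else 1) else 0) := by
    funext s
    unfold contract
    rw [Finset.sum_eq_single (fun _ => s), Finset.sum_eq_single (fun _ => s)]
    · rw [Finset.prod_eq_single (0 : Site L)]
      · simp
      · intro x _ hx
        simp [hx]
      · intro h
        exact absurd (Finset.mem_univ _) h
    · intro v _ hv
      by_contra hne
      apply hv
      have hx : ∀ x : Site L, v (x.1, x.2 - 1) = v x ∧ s = v (x.1, x.2 - 1) := by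
        intro x
        by_contra hcon
        apply hne
        refine Finset.prod_eq_zero (Finset.mem_univ x) (if_neg ?_)
        rintro ⟨-, g2, g3, -⟩
        exact hcon ⟨g2, g3⟩
      funext x
      rw [← (hx x).1, ← (hx x).2]
    · intro h
      exact absurd (Finset.mem_univ _) h
    · intro h _ hh
      refine Finset.sum_eq_zero fun v _ => ?_
      by_contra hne
      apply hh
      have hx : ∀ x : Site L, h (x.1 - 1, x.2) = h x ∧ v (x.1, x.2 - 1) = v x ∧
          h (x.1 - 1, x.2) = v (x.1, x.2 - 1) ∧ s x = h x x := by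
        intro x
        by_contra hcon
        apply hne
        exact Finset.prod_eq_zero (Finset.mem_univ x) (if_neg hcon)
      have hv : ∀ x, h x = v x := fun x => by
        rw [← (hx x).1, (hx x).2.2.1, (hx x).2.1]
      have h1 : ∀ x : Site L, h (x.1 - 1, x.2) = h x := fun x => (hx x).1
      have h2 : ∀ x : Site L, h (x.1, x.2 - 1) = h x := fun x => by
        rw [hv, (hx x).2.1, hv]
      have hc := const_of_shift h h1 h2
      have hs : h 0 = s := by
        funext x
        rw [← hc x, (hx x).2.2.2]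
      funext x
      rw [hc x, hs]
    · intro h
      exact absurd (Finset.mem_univ _) h
  have h2 := isPEPS_contract (K := Site L → Fin d) (fun x i l r dn up =>
      if l = r ∧ dn = up ∧ l = dn ∧ i = r x then (if x = 0 then ψ r else 1) else 0)
  rw [← key] at h2
  exact h2

lemma card_conf : Fintype.card (Site L → Fin d) = d ^ (L * L) := by
  rw [Fintype.card_fun, Fintype.card_prod, ZMod.card, Fintype.card_fin]

end Ev

open Ev

theorem every : EVERY := by
  intro d Ψ C c hA
  obtain ⟨L₀, hL₀⟩ := hA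
  refine ⟨1 + ∑ L ∈ Finset.range L₀, d ^ (L * L), ⌈|C|⌉₊, ?_⟩
  intro L hLz
  have hLpos : 0 < L := Nat.pos_of_ne_zero (NeZero.ne L)
  have hL1 : (1 : ℝ) ≤ (L : ℝ) := by exact_mod_cast hLpos
  have hpow : 1 ≤ L ^ ⌈|C|⌉₊ := Nat.one_le_pow _ _ hLpos
  rcases lt_or_ge L L₀ with h | h
  · refine ⟨Fintype.card (Site L → Fin d), Ψ L, ?_, isPEPS_all (Ψ L), ?_⟩
    · rw [card_conf]
      have h1 : d ^ (L * L) ≤ ∑ L ∈ Finset.range L₀, d ^ (L * L) :=
        Finset.single_le_sum (f := fun L => d ^ (L * L)) (fun _ _ => Nat.zero_le _)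
          (Finset.mem_range.mpr h)
      calc d ^ (L * L) ≤ 1 + ∑ L ∈ Finset.range L₀, d ^ (L * L) := by omega
        _ = (1 + ∑ L ∈ Finset.range L₀, d ^ (L * L)) * 1 := (mul_one _).symm
        _ ≤ _ := Nat.mul_le_mul_left _ hpow
    · have e : normSq (Ψ L - Ψ L) = 0 := by
        unfold normSq
        simp
      rw [e, Real.sqrt_zero]
      exact Real.rpow_nonneg (Nat.cast_nonneg L) _
  · obtain ⟨D, ψ, hD, hP, hδ⟩ := hL₀ L h
    refine ⟨D, ψ, ?_, hP, hδ⟩
    have hlog : 0 ≤ Real.log L := Real.log_nonneg hL1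
    have h2 : (D : ℝ) ≤ (L : ℝ) ^ ⌈|C|⌉₊ := by
      refine hD.trans ?_
      rw [pow_one]
      have h3 : C * Real.log L ≤ (⌈|C|⌉₊ : ℝ) * Real.log L :=
        mul_le_mul_of_nonneg_right ((le_abs_self C).trans (Nat.le_ceil _)) hlog
      calc Real.exp (C * Real.log L) ≤ Real.exp ((⌈|C|⌉₊ : ℝ) * Real.log L) :=
            Real.exp_le_exp.mpr h3
        _ = (L : ℝ) ^ ⌈|C|⌉₊ := by
          rw [mul_comm, Real.exp_mul, Real.exp_log (by linarith), Real.rpow_natCast]
    have h4 : D ≤ L ^ ⌈|C|⌉₊ := by exact_mod_cast h2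
    calc D ≤ 1 * L ^ ⌈|C|⌉₊ := by rw [one_mul]; exact h4
      _ ≤ _ := Nat.mul_le_mul_right _ (by omega)

end Pool.Agent.TH235.PQ
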