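import Pool.Agent.TH235.PQ.Fam
import Pool.Agent.TH235.PQ.Every

set_option autoImplicit false
set_option linter.unusedSectionVars false

open scoped BigOperators Matrix InnerProductSpace
open Finset Pool.Agent.TH235.PP Pool.Agent.Results.MP_953b23_mp.OverlapBoosting
  Pool.Agent.Results.MP_953b23_mp.ThermalCriterion

namespace Pool.Agent.TH235.PQ

/-- small tori: every vector is a PEPS -/
lemma small_L (d R' L : ℕ) [NeZero L] (hL2 : 2 ≤ L) (hL : ¬ R' + 1 ≤ L) (s : ℝ)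
    (hs : Real.log L ≤ s) (Ψ : (Site L → Fin d) → ℂ) (ε : ℝ) (hε : 0 < ε) :
    ∃ (D : ℕ) (ψ : (Site L → Fin d) → ℂ), (D : ℝ) ≤ Real.exp (2 * d * (R' + 1) ^ 2 * s) ∧
      IsPEPS D ψ ∧ nr (ψ - Ψ) ≤ ε := by
  refine ⟨_, Ψ, ?_, Ev.isPEPS_all Ψ, ?_⟩
  · rw [Ev.card_conf]
    have h1 : (d : ℝ) ≤ Real.exp d := by
      have := Real.add_one_le_exp (d : ℝ)
      linarith
    have hL2' : (2 : ℝ) ≤ L := by exact_mod_cast hL2
    have hlam0 : 1 / 2 ≤ Real.log L := by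
      have h1 : Real.log 2 ≤ Real.log L := Real.log_le_log (by norm_num) hL2'
      have := Real.log_two_gt_d9
      linarith
    have hLR : (L : ℝ) ≤ R' + 1 := by
      have : L ≤ R' + 1 := by omega
      exact_mod_cast this
    have hLL : (L : ℝ) * L ≤ (R' + 1) ^ 2 := by
      have h0 : (0 : ℝ) ≤ L := Nat.cast_nonneg _
      nlinarith only [hLR, h0]
    push_cast
    calc (d : ℝ) ^ (L * L) ≤ (Real.exp d) ^ (L * L) :=
          pow_le_pow_left₀ (Nat.cast_nonneg _) h1 _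
      _ = Real.exp (((L * L : ℕ) : ℝ) * d) := (Real.exp_nat_mul _ _).symm
      _ ≤ _ := by
          apply Real.exp_le_exp.2
          push_cast
          have hd : (0 : ℝ) ≤ d := Nat.cast_nonneg _
          have h3 : (L : ℝ) * L * d ≤ (R' + 1) ^ 2 * d := mul_le_mul_of_nonneg_right hLL hd
          have h4 : (R' + 1 : ℝ) ^ 2 * d * 1 ≤ (R' + 1) ^ 2 * d * (2 * s) :=
            mul_le_mul_of_nonneg_left (by linarith) (by positivity)
          linarith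
  · rw [sub_self]
    have h0 : nr (0 : (Site L → Fin d) → ℂ) = 0 := by
      have := nr_smul (0 : ℂ) (0 : (Site L → Fin d) → ℂ)
      simpa using this
    rw [h0]
    exact hε.le

lemma peps_zero {d L : ℕ} [NeZero L] (φ : (Site L → Fin d) → ℂ) (h : IsPEPS 0 φ) :
    φ = 0 := by
  obtain ⟨A, rfl⟩ := h
  funext s
  unfold contract
  have hemp : IsEmpty (Site L → Fin 0) := ⟨fun f => (f 0).elim0⟩
  rw [Finset.univ_eq_empty, Finset.sum_empty]
  rfl

/-- amplification on all tori -/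
theorem amp_all (hA : AMP) (d R' : ℕ) (h : BoxOp d (R' + 1)) (hh : h.IsHermitian) (Δ : ℝ)
    (hΔ : 0 < Δ) : ∃ C : ℝ, 0 < C ∧ ∀ (L : ℕ) [NeZero L], 2 ≤ L →
      ∀ Ψ : (Site L → Fin d) → ℂ, normSq Ψ = 1 →
      IsGappedGround (ham h L) Δ Ψ → ∀ (D0 : ℕ) (φ : (Site L → Fin d) → ℂ), IsPEPS D0 φ →
      normSq φ = 1 → ∀ η ε : ℝ, 0 < η → η ≤ ‖ip Ψ φ‖ → 0 < ε → ε ≤ 1 →
      ∃ (D : ℕ) (ψ : (Site L → Fin d) → ℂ),
        (D : ℝ) ≤ D0 * Real.exp (C * (Real.log L + Real.log (1 / (η * ε)))) ∧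
        IsPEPS D ψ ∧ nr (ψ - Ψ) ≤ ε := by
  obtain ⟨C, hC, hq⟩ := hA d R' h hh Δ hΔ
  refine ⟨C + 2 * d * (R' + 1) ^ 2, by positivity, ?_⟩
  intro L _ hL Ψ hΨ hgr D0 φ hφ hφ1 η ε hη hηφ hε hε1
  have hη1 : η ≤ 1 := hηφ.trans (ip_le_one Ψ φ (nr_one Ψ hΨ) (nr_one φ hφ1))
  have hηε : 0 < η * ε := by positivity
  have hηε1 : η * ε ≤ 1 := mul_le_one₀ hη1 hε.le hε1
  have hΘ0 : 0 ≤ Real.log (1 / (η * ε)) := Real.log_nonneg (by rw [le_div_iff₀ hηε]; linarith)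
  have hl0 : 0 ≤ Real.log L := Real.log_nonneg (by
    have : 1 ≤ L := by omega
    exact_mod_cast this)
  have hs0 : 0 ≤ Real.log L + Real.log (1 / (η * ε)) := by linarith
  have hd0 : (0 : ℝ) ≤ 2 * d * (R' + 1) ^ 2 := by positivity
  by_cases hLR : R' + 1 ≤ L
  · obtain ⟨D, ψ, h1, h2, h3⟩ := hq L hL hLR Ψ hΨ hgr D0 φ hφ hφ1 η ε hη hηφ hε hε1
    refine ⟨D, ψ, h1.trans (mul_le_mul_of_nonneg_left (Real.exp_le_exp.2 ?_)
      (Nat.cast_nonneg _)), h2, h3⟩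
    exact mul_le_mul_of_nonneg_right (by linarith) hs0
  · obtain ⟨D, ψ, h1, h2, h3⟩ := small_L d R' L hL hLR
      (Real.log L + Real.log (1 / (η * ε))) (by linarith) Ψ ε hε
    refine ⟨D, ψ, ?_, h2, h3⟩
    have hD0 : (1 : ℝ) ≤ D0 := by
      have : D0 ≠ 0 := by
        rintro rfl
        have := peps_zero φ hφ
        rw [this] at hφ1
        simp [normSq] at hφ1
      exact_mod_cast Nat.one_le_iff_ne_zero.2 this
    have h4 : Real.exp (2 * d * (R' + 1) ^ 2 * (Real.log L + Real.log (1 / (η * ε)))) ≤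
        Real.exp ((C + 2 * d * (R' + 1) ^ 2) * (Real.log L + Real.log (1 / (η * ε)))) :=
      Real.exp_le_exp.2 (mul_le_mul_of_nonneg_right (by linarith) hs0)
    have h5 := mul_le_mul_of_nonneg_right hD0
      (Real.exp_pos ((C + 2 * d * (R' + 1) ^ 2) * (Real.log L + Real.log (1 / (η * ε))))).le
    rw [one_mul] at h5
    exact h1.trans (h4.trans h5)

/-- the thermal bound on all tori -/
theorem therm_all (hT : THERM) (d R' : ℕ) (h : BoxOp d (R' + 1)) (hh : h.IsHermitian) (Δ : ℝ)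
    (hΔ : 0 < Δ) : ∃ C : ℝ, 0 < C ∧ ∀ (L : ℕ) [NeZero L], 2 ≤ L →
      ∀ Ψ : (Site L → Fin d) → ℂ, normSq Ψ = 1 →
      IsGappedGround (ham h L) Δ Ψ → ∀ (hH : (ham h L).IsHermitian) (β ε : ℝ), 0 ≤ β → 0 < ε →
      ε ≤ 1 → ∃ (D : ℕ) (ψ : (Site L → Fin d) → ℂ),
        (D : ℝ) ≤ Real.exp (C * (β + Real.log L +
          Real.log (partition hH (energy (ham h L) Ψ) β) + Real.log (1 / ε))) ∧
        IsPEPS D ψ ∧ nr (ψ - Ψ) ≤ ε := by
  obtain ⟨C, hC, hq⟩ := hT d R' h hh Δ hΔ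
  refine ⟨C + 2 * d * (R' + 1) ^ 2, by positivity, ?_⟩
  intro L _ hL Ψ hΨ hgr hH β ε hβ hε hε1
  have hl0 : 0 ≤ Real.log L := Real.log_nonneg (by
    have : 1 ≤ L := by omega
    exact_mod_cast this)
  have hT0 : 0 ≤ Real.log (1 / ε) := Real.log_nonneg (by rw [le_div_iff₀ hε]; linarith)
  have hZ1 : 1 ≤ partition hH (energy (ham h L) Ψ) β := by
    obtain ⟨E, hE, hsimple, hgap⟩ := hgr
    have hEE : energy (ham h L) Ψ = E := by
      unfold energy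
      rw [hE, ip_smul_right, ip_self_one Ψ hΨ, mul_one, Complex.ofReal_re]
    obtain ⟨-, -, -, j0, hj0⟩ := eig_facts (ham h L) hH Δ hΔ Ψ hΨ E hE hgap
    unfold partition
    have h1 := Finset.single_le_sum (f := fun j => Real.exp (-(β * (hH.eigenvalues j -
      energy (ham h L) Ψ)))) (fun j _ => (Real.exp_pos _).le) (mem_univ j0)
    refine le_trans (le_of_eq ?_) h1
    rw [hj0, hEE]
    simp
  have hZ0 : 0 ≤ Real.log (partition hH (energy (ham h L) Ψ) β) := Real.log_nonneg hZ1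
  have hs0 : 0 ≤ β + Real.log L + Real.log (partition hH (energy (ham h L) Ψ) β) +
      Real.log (1 / ε) := by linarith
  have hd0 : (0 : ℝ) ≤ 2 * d * (R' + 1) ^ 2 := by positivity
  by_cases hLR : R' + 1 ≤ L
  · obtain ⟨D, ψ, h1, h2, h3⟩ := hq L hL hLR Ψ hΨ hgr hH β ε hβ hε hε1
    refine ⟨D, ψ, h1.trans (Real.exp_le_exp.2 ?_), h2, h3⟩
    exact mul_le_mul_of_nonneg_right (by linarith) hs0
  · obtain ⟨D, ψ, h1, h2, h3⟩ := small_L d R' L hL hLR
      (β + Real.log L + Real.log (partition hH (energy (ham h L) Ψ) β) + Real.log (1 / ε))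
      (by linarith) Ψ ε hε
    refine ⟨D, ψ, h1.trans (Real.exp_le_exp.2 ?_), h2, h3⟩
    exact mul_le_mul_of_nonneg_right (by linarith) hs0

end Pool.Agent.TH235.PQ
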