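import Pool.Agent.TH235.PQ.Base
import Pool.Agent.TH235.PP.Frob
import Pool.Agent.TH235.PP.Mat

set_option autoImplicit false
set_option linter.unusedSectionVars false

open scoped BigOperators
open Finset Pool.Agent.TH235.PP

namespace Pool.Agent.TH235.PQ

section ring

variable {R : Type*} [Ring R] {M N : ℕ}

open Classical in
/-- all terms of `S` are bad -/
noncomputable def EB (y : Fin N → R) (bad : (Fin M → Fin N → Bool) → Fin N → Prop)
    (S : Finset (Fin N)) : R :=
  ∑ F : Fin M → Fin N → Bool, if (∀ b ∈ S, bad F b) then PF y F else 0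

open Classical in
/-- no term is bad -/
noncomputable def KB (y : Fin N → R) (bad : (Fin M → Fin N → Bool) → Fin N → Prop) : R :=
  ∑ F : Fin M → Fin N → Bool, if (∀ b, ¬ bad F b) then PF y F else 0

open Classical in
lemma ind_sum' (bad : (Fin M → Fin N → Bool) → Fin N → Prop) (F : Fin M → Fin N → Bool) :
    (if (∀ b, ¬ bad F b) then (1 : ℤ) else 0) =
      ∑ S : Finset (Fin N), (-1) ^ S.card * (if (∀ b ∈ S, bad F b) then (1 : ℤ) else 0) := by
  have h := Finset.prod_one_add (f := fun b => -(if bad F b then (1 : ℤ) else 0))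
    (univ : Finset (Fin N))
  rw [Finset.powerset_univ] at h
  have h1 : ∏ b : Fin N, (1 + -(if bad F b then (1 : ℤ) else 0)) =
      if (∀ b, ¬ bad F b) then (1 : ℤ) else 0 := by
    split_ifs with hc
    · apply Finset.prod_eq_one
      intro b _
      rw [if_neg (hc b)]
      simp
    · push Not at hc
      obtain ⟨b, hb⟩ := hc
      apply Finset.prod_eq_zero (mem_univ b)
      rw [if_pos hb]
      simp
  rw [h1] at h
  rw [h]
  refine Finset.sum_congr rfl fun S _ => ?_
  rw [Finset.prod_neg]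
  congr 1
  split_ifs with hc
  · apply Finset.prod_eq_one
    intro b hb
    rw [if_pos (hc b hb)]
  · push Not at hc
    obtain ⟨b, hb, hb2⟩ := hc
    apply Finset.prod_eq_zero hb
    rw [if_neg hb2]

lemma incl_excl' (y : Fin N → R) (bad : (Fin M → Fin N → Bool) → Fin N → Prop) :
    KB y bad = ∑ S : Finset (Fin N), ((-1 : ℤ) ^ S.card) • EB y bad S := by
  classical
  unfold KB EB
  simp only [Finset.smul_sum]
  rw [Finset.sum_comm]
  refine Finset.sum_congr rfl fun F _ => ?_
  have h1 : (if (∀ b, ¬ bad F b) then PF y F else 0) =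
      (if (∀ b, ¬ bad F b) then (1 : ℤ) else 0) • PF y F := by
    split_ifs <;> simp
  have h2 := ind_sum' bad F
  rw [h1]
  calc _ = (∑ S : Finset (Fin N), (-1) ^ S.card * (if (∀ b ∈ S, bad F b) then (1 : ℤ) else 0)) •
        PF y F := by
        congr 1
    _ = _ := by
        rw [Finset.sum_smul]
        refine Finset.sum_congr rfl fun S _ => ?_
        split_ifs <;> simp

lemma EB_empty (y : Fin N → R) (bad : (Fin M → Fin N → Bool) → Fin N → Prop) :
    EB y bad ∅ = (op fun b => 1 + y b) ^ M := by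
  rw [← ES_empty y 0]
  unfold EB ES
  simp

lemma EB_eq (y : Fin N → R) (bad : (Fin M → Fin N → Bool) → Fin N → Prop) (S P : Finset (Fin N))
    (hbad : ∀ F : Fin M → Fin N → Bool, ∀ b ∈ S,
      (bad (fun t b => decide (b ∈ P) && F t b) b ↔ bad F b)) :
    EB y bad S = ∑ C : Fin M → Fin N → Bool, open Classical in
      if (∀ t b, b ∉ P → C t b = false) ∧ (∀ b ∈ S, bad C b) then QS y P C else 0 := by
  classical
  have h1 : ∀ C : Fin M → Fin N → Bool,
      (if (∀ t b, b ∉ P → C t b = false) ∧ (∀ b ∈ S, bad C b) then QS y P C else 0) =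
      ∑ F : Fin M → Fin N → Bool, if C = (fun t b => decide (b ∈ P) && F t b) then
        (if (∀ b ∈ S, bad F b) then PF y F else 0) else 0 := by
    intro C
    have key : ∀ F : Fin M → Fin N → Bool, C = (fun t b => decide (b ∈ P) && F t b) →
        (∀ t b, b ∉ P → C t b = false) ∧ (∀ t, ∀ b ∈ P, F t b = C t b) ∧
        (∀ b ∈ S, (bad C b ↔ bad F b)) := by
      intro F hF
      refine ⟨?_, ?_, ?_⟩
      · intro t b hb; rw [hF]; simp [hb]
      · intro t b hb; rw [hF]; simp [hb]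
      · intro b hb
        rw [hF]
        exact hbad F b hb
    by_cases hC : ∀ t b, b ∉ P → C t b = false
    · by_cases hC2 : ∀ b ∈ S, bad C b
      · rw [if_pos ⟨hC, hC2⟩, QS_eq]
        refine Finset.sum_congr rfl fun F _ => ?_
        by_cases hF : C = (fun t b => decide (b ∈ P) && F t b)
        · obtain ⟨_, k2, k3⟩ := key F hF
          rw [if_pos hF, if_pos k2, if_pos]
          intro b hb
          rw [← k3 b hb]; exact hC2 b hb
        · rw [if_neg hF, if_neg]
          intro hh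
          apply hF
          funext t b
          by_cases hb : b ∈ P
          · simp [hb, hh t b hb]
          · simp [hb, hC t b hb]
      · rw [if_neg (fun h => hC2 h.2)]
        symm
        apply Finset.sum_eq_zero
        intro F _
        by_cases hF : C = (fun t b => decide (b ∈ P) && F t b)
        · obtain ⟨_, _, k3⟩ := key F hF
          rw [if_pos hF, if_neg]
          intro hh
          apply hC2
          intro b hb
          rw [k3 b hb]; exact hh b hb
        · rw [if_neg hF]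
    · rw [if_neg (fun h => hC h.1)]
      symm
      apply Finset.sum_eq_zero
      intro F _
      by_cases hF : C = (fun t b => decide (b ∈ P) && F t b)
      · exact absurd (key F hF).1 hC
      · rw [if_neg hF]
  have h2 : EB y bad S = ∑ F : Fin M → Fin N → Bool,
      if (∀ b ∈ S, bad F b) then PF y F else 0 := by
    unfold EB
    refine Finset.sum_congr rfl fun F _ => ?_
    congr
  rw [h2]
  have h3 : (∑ C : Fin M → Fin N → Bool, open Classical in
      if (∀ t b, b ∉ P → C t b = false) ∧ (∀ b ∈ S, bad C b) then QS y P C else 0) =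
      ∑ C : Fin M → Fin N → Bool,
      if (∀ t b, b ∉ P → C t b = false) ∧ (∀ b ∈ S, bad C b) then QS y P C else 0 := by
    refine Finset.sum_congr rfl fun F _ => ?_
    congr
  rw [h3]
  simp only [h1]
  rw [Finset.sum_comm]
  refine Finset.sum_congr rfl fun F _ => ?_
  rw [Finset.sum_ite_eq']
  simp

lemma act_congr (adj : Fin N → Fin N → Prop) (q : ℕ) (F F' : Fin (tm q) → Fin N → Bool)
    (b : Fin N) (h1 : ∀ t, F t b = F' t b) (h2 : ∀ t b', adj b b' → F t b' = F' t b') :
    act adj q F b = act adj q F' b := by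
  classical
  have hocc : ∀ {m : ℕ} (F F' : Fin m → Fin N → Bool), (∀ t, F t b = F' t b) →
      (∀ t b', adj b b' → F t b' = F' t b') →
      ((occ F b ∧ ∃ b', adj b b' ∧ occ F b') ↔ (occ F' b ∧ ∃ b', adj b b' ∧ occ F' b')) := by
    intro m F F' h1 h2
    constructor
    · rintro ⟨⟨t, ht⟩, b', hb, t', ht'⟩
      exact ⟨⟨t, by rw [← h1 t]; exact ht⟩, b', hb, t', by rw [← h2 t' b' hb]; exact ht'⟩
    · rintro ⟨⟨t, ht⟩, b', hb, t', ht'⟩
      exact ⟨⟨t, by rw [h1 t]; exact ht⟩, b', hb, t', by rw [h2 t' b' hb]; exact ht'⟩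
  induction q with
  | zero =>
    unfold act
    simp only [hocc F F' h1 h2]
  | succ q ih =>
    have e1 := ih (lf F) (lf F') (fun t => h1 _) (fun t b' hb => h2 _ b' hb)
    have e2 := ih (rg F) (rg F') (fun t => h1 _) (fun t b' hb => h2 _ b' hb)
    unfold act
    rw [e1, e2]
    simp only [hocc F F' h1 h2]

end ring

lemma card_P {N : ℕ} (adj : Fin N → Fin N → Prop) (K : ℕ) (hsym : ∀ b b', adj b b' → adj b' b)
    (hK : ∀ b, open Classical in (univ.filter fun b' => adj b b').card ≤ K)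
    (S P : Finset (Fin N)) (hP : ∀ b, b ∈ P ↔ b ∈ S ∨ ∃ b' ∈ S, adj b b') :
    P.card ≤ (K + 1) * S.card := by
  classical
  have h1 : P ⊆ S ∪ S.biUnion fun b' => univ.filter fun b => adj b' b := by
    intro b hb
    rw [mem_union, mem_biUnion]
    rcases (hP b).1 hb with h | ⟨b', hb', hadj⟩
    · exact Or.inl h
    · exact Or.inr ⟨b', hb', by rw [mem_filter]; exact ⟨mem_univ _, hsym _ _ hadj⟩⟩
  refine (card_le_card h1).trans ((card_union_le _ _).trans ?_)
  have h2 : (S.biUnion fun b' => univ.filter fun b => adj b' b).card ≤ S.card * K := by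
    refine card_biUnion_le.trans ?_
    rw [← smul_eq_mul, ← Finset.sum_const]
    refine Finset.sum_le_sum fun b _ => ?_
    have := hK b
    convert this
  nlinarith

section norm

variable {R : Type*} [NormedRing R] [NormOneClass R] {N : ℕ}

lemma EB_bound (hcomb : COMB) (adj : Fin N → Fin N → Prop) (K : ℕ)
    (hsym : ∀ b b', adj b b' → adj b' b) (hirr : ∀ b, ¬ adj b b) (hK1 : 1 ≤ K)
    (hK : ∀ b, open Classical in (univ.filter fun b' => adj b b').card ≤ K) (q r : ℕ)
    (p ν : R → ℝ) (hp0 : ∀ a, 0 ≤ p a) (hpadd : ∀ a b, p (a + b) ≤ p a + p b)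
    (hpc : ∀ a, p a ≤ 4 / 3 * ‖a‖) (hν0 : ν 0 = 0) (hνadd : ∀ a b, ν (a + b) ≤ ν a + ν b)
    (A : ℝ) (hA : 0 ≤ A)
    (hνp : ∀ z : Fin (tm q) → R, ν (op z) ≤ A * ∏ t, p (z t))
    (y : Fin N → R) (y0 : ℝ) (hy0 : 0 ≤ y0) (hy1 : y0 ≤ 1 / 80) (hy : ∀ b, ‖y b‖ ≤ y0)
    (hG : p (1 + ∑ b, y b) ≤ 1) (hN : N * y0 ≤ 1 / 4) (S : Finset (Fin N)) :
    ν (EB y (fun F b => r < act adj q F b) S) ≤ A * (Real.exp (2 * tm q * (N * y0) ^ 2) *
      Real.exp (100 * (K + 1) ^ 2 * (1 + tm q * y0) - r / (10 * K * (K + 1) ^ 2)) ^ S.card) := by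
  classical
  have hνsum : ∀ {ι : Type} (s : Finset ι) (f : ι → R), ν (∑ i ∈ s, f i) ≤ ∑ i ∈ s, ν (f i) := by
    intro ι s f
    induction s using Finset.induction_on with
    | empty => simp [hν0]
    | insert a s ha ih =>
      rw [Finset.sum_insert ha, Finset.sum_insert ha]
      exact (hνadd _ _).trans (add_le_add le_rfl ih)
  set P : Finset (Fin N) := univ.filter fun b => b ∈ S ∨ ∃ b' ∈ S, adj b b' with hPdef
  have hP : ∀ b, b ∈ P ↔ b ∈ S ∨ ∃ b' ∈ S, adj b b' := by
    intro b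
    rw [hPdef, mem_filter]
    simp
  have hPc := card_P adj K hsym hK S P hP
  set M : ℕ := tm q with hM
  set a : ℝ := 1 + 2 * (P.card * y0 + (N * y0) ^ 2) with ha
  have ha0 : 0 ≤ a := by positivity
  set ρ : ℝ := r / (10 * K * (K + 1) ^ 2) with hρ
  have hQ : ∀ C : Fin M → Fin N → Bool, ν (QS y P C) ≤ A * (a ^ M * wt (4 * y0) P C) := by
    intro C
    unfold QS pr wt
    refine (hνp _).trans (mul_le_mul_of_nonneg_left ?_ hA)
    refine (Finset.prod_le_prod (fun t _ => hp0 _) fun t _ =>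
      slice_bound' p hpadd hpc y y0 hy0 hy hG hN P (C t)).trans (le_of_eq ?_)
    rw [Finset.prod_mul_distrib]
    simp [ha]
  rw [EB_eq y _ S P (by
    intro F b hb
    have hbP : b ∈ P := (hP b).2 (Or.inl hb)
    rw [act_congr adj q (fun t b => decide (b ∈ P) && F t b) F b (fun t => by simp [hbP])
      (fun t b' hb' => by
        have : b' ∈ P := (hP b').2 (Or.inr ⟨b, hb, hsym _ _ hb'⟩)
        simp [this])])]
  have hc := hcomb N adj K hsym hirr hK1 hK q r (4 * y0) (by positivity) (by linarith) S P hP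
  have h1 : ν (∑ C : Fin M → Fin N → Bool,
      (if (∀ t b, b ∉ P → C t b = false) ∧ (∀ b ∈ S, r < act adj q C b) then QS y P C else 0)) ≤
      ∑ C : Fin M → Fin N → Bool, A * (a ^ M *
        (if (∀ t b, b ∉ P → C t b = false) ∧ (∀ b ∈ S, r < act adj q C b) then
          wt (4 * y0) P C else 0)) := by
    refine (hνsum _ _).trans (Finset.sum_le_sum fun C _ => ?_)
    split_ifs with hC
    · exact hQ C
    · rw [hν0]; simp
  refine le_trans (le_of_eq ?_) (h1.trans ?_)
  · congr 1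
    refine Finset.sum_congr rfl fun C _ => ?_
    congr
  rw [← Finset.mul_sum, ← Finset.mul_sum]
  refine mul_le_mul_of_nonneg_left ?_ hA
  have h2 : ∑ C : Fin M → Fin N → Bool,
        (if (∀ t b, b ∉ P → C t b = false) ∧ (∀ b ∈ S, r < act adj q C b) then
          wt (4 * y0) P C else 0) ≤
      (Real.exp (20 * (K + 1) ^ 2 * (1 + M * (4 * y0)) - ρ)) ^ S.card := by
    refine le_trans (le_of_eq ?_) hc
    refine Finset.sum_congr rfl fun C _ => ?_
    congr
  have h3 : a ^ M ≤ Real.exp (2 * M * (N * y0) ^ 2) * Real.exp (2 * (K + 1) * (M * y0)) ^ S.card := by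
    have h4 : a ≤ Real.exp (2 * ((N * y0) ^ 2 + P.card * y0)) := by
      have h5 := Real.add_one_le_exp (2 * ((N * y0) ^ 2 + P.card * y0))
      rw [ha]; linarith
    have hPc' : (P.card : ℝ) ≤ (K + 1) * S.card := by exact_mod_cast hPc
    have h6 : (P.card : ℝ) * y0 ≤ (K + 1) * S.card * y0 := mul_le_mul_of_nonneg_right hPc' hy0
    calc a ^ M ≤ (Real.exp (2 * ((N * y0) ^ 2 + P.card * y0))) ^ M :=
          pow_le_pow_left₀ ha0 h4 M
      _ = Real.exp (M * (2 * ((N * y0) ^ 2 + P.card * y0))) := (Real.exp_nat_mul _ _).symm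
      _ ≤ Real.exp (M * (2 * ((N * y0) ^ 2 + (K + 1) * S.card * y0))) := by
          apply Real.exp_le_exp.2
          refine mul_le_mul_of_nonneg_left ?_ (Nat.cast_nonneg _)
          linarith
      _ = _ := by
          rw [← Real.exp_nat_mul, ← Real.exp_add]
          congr 1
          ring
  refine (mul_le_mul h3 h2 (Finset.sum_nonneg fun C _ => ?_) (by positivity)).trans ?_
  · split_ifs
    · exact wt_nonneg (by positivity) P C
    · exact le_rfl
  rw [mul_assoc, ← mul_pow, ← Real.exp_add]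
  refine mul_le_mul_of_nonneg_left ?_ (Real.exp_pos _).le
  refine pow_le_pow_left₀ (Real.exp_pos _).le ?_ _
  apply Real.exp_le_exp.2
  have hMy : 0 ≤ (M : ℝ) * y0 := by positivity
  have hK0 : (1 : ℝ) ≤ K := by exact_mod_cast hK1
  nlinarith [mul_nonneg hMy (by nlinarith : (0:ℝ) ≤ 20 * (K + 1) ^ 2 - 2 * (K + 1)),
    sq_nonneg ((K : ℝ) + 1)]

/-- Frobenius type bound for the truncated expansion, and distance to the product. -/
theorem KA_bound (hcomb : COMB) (adj : Fin N → Fin N → Prop) (K : ℕ)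
    (hsym : ∀ b b', adj b b' → adj b' b) (hirr : ∀ b, ¬ adj b b) (hK1 : 1 ≤ K)
    (hK : ∀ b, open Classical in (univ.filter fun b' => adj b b').card ≤ K) (q r : ℕ)
    (p ν : R → ℝ) (hp0 : ∀ a, 0 ≤ p a) (hpadd : ∀ a b, p (a + b) ≤ p a + p b)
    (hpc : ∀ a, p a ≤ 4 / 3 * ‖a‖) (hν0 : ν 0 = 0) (hνadd : ∀ a b, ν (a + b) ≤ ν a + ν b)
    (hνneg : ∀ a, ν (-a) = ν a) (A : ℝ) (hA : 0 ≤ A)
    (hνp : ∀ z : Fin (tm q) → R, ν (op z) ≤ A * ∏ t, p (z t))
    (y : Fin N → R) (y0 : ℝ) (hy0 : 0 ≤ y0) (hy1 : y0 ≤ 1 / 80) (hy : ∀ b, ‖y b‖ ≤ y0)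
    (hG : p (1 + ∑ b, y b) ≤ 1) (hN : N * y0 ≤ 1 / 4) (hM : 2 * tm q * (N * y0) ^ 2 ≤ 1)
    (hr : N * Real.exp (100 * (K + 1) ^ 2 * (1 + tm q * y0) - r / (10 * K * (K + 1) ^ 2)) ≤ 1) :
    ν (KA adj q y r) ≤ A * 9 ∧ ν (KA adj q y r - (op fun b => 1 + y b) ^ tm q) ≤
      A * (6 * (N * Real.exp (100 * (K + 1) ^ 2 * (1 + tm q * y0) -
        r / (10 * K * (K + 1) ^ 2)))) := by
  classical
  have hνsum : ∀ {ι : Type} (s : Finset ι) (f : ι → R), ν (∑ i ∈ s, f i) ≤ ∑ i ∈ s, ν (f i) := by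
    intro ι s f
    induction s using Finset.induction_on with
    | empty => simp [hν0]
    | insert a s ha ih =>
      rw [Finset.sum_insert ha, Finset.sum_insert ha]
      exact (hνadd _ _).trans (add_le_add le_rfl ih)
  set δ : ℝ := Real.exp (100 * (K + 1) ^ 2 * (1 + tm q * y0) - r / (10 * K * (K + 1) ^ 2)) with hδ
  set u : ℝ := 2 * tm q * (N * y0) ^ 2 with hu
  have hδ0 : 0 < δ := Real.exp_pos _
  have hu0 : 0 ≤ u := by positivity
  have hKA : KA adj q y r = KB y (fun F b => r < act adj q F b) := by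
    unfold KA KB
    refine Finset.sum_congr rfl fun F _ => ?_
    simp only [not_lt]
  have h3 : ∀ S : Finset (Fin N),
      ν (((-1 : ℤ) ^ S.card) • EB y (fun F b => r < act adj q F b) S) ≤
      A * (Real.exp u * δ ^ S.card) := by
    intro S
    have h4 : ν (((-1 : ℤ) ^ S.card) • EB y (fun F b => r < act adj q F b) S) =
        ν (EB y (fun F b => r < act adj q F b) S) := by
      rcases neg_one_pow_eq_or ℤ S.card with h | h <;> rw [h]
      · rw [one_smul]
      · rw [neg_smul, one_smul, hνneg]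
    rw [h4]
    exact EB_bound hcomb adj K hsym hirr hK1 hK q r p ν hp0 hpadd hpc hν0 hνadd A hA hνp y y0
      hy0 hy1 hy hG hN S
  have h5 : ∑ S : Finset (Fin N), δ ^ S.card = (1 + δ) ^ N := by
    have h5 := Finset.sum_pow_mul_eq_add_pow δ 1 (univ : Finset (Fin N))
    rw [Finset.powerset_univ] at h5
    simp only [one_pow, mul_one, card_univ, Fintype.card_fin] at h5
    rw [h5, add_comm]
  have h6 : (1 + δ) ^ N ≤ Real.exp (N * δ) := by
    rw [Real.exp_nat_mul]
    exact pow_le_pow_left₀ (by positivity) (by linarith [Real.add_one_le_exp δ]) N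
  have h7 := exp_bd2 (u := N * δ) (by positivity) hr
  have h8 : Real.exp u ≤ 3 := by
    have := exp_bd2 hu0 hM
    linarith
  constructor
  · rw [hKA, incl_excl']
    refine (hνsum _ _).trans ?_
    refine (Finset.sum_le_sum fun S _ => h3 S).trans ?_
    rw [← Finset.mul_sum, ← Finset.mul_sum, h5]
    refine mul_le_mul_of_nonneg_left ?_ hA
    calc Real.exp u * (1 + δ) ^ N ≤ 3 * 3 :=
          mul_le_mul h8 (by linarith) (by positivity) (by norm_num)
      _ = 9 := by norm_num
  · rw [hKA, incl_excl', ← EB_empty y (fun F b => r < act adj q F b)]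
    rw [← Finset.add_sum_erase univ _ (mem_univ (∅ : Finset (Fin N)))]
    simp only [card_empty, pow_zero, one_smul, add_sub_cancel_left]
    refine (hνsum _ _).trans ((Finset.sum_le_sum fun S _ => h3 S).trans ?_)
    rw [← Finset.mul_sum, ← Finset.mul_sum]
    refine mul_le_mul_of_nonneg_left ?_ hA
    rw [← Finset.add_sum_erase univ _ (mem_univ (∅ : Finset (Fin N)))] at h5
    simp only [card_empty, pow_zero] at h5
    have h9 : ∑ S ∈ univ.erase (∅ : Finset (Fin N)), δ ^ S.card ≤ 2 * (N * δ) := by linarith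
    have h10 : 0 ≤ ∑ S ∈ univ.erase (∅ : Finset (Fin N)), δ ^ S.card :=
      Finset.sum_nonneg fun S _ => by positivity
    calc _ ≤ 3 * (2 * (N * δ)) := mul_le_mul h8 h9 h10 (by norm_num)
      _ = 6 * (N * δ) := by ring

/-- the truncated expansion approximates the power of `1 + ∑ y` -/
theorem trunc_KA (hcomb : COMB) (adj : Fin N → Fin N → Prop) (K : ℕ)
    (hsym : ∀ b b', adj b b' → adj b' b) (hirr : ∀ b, ¬ adj b b) (hK1 : 1 ≤ K)
    (hK : ∀ b, open Classical in (univ.filter fun b' => adj b b').card ≤ K) (q r : ℕ)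
    (y : Fin N → R) (y0 g : ℝ) (hy0 : 0 ≤ y0) (hy1 : y0 ≤ 1 / 80) (hy : ∀ b, ‖y b‖ ≤ y0)
    (hG : ‖1 + ∑ b, y b‖ ≤ g) (hg : 3 / 4 ≤ g) (hN : N * y0 ≤ 1 / 4)
    (hM : 2 * tm q * (N * y0) ^ 2 ≤ 1)
    (hr : N * Real.exp (100 * (K + 1) ^ 2 * (1 + tm q * y0) - r / (10 * K * (K + 1) ^ 2)) ≤ 1) :
    ‖KA adj q y r - (1 + ∑ b, y b) ^ tm q‖ ≤ g ^ tm q *
      (6 * (N * Real.exp (100 * (K + 1) ^ 2 * (1 + tm q * y0) - r / (10 * K * (K + 1) ^ 2))) +
        4 * (tm q * (N * y0) ^ 2)) := by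
  classical
  have hg0 : 0 < g := by linarith
  have hnn : ∀ z : Fin (tm q) → R, ‖op z‖ ≤ g ^ tm q * ∏ t, (‖z t‖ / g) := by
    intro z
    refine (norm_op_le z (fun t => ‖z t‖) fun t => le_rfl).trans (le_of_eq ?_)
    rw [Finset.prod_div_distrib, Finset.prod_const, Finset.card_univ, Fintype.card_fin]
    field_simp
  obtain ⟨-, h2⟩ := KA_bound hcomb adj K hsym hirr hK1 hK q r (fun a => ‖a‖ / g) (fun a => ‖a‖)
    (fun a => by positivity)
    (fun a b => by rw [← add_div]; exact div_le_div_of_nonneg_right (norm_add_le _ _) hg0.le)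
    (fun a => by
      rw [div_le_iff₀ hg0]
      have := norm_nonneg a
      nlinarith)
    norm_zero norm_add_le norm_neg (g ^ tm q) (by positivity) hnn y y0 hy0 hy1 hy
    (by rw [div_le_one hg0]; exact hG) hN hM hr
  set G : R := 1 + ∑ b, y b with hGdef
  set T : R := op fun b => 1 + y b with hT
  set u : ℝ := 2 * tm q * (N * y0) ^ 2 with hu
  have hu0 : 0 ≤ u := by positivity
  have h1 : ‖T ^ tm q - G ^ tm q‖ ≤ g ^ tm q * (Real.exp u - 1) := by
    have h2 : ‖T - G‖ ≤ (N * y0) ^ 2 :=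
      ((norm_op_sub y y0 hy hy0).2).trans (pow_bd hy0 (by linarith))
    have h3 := norm_pow_sub G (T - G) g _ hG h2 (tm q)
    rw [add_sub_cancel] at h3
    refine h3.trans ?_
    have h4 : g + (N * y0) ^ 2 ≤ g * Real.exp (2 * (N * y0) ^ 2) := by
      have h5 := Real.add_one_le_exp (2 * ((N : ℝ) * y0) ^ 2)
      have h6 : g * (2 * ((N : ℝ) * y0) ^ 2 + 1) ≤ g * Real.exp (2 * (N * y0) ^ 2) :=
        mul_le_mul_of_nonneg_left h5 hg0.le
      nlinarith [sq_nonneg ((N : ℝ) * y0)]
    have h5 : (g + (N * y0) ^ 2) ^ tm q ≤ g ^ tm q * Real.exp u := by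
      calc (g + (N * y0) ^ 2) ^ tm q ≤ (g * Real.exp (2 * (N * y0) ^ 2)) ^ tm q :=
            pow_le_pow_left₀ (by positivity) h4 (tm q)
        _ = g ^ tm q * Real.exp u := by
            rw [mul_pow, ← Real.exp_nat_mul]
            congr 2
            rw [hu]; ring
    nlinarith
  have h5 : Real.exp u - 1 ≤ 2 * u := exp_bd2 hu0 hM
  have hgM : 0 < g ^ tm q := by positivity
  calc ‖KA adj q y r - G ^ tm q‖ = ‖(KA adj q y r - T ^ tm q) + (T ^ tm q - G ^ tm q)‖ := by
        congr 1; abel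
    _ ≤ g ^ tm q * (6 * (N * Real.exp (100 * (K + 1) ^ 2 * (1 + tm q * y0) -
          r / (10 * K * (K + 1) ^ 2)))) + g ^ tm q * (Real.exp u - 1) :=
        (norm_add_le _ _).trans (add_le_add h2 h1)
    _ ≤ g ^ tm q * (6 * (N * Real.exp (100 * (K + 1) ^ 2 * (1 + tm q * y0) -
          r / (10 * K * (K + 1) ^ 2)))) + g ^ tm q * (2 * u) :=
        add_le_add le_rfl (mul_le_mul_of_nonneg_left h5 hgM.le)
    _ = _ := by rw [hu]; ring

end norm

end Pool.Agent.TH235.PQ
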