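import Pool.Agent.TH235.PQ.Lab
import Pool.Agent.TH235.PP.Par

set_option autoImplicit false
set_option linter.unusedSectionVars false

open scoped BigOperators Matrix
open Finset Pool.Agent.TH235.PP

namespace Pool.Agent.TH235.PQ

/-- cardinality of the virtual index set -/
lemma card_bdK (hcount : COUNT) {d R' : ℕ} (D0 q r : ℕ) :
    ((Fintype.card (Fin D0 × (Fin (2 * R' + 1) × Fin (2 * R' + 1) → LabT d (R' + 1) q r)) : ℕ) : ℝ) ≤
      D0 * Real.exp (4 * ((Fintype.card (Lm d (R' + 1)) : ℕ) + 1) * (2 * r + 2) *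
        ((2 * R' + 1 : ℕ) : ℝ) ^ 2) := by
  rw [Fintype.card_prod, Fintype.card_fin, Fintype.card_fun, Fintype.card_prod, Fintype.card_fin]
  generalize hp : Fintype.card (LabT d (R' + 1) q r) = p
  have h1 : p ≤ 2 * (4 * (Fintype.card (Lm d (R' + 1)) + 1)) ^ (2 * r + 1) := by
    have := hcount (Lm d (R' + 1)) q (2 * r + 1)
    rw [← hp, ← Nat.card_eq_fintype_card]
    exact this
  generalize Fintype.card (Lm d (R' + 1)) = P at h1
  have h2 : p ≤ (4 * (P + 1)) ^ (2 * r + 2) := by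
    refine h1.trans ?_
    rw [pow_succ _ (2 * r + 1), mul_comm]
    exact Nat.mul_le_mul_left _ (by omega)
  have h3 : (p : ℝ) ≤ Real.exp (4 * ((P : ℝ) + 1) * (2 * r + 2)) := by
    have h4 : (p : ℝ) ≤ (4 * ((P : ℝ) + 1)) ^ (2 * r + 2) := by exact_mod_cast h2
    have h5 : 4 * ((P : ℝ) + 1) ≤ Real.exp (4 * ((P : ℝ) + 1)) := by
      have := Real.add_one_le_exp (4 * ((P : ℝ) + 1))
      linarith
    refine h4.trans ((pow_le_pow_left₀ (by positivity) h5 _).trans (le_of_eq ?_))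
    rw [← Real.exp_nat_mul]
    congr 1
    push_cast
    ring
  rw [Nat.cast_mul, Nat.cast_pow]
  refine mul_le_mul_of_nonneg_left ?_ (Nat.cast_nonneg _)
  calc (p : ℝ) ^ ((2 * R' + 1) * (2 * R' + 1))
      ≤ (Real.exp (4 * ((P : ℝ) + 1) * (2 * r + 2))) ^ ((2 * R' + 1) * (2 * R' + 1)) :=
        pow_le_pow_left₀ (Nat.cast_nonneg _) h3 _
    _ = _ := by
        rw [← Real.exp_nat_mul]
        congr 1
        push_cast
        ring

lemma tm_pos (q : ℕ) : 1 ≤ tm q := by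
  induction q with
  | zero => unfold tm; omega
  | succ q ih => unfold tm; omega

lemma tm_ge (q : ℕ) : q ≤ tm q := by
  induction q with
  | zero => omega
  | succ q ih =>
    have := tm_pos q
    unfold tm
    omega

/-- choice of the number of time steps -/
lemma par_q (B N Θ : ℝ) (hB : 0 ≤ B) (hN : 1 ≤ N) :
    ∃ q : ℕ, (1 : ℝ) ≤ tm q ∧ (N * B) / tm q ≤ 1 / 80 ∧ (N * B) ^ 2 / tm q ≤ Real.exp (-Θ) / 16 := by
  obtain ⟨q, hq⟩ := exists_nat_ge (80 * (N * B) + (N * B) ^ 2 * 16 * Real.exp Θ)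
  have h1 : (q : ℝ) ≤ tm q := by exact_mod_cast tm_ge q
  have h2 : (1 : ℝ) ≤ tm q := by exact_mod_cast tm_pos q
  have h0 : (0 : ℝ) < tm q := by linarith
  have hNB : 0 ≤ N * B := by positivity
  have hE := Real.exp_pos Θ
  refine ⟨q, h2, ?_, ?_⟩
  · rw [div_le_iff₀ h0]
    have : 0 ≤ (N * B) ^ 2 * 16 * Real.exp Θ := by positivity
    linarith
  · rw [div_le_iff₀ h0]
    have h3 : (N * B) ^ 2 * 16 * Real.exp Θ ≤ tm q := by linarith
    have h4 : Real.exp (-Θ) * Real.exp Θ = 1 := by rw [← Real.exp_add]; simp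
    have h5 := mul_le_mul_of_nonneg_left h3 (by positivity : 0 ≤ Real.exp (-Θ) / 16)
    have h6 : Real.exp (-Θ) / 16 * ((N * B) ^ 2 * 16 * Real.exp Θ) =
        (N * B) ^ 2 * (Real.exp (-Θ) * Real.exp Θ) := by ring
    rw [h6, h4, mul_one] at h5
    exact h5

/-- choice of the truncation parameter -/
lemma par_r (c1 c2 X E : ℝ) (hc2 : 0 < c2) (hX : 0 ≤ c1 * X + E) :
    ∃ r : ℕ, c1 * X - r / c2 ≤ -E ∧ (r : ℝ) ≤ c2 * (c1 * X + E) + 1 := by
  refine ⟨⌈c2 * (c1 * X + E)⌉₊, ?_, ?_⟩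
  · have h1 := Nat.le_ceil (c2 * (c1 * X + E))
    have h2 : c1 * X + E ≤ (⌈c2 * (c1 * X + E)⌉₊ : ℝ) / c2 := by
      rw [le_div_iff₀ hc2, mul_comm]
      exact h1
    linarith
  · exact (Nat.ceil_lt_add_one (by positivity)).le

end Pool.Agent.TH235.PQ
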