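import Pool.Agent.TH235.PP.Asm
import Pool.Agent.TH235.PP.Spec

set_option autoImplicit false
set_option linter.unusedSectionVars false

open scoped BigOperators
open Finset Pool.Agent.TH235.PP

namespace Pool.Agent.TH235.PQ

/-! ### time steps (a dyadic interval of length `2^q`) and nodes of the binary tree (in preorder) -/

/-- `2 ^ q` time steps -/
def tm : ℕ → ℕ
  | 0 => 1
  | q + 1 => tm q + tm q

/-- `2 ^ (q+1) - 1` nodes of the binary tree of depth `q`: the root, the left and the right subtree -/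
def nn : ℕ → ℕ
  | 0 => 1
  | q + 1 => 1 + (nn q + nn q)

/-- restriction to the first half of the time steps -/
def lf {X : Type*} {q : ℕ} (F : Fin (tm (q + 1)) → X) : Fin (tm q) → X :=
  fun t => F (Fin.castAdd (tm q) t)

/-- restriction to the second half of the time steps -/
def rg {X : Type*} {q : ℕ} (F : Fin (tm (q + 1)) → X) : Fin (tm q) → X :=
  fun t => F (Fin.natAdd (tm q) t)

/-- the value at the root -/
def nroot {X : Type*} {q : ℕ} (G : Fin (nn (q + 1)) → X) : X :=
  G (Fin.castAdd (nn q + nn q) (0 : Fin 1))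

/-- restriction to the left subtree -/
def nlf {X : Type*} {q : ℕ} (G : Fin (nn (q + 1)) → X) : Fin (nn q) → X :=
  fun n => G (Fin.natAdd 1 (Fin.castAdd (nn q) n))

/-- restriction to the right subtree -/
def nrg {X : Type*} {q : ℕ} (G : Fin (nn (q + 1)) → X) : Fin (nn q) → X :=
  fun n => G (Fin.natAdd 1 (Fin.natAdd (nn q) n))

/-- the column `b` is used -/
def occ {M N : ℕ} (F : Fin M → Fin N → Bool) (b : Fin N) : Prop := ∃ t, F t b = true

open Classical in
/-- number of nodes at which `b` and one of its neighbours are used -/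
noncomputable def act {N : ℕ} (adj : Fin N → Fin N → Prop) :
    (q : ℕ) → (Fin (tm q) → Fin N → Bool) → Fin N → ℕ
  | 0, F, b => if occ F b ∧ ∃ b', adj b b' ∧ occ F b' then 1 else 0
  | q + 1, F, b => (if occ F b ∧ ∃ b', adj b b' ∧ occ F b' then 1 else 0) +
      act adj q (lf F) b + act adj q (rg F) b

open Classical in
/-- the truncated expansion: at most `r` active nodes for every term -/
noncomputable def KA {R : Type*} [Ring R] {N : ℕ} (adj : Fin N → Fin N → Prop) (q : ℕ)
    (y : Fin N → R) (r : ℕ) : R :=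
  ∑ F : Fin (tm q) → Fin N → Bool, if (∀ b, act adj q F b ≤ r) then PF y F else 0

open Classical in
/-- number of nodes at which both columns are used -/
noncomputable def jj : (q : ℕ) → (Fin (tm q) → Bool) → (Fin (tm q) → Bool) → ℕ
  | 0, T, T' => if (∃ t, T t = true) ∧ (∃ t, T' t = true) then 1 else 0
  | q + 1, T, T' => (if (∃ t, T t = true) ∧ (∃ t, T' t = true) then 1 else 0) +
      jj q (lf T) (lf T') + jj q (rg T) (rg T')

/-- number of used time steps -/
def cn {M : ℕ} (T : Fin M → Bool) : ℕ := (univ.filter fun t => T t = true).card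

/-! ### node patterns -/

open Classical in
/-- admissibility of a pattern of terminal nodes at the term `b` -/
def adm {N : ℕ} (adj : Fin N → Fin N → Prop) :
    (q : ℕ) → (Fin (nn q) → Fin N → Bool) → Fin N → Prop
  | 0, _, _ => True
  | q + 1, G, b =>
      (nroot G b = true → ¬ occ (nlf G) b ∧ ¬ occ (nrg G) b ∧ ∀ b', adj b b' → ¬ occ G b') ∧
      (occ (nlf G) b ∨ occ (nrg G) b → ∃ b', adj b b' ∧ occ G b') ∧
      adm adj q (nlf G) b ∧ adm adj q (nrg G) b

open Classical in
/-- number of nodes at which `b` and one of its neighbours are used -/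
noncomputable def actn {N : ℕ} (adj : Fin N → Fin N → Prop) :
    (q : ℕ) → (Fin (nn q) → Fin N → Bool) → Fin N → ℕ
  | 0, G, b => if occ G b ∧ ∃ b', adj b b' ∧ occ G b' then 1 else 0
  | q + 1, G, b => (if occ G b ∧ ∃ b', adj b b' ∧ occ G b' then 1 else 0) +
      actn adj q (nlf G) b + actn adj q (nrg G) b

/-- number of time steps of a node -/
def len : (q : ℕ) → Fin (nn q) → ℕ
  | 0, _ => 1
  | q + 1, n => Fin.addCases (motive := fun _ => ℕ) (fun _ : Fin 1 => tm (q + 1))
      (fun m : Fin (nn q + nn q) => Fin.addCases (motive := fun _ => ℕ) (len q) (len q) m) n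

/-- the ordered product of a pattern of terminal nodes -/
def PN {R : Type*} [Ring R] {N : ℕ} (q : ℕ) (y : Fin N → R) (G : Fin (nn q) → Fin N → Bool) : R :=
  pr fun n b => if G n b = true then (1 + y b) ^ len q n - 1 else 1

open Classical in
/-- size of a tree of labels: number of nodes above labels -/
noncomputable def sz {Λ : Type*} : (q : ℕ) → (Fin (nn q) → Option Λ) → ℕ
  | 0, φ => if ∃ n, (φ n).isSome = true then 1 else 0
  | q + 1, φ => if ∃ n, (φ n).isSome = true then 1 + sz q (nlf φ) + sz q (nrg φ) else 0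

/-! ### statements of the pieces -/

/-- (PAIR) exponential moment of the number of common nodes -/
def PAIR : Prop := ∀ (q : ℕ) (x : ℝ), 0 ≤ x → x ≤ 1 / 20 →
  ∑ T : Fin (tm q) → Bool, ∑ T' : Fin (tm q) → Bool,
    x ^ cn T * x ^ cn T' * (9 / 8 : ℝ) ^ jj q T T' ≤ 2 * Real.exp (7 * (tm q * x))

/-- (COUNT) number of trees of labels of bounded size -/
def COUNT : Prop := ∀ (Λ : Type) [Fintype Λ] (q r : ℕ),
  Nat.card {φ : Fin (nn q) → Option Λ // sz q φ ≤ r} ≤ 2 * (4 * (Fintype.card Λ + 1)) ^ r

/-- (REG) the truncated expansion as a sum over admissible patterns of terminal nodes -/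
def REG : Prop := ∀ (R : Type) [Ring R] (N : ℕ) (adj : Fin N → Fin N → Prop) (y : Fin N → R),
  (∀ b b', adj b b' → adj b' b) → (∀ b, ¬ adj b b) →
  (∀ b b', ¬ adj b b' → y b * y b' = y b' * y b) → ∀ q r : ℕ,
  KA adj q y r = ∑ G : Fin (nn q) → Fin N → Bool,
    open Classical in if (∀ b, adm adj q G b) ∧ (∀ b, actn adj q G b ≤ r) then PN q y G else 0

/-- (COMB) weighted count of the configurations for which all terms of `S` have more than `r`
active nodes. `P` is the closed neighbourhood of `S`. -/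
def COMB : Prop := ∀ (N : ℕ) (adj : Fin N → Fin N → Prop) (K : ℕ),
  (∀ b b', adj b b' → adj b' b) → (∀ b, ¬ adj b b) → 1 ≤ K →
  (∀ b, open Classical in (univ.filter fun b' => adj b b').card ≤ K) →
  ∀ (q r : ℕ) (x : ℝ), 0 ≤ x → x ≤ 1 / 20 → ∀ S P : Finset (Fin N),
  (∀ b, b ∈ P ↔ b ∈ S ∨ ∃ b' ∈ S, adj b b') →
  (∑ C : Fin (tm q) → Fin N → Bool, open Classical in
    if (∀ t b, b ∉ P → C t b = false) ∧ (∀ b ∈ S, r < act adj q C b) then wt x P C else 0) ≤
    (Real.exp (20 * (K + 1) ^ 2 * (1 + tm q * x) - r / (10 * K * (K + 1) ^ 2))) ^ S.card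

end Pool.Agent.TH235.PQ
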