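import Pool.Agent.TH235.PQ.Base

set_option autoImplicit false
set_option linter.unusedSectionVars false

open scoped BigOperators
open Finset Pool.Agent.TH235.PP

namespace Pool.Agent.TH235.PQ

namespace CombAux

section fact

variable {ι Y : Type*} [Fintype ι] [DecidableEq ι] [Fintype Y]

/-- summing one coordinate twice -/
lemma upd (F : (ι → Y) → ℝ) (j : ι) :
    ∑ D : ι → Y, ∑ T : Y, F (Function.update D j T) = (Fintype.card Y : ℝ) * ∑ D : ι → Y, F D := by
  have h1 : ∑ D : ι → Y, ∑ T : Y, F (Function.update D j T) =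
      ∑ p : (ι → Y) × Y, F (Function.update p.1 j p.2) := by
    rw [Fintype.sum_prod_type]
  have h2 : ∑ p : (ι → Y) × Y, F (Function.update p.1 j p.2) = ∑ p : (ι → Y) × Y, F p.1 := by
    refine Finset.sum_nbij' (fun p => (Function.update p.1 j p.2, p.1 j))
      (fun p => (Function.update p.1 j p.2, p.1 j)) ?_ ?_ ?_ ?_ ?_
    · intro p _; exact mem_univ _
    · intro p _; exact mem_univ _
    · intro p _; simp
    · intro p _; simp
    · intro p _; rfl
  rw [h1, h2, Fintype.sum_prod_type]
  simp [Finset.mul_sum]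

lemma fact [Nonempty Y] (h : Y → Y → ℝ) (m : ι → ι) (S : Finset ι) :
    ∀ W : ι → Y → ℝ, Set.InjOn m S → (∀ b ∈ S, m b ∉ S) →
    ∑ D : ι → Y, (∏ v, W v (D v)) * ∏ b ∈ S, h (D b) (D (m b)) =
      ∏ v, (if v ∈ S then ∑ T : Y, ∑ T' : Y, W v T * W (m v) T' * h T T'
        else if v ∈ S.image m then 1 else ∑ T : Y, W v T) := by
  induction S using Finset.induction_on with
  | empty =>
    intro W _ _
    simp only [Finset.prod_empty, mul_one, Finset.notMem_empty, if_false, Finset.image_empty]
    rw [Finset.prod_univ_sum]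
    simp
  | insert b S hb ih =>
    intro W hinj hdis
    have hbj : m b ≠ b := fun hh => hdis b (mem_insert_self _ _) (by rw [hh]; exact mem_insert_self _ _)
    have hjS : m b ∉ S := fun hh => hdis b (mem_insert_self _ _) (mem_insert_of_mem hh)
    have hinj' : Set.InjOn m S := hinj.mono (by simp)
    have hdis' : ∀ c ∈ S, m c ∉ S := fun c hc hh =>
      hdis c (mem_insert_of_mem hc) (mem_insert_of_mem hh)
    have hmne : ∀ c ∈ S, m c ≠ m b := fun c hc hh => by
      have := hinj (by simp [hc]) (by simp) hh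
      exact hb (this ▸ hc)
    have hmb : ∀ c ∈ S, m c ≠ b := fun c hc hh =>
      hdis c (mem_insert_of_mem hc) (by rw [hh]; exact mem_insert_self _ _)
    set j := m b with hj
    have hcard : (Fintype.card Y : ℝ) ≠ 0 := by
      have : 0 < Fintype.card Y := Fintype.card_pos
      exact_mod_cast this.ne'
    -- the new weights
    let W' : ι → Y → ℝ := fun v T => if v = b then W b T * ∑ T' : Y, W j T' * h T T'
      else if v = j then (Fintype.card Y : ℝ)⁻¹ else W v T
    have hstep : ∑ D : ι → Y, (∏ v, W v (D v)) * ∏ c ∈ insert b S, h (D c) (D (m c)) =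
        ∑ D : ι → Y, (∏ v, W' v (D v)) * ∏ c ∈ S, h (D c) (D (m c)) := by
      have h1 := upd (fun D : ι → Y => (∏ v, W v (D v)) * ∏ c ∈ insert b S, h (D c) (D (m c))) j
      have h2 : ∀ D : ι → Y, ∑ T : Y, (fun D : ι → Y => (∏ v, W v (D v)) *
          ∏ c ∈ insert b S, h (D c) (D (m c))) (Function.update D j T) =
          (Fintype.card Y : ℝ) * ((∏ v, W' v (D v)) * ∏ c ∈ S, h (D c) (D (m c))) := by
        intro D
        have h3 : ∀ T : Y, (∏ v, W v (Function.update D j T v)) = W j T *
            ∏ v ∈ univ.erase j, W v (D v) := by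
          intro T
          rw [← Finset.mul_prod_erase univ _ (mem_univ j)]
          congr 1
          · simp
          · refine Finset.prod_congr rfl fun v hv => ?_
            rw [Function.update_of_ne (Finset.ne_of_mem_erase hv)]
        have h4 : ∀ T : Y, ∏ c ∈ insert b S, h (Function.update D j T c)
            (Function.update D j T (m c)) = h (D b) T * ∏ c ∈ S, h (D c) (D (m c)) := by
          intro T
          rw [Finset.prod_insert hb]
          congr 1
          · rw [Function.update_of_ne (Ne.symm hbj), ← hj]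
            simp
          · refine Finset.prod_congr rfl fun c hc => ?_
            rw [Function.update_of_ne (fun hh : c = j => hjS (by rw [← hh]; exact hc)),
              Function.update_of_ne (hmne c hc)]
        have h5 : ∏ v, W' v (D v) = (Fintype.card Y : ℝ)⁻¹ *
            ((∑ T' : Y, W j T' * h (D b) T') * ∏ v ∈ univ.erase j, W v (D v)) := by
          rw [← Finset.mul_prod_erase univ _ (mem_univ j)]
          have hbe : b ∈ univ.erase j := Finset.mem_erase.mpr ⟨Ne.symm hbj, mem_univ _⟩
          rw [← Finset.mul_prod_erase _ _ hbe, ← Finset.mul_prod_erase _ (fun v => W v (D v)) hbe]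
          have h6 : ∏ v ∈ (univ.erase j).erase b, W' v (D v) =
              ∏ v ∈ (univ.erase j).erase b, W v (D v) := by
            refine Finset.prod_congr rfl fun v hv => ?_
            have hvb : v ≠ b := Finset.ne_of_mem_erase hv
            have hvj : v ≠ j := Finset.ne_of_mem_erase (Finset.mem_of_mem_erase hv)
            simp only [W', if_neg hvb, if_neg hvj]
          rw [h6]
          simp only [W', if_neg hbj, if_true]
          ring
        simp only [h3, h4]
        rw [h5]
        have h7 : ∀ T : Y, W j T * (∏ v ∈ univ.erase j, W v (D v)) *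
            (h (D b) T * ∏ c ∈ S, h (D c) (D (m c))) =
            (W j T * h (D b) T) * ((∏ v ∈ univ.erase j, W v (D v)) *
              ∏ c ∈ S, h (D c) (D (m c))) := fun T => by ring
        simp only [h7]
        rw [← Finset.sum_mul]
        field_simp
      simp only [h2] at h1
      rw [← Finset.mul_sum] at h1
      exact (mul_left_cancel₀ hcard h1).symm
    rw [hstep, ih W' hinj' hdis']
    refine Finset.prod_congr rfl fun v _ => ?_
    by_cases hvb : v = b
    · subst hvb
      have h8 : v ∉ S.image m := fun hh => by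
        obtain ⟨c, hc, hcv⟩ := Finset.mem_image.mp hh
        exact hmb c hc hcv
      rw [if_neg hb, if_neg h8, if_pos (mem_insert_self _ _)]
      simp only [W', if_true]
      refine Finset.sum_congr rfl fun T _ => ?_
      rw [Finset.mul_sum]
      refine Finset.sum_congr rfl fun T' _ => ?_
      rw [← hj]; ring
    · by_cases hvj : v = j
      · have h9 : v ∉ S.image m := fun hh => by
          obtain ⟨c, hc, hcv⟩ := Finset.mem_image.mp hh
          exact hmne c hc (by rw [hcv, hvj])
        have h10 : v ∉ insert b S := by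
          rw [hvj]; exact hdis b (mem_insert_self _ _)
        have h11 : v ∉ S := fun hh => h10 (mem_insert_of_mem hh)
        have h12 : v ∈ (insert b S).image m :=
          Finset.mem_image.mpr ⟨b, mem_insert_self _ _, by rw [hvj]⟩
        rw [if_neg h11, if_neg h9, if_neg h10, if_pos h12]
        simp only [W', if_neg hvb, if_pos hvj]
        simp [hcard]
      · have h13 : (v ∈ insert b S) ↔ v ∈ S := by simp [hvb]
        have h14 : (v ∈ (insert b S).image m) ↔ v ∈ S.image m := by
          rw [Finset.image_insert, Finset.mem_insert]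
          constructor
          · rintro (hh | hh)
            · exact absurd hh hvj
            · exact hh
          · exact Or.inr
        simp only [h13, h14]
        by_cases hvS : v ∈ S
        · rw [if_pos hvS, if_pos hvS]
          have hmv1 : m v ≠ b := hmb v hvS
          have hmv2 : m v ≠ j := hmne v hvS
          simp only [W', if_neg hvb, if_neg hvj, if_neg hmv1, if_neg hmv2]
        · rw [if_neg hvS, if_neg hvS]
          simp only [W', if_neg hvb, if_neg hvj]

end fact

/-! ### activity and common nodes -/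

open Classical in
lemma act_le {N : ℕ} (adj : Fin N → Fin N → Prop) (b : Fin N) :
    ∀ (q : ℕ) (F : Fin (tm q) → Fin N → Bool),
      act adj q F b ≤ ∑ b' ∈ univ.filter (fun b' => adj b b'),
        jj q (fun t => F t b) (fun t => F t b') := by
  have key : ∀ {M : ℕ} (F : Fin M → Fin N → Bool),
      (if occ F b ∧ ∃ b', adj b b' ∧ occ F b' then 1 else 0) ≤
        ∑ b' ∈ univ.filter (fun b' => adj b b'),
          (if (∃ t, F t b = true) ∧ (∃ t, F t b' = true) then 1 else 0 : ℕ) := by
    intro M F
    split_ifs with hc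
    · obtain ⟨h1, b', h2, h3⟩ := hc
      have hmem : b' ∈ univ.filter (fun b' => adj b b') := by simp [h2]
      refine le_trans ?_ (Finset.single_le_sum
        (f := fun b' => (if (∃ t, F t b = true) ∧ (∃ t, F t b' = true) then 1 else 0 : ℕ))
        (fun _ _ => Nat.zero_le _) hmem)
      rw [if_pos ⟨h1, h3⟩]
    · exact Nat.zero_le _
  intro q
  induction q with
  | zero =>
    intro F
    exact key F
  | succ q ih =>
    intro F
    have h1 := key F
    have h2 := ih (lf F)
    have h3 := ih (rg F)
    have h4 : ∑ b' ∈ univ.filter (fun b' => adj b b'),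
        jj (q + 1) (fun t => F t b) (fun t => F t b') =
        ∑ b' ∈ univ.filter (fun b' => adj b b'),
          (if (∃ t, F t b = true) ∧ (∃ t, F t b' = true) then 1 else 0 : ℕ) +
        ∑ b' ∈ univ.filter (fun b' => adj b b'), jj q (fun t => lf F t b) (fun t => lf F t b') +
        ∑ b' ∈ univ.filter (fun b' => adj b b'), jj q (fun t => rg F t b) (fun t => rg F t b') := by
      rw [← Finset.sum_add_distrib, ← Finset.sum_add_distrib]
      rfl
    rw [h4]
    exact Nat.add_le_add (Nat.add_le_add h1 h2) h3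

/-- a neighbour with many common nodes -/
lemma exists_nbr {N : ℕ} (adj : Fin N → Fin N → Prop) (K : ℕ) (hK : 1 ≤ K) (b : Fin N)
    (hdeg : open Classical in (univ.filter fun b' => adj b b').card ≤ K)
    (q r : ℕ) (F : Fin (tm q) → Fin N → Bool) (h : r < act adj q F b) :
    ∃ b', adj b b' ∧ (r : ℝ) / K ≤ jj q (fun t => F t b) (fun t => F t b') := by
  classical
  by_contra hcon
  push Not at hcon
  have hK0 : (0 : ℝ) < K := by exact_mod_cast hK
  have h1 : (act adj q F b : ℝ) ≤ ∑ b' ∈ univ.filter (fun b' => adj b b'),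
      (jj q (fun t => F t b) (fun t => F t b') : ℝ) := by
    exact_mod_cast act_le adj b q F
  have h2 : ∑ b' ∈ univ.filter (fun b' => adj b b'),
      (jj q (fun t => F t b) (fun t => F t b') : ℝ) ≤
      ∑ b' ∈ univ.filter (fun b' => adj b b'), (r : ℝ) / K := by
    refine Finset.sum_le_sum fun b' hb' => ?_
    exact (hcon b' (Finset.mem_filter.mp hb').2).le
  rw [Finset.sum_const, nsmul_eq_mul] at h2
  have h3 : ((univ.filter fun b' => adj b b').card : ℝ) * ((r : ℝ) / K) ≤ K * ((r : ℝ) / K) := by
    refine mul_le_mul_of_nonneg_right ?_ (by positivity)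
    exact_mod_cast hdeg
  have h4 : (K : ℝ) * ((r : ℝ) / K) = r := by field_simp
  have h5 : (r : ℝ) < act adj q F b := by exact_mod_cast h
  linarith

/-! ### greedy selection -/

lemma greedy {N : ℕ} (adj : Fin N → Fin N → Prop) (K : ℕ)
    (hsym : ∀ b b', adj b b' → adj b' b)
    (hdeg : ∀ b, open Classical in (univ.filter fun b' => adj b b').card ≤ K)
    (S : Finset (Fin N)) :
    ∃ S1 ⊆ S, S.card ≤ (K + 1) ^ 2 * S1.card ∧
      ∀ b ∈ S1, ∀ c ∈ S1, b ≠ c → ∀ v, ¬ ((v = b ∨ adj b v) ∧ (v = c ∨ adj c v)) := by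
  classical
  let good : Finset (Fin N) → Prop := fun S1 =>
    ∀ b ∈ S1, ∀ c ∈ S1, b ≠ c → ∀ v, ¬ ((v = b ∨ adj b v) ∧ (v = c ∨ adj c v))
  have hne : (S.powerset.filter good).Nonempty := by
    refine ⟨∅, ?_⟩
    simp [good]
  obtain ⟨S1, hS1, hmax⟩ := Finset.exists_max_image (S.powerset.filter good) Finset.card hne
  rw [Finset.mem_filter, Finset.mem_powerset] at hS1
  obtain ⟨hsub, hgood⟩ := hS1
  refine ⟨S1, hsub, ?_, hgood⟩
  let nb : Fin N → Finset (Fin N) := fun b => insert b (univ.filter fun b' => adj b b')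
  have hnb : ∀ b, (nb b).card ≤ K + 1 := fun b =>
    (Finset.card_insert_le _ _).trans (Nat.add_le_add_right (hdeg b) 1)
  have hcover : S ⊆ S1.biUnion fun b => (nb b).biUnion nb := by
    intro s hs
    by_cases hsS : s ∈ S1
    · rw [Finset.mem_biUnion]
      refine ⟨s, hsS, ?_⟩
      rw [Finset.mem_biUnion]
      exact ⟨s, Finset.mem_insert_self _ _, Finset.mem_insert_self _ _⟩
    · have hbad : ¬ good (insert s S1) := by
        intro hg
        have hm := hmax (insert s S1) (by
          rw [Finset.mem_filter, Finset.mem_powerset]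
          exact ⟨Finset.insert_subset hs hsub, hg⟩)
        rw [Finset.card_insert_of_notMem hsS] at hm
        omega
      have hex : ∃ b ∈ S1, ∃ v, (v = b ∨ adj b v) ∧ (v = s ∨ adj s v) := by
        by_contra hno
        push Not at hno
        apply hbad
        intro b hb c hc hbc v hv
        rcases Finset.mem_insert.mp hb with rfl | hb1
        · rcases Finset.mem_insert.mp hc with rfl | hc1
          · exact hbc rfl
          · obtain ⟨k1, k2⟩ := hno c hc1 v hv.2
            rcases hv.1 with k3 | k3
            · exact k1 k3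
            · exact k2 k3
        · rcases Finset.mem_insert.mp hc with rfl | hc1
          · obtain ⟨k1, k2⟩ := hno b hb1 v hv.1
            rcases hv.2 with k3 | k3
            · exact k1 k3
            · exact k2 k3
          · exact hgood b hb1 c hc1 hbc v hv
      obtain ⟨b, hb, v, hv1, hv2⟩ := hex
      rw [Finset.mem_biUnion]
      refine ⟨b, hb, ?_⟩
      rw [Finset.mem_biUnion]
      refine ⟨v, ?_, ?_⟩
      · simp only [nb, Finset.mem_insert, Finset.mem_filter, Finset.mem_univ, true_and]
        exact hv1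
      · simp only [nb, Finset.mem_insert, Finset.mem_filter, Finset.mem_univ, true_and]
        rcases hv2 with k | k
        · exact Or.inl k.symm
        · exact Or.inr (hsym _ _ k)
  calc S.card ≤ (S1.biUnion fun b => (nb b).biUnion nb).card := Finset.card_le_card hcover
    _ ≤ S1.card * ((K + 1) * (K + 1)) := by
        refine Finset.card_biUnion_le_card_mul _ _ _ fun b _ => ?_
        refine (Finset.card_biUnion_le_card_mul _ _ (K + 1) fun v _ => hnb v).trans ?_
        exact Nat.mul_le_mul_right _ (hnb b)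
    _ = (K + 1) ^ 2 * S1.card := by ring

/-! ### elementary estimates -/

lemma exp_le_pow (n : ℕ) : Real.exp ((n : ℝ) / 10) ≤ (9 / 8 : ℝ) ^ n := by
  have h1 : Real.exp (1 / 10) ≤ 9 / 8 := by
    have h2 : (1 : ℝ) - 1 / 10 ≤ Real.exp (-(1 / 10)) := by
      have := Real.add_one_le_exp (-(1 / 10 : ℝ))
      linarith
    rw [Real.exp_neg] at h2
    have h3 : 0 < Real.exp (1 / 10 : ℝ) := Real.exp_pos _
    have h4 : (1 - 1 / 10 : ℝ) * Real.exp (1 / 10) ≤ 1 := by
      calc (1 - 1 / 10 : ℝ) * Real.exp (1 / 10) ≤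
          (Real.exp (1 / 10))⁻¹ * Real.exp (1 / 10) :=
            mul_le_mul_of_nonneg_right h2 h3.le
        _ = 1 := inv_mul_cancel₀ h3.ne'
    linarith
  have h5 : Real.exp ((n : ℝ) / 10) = Real.exp (1 / 10) ^ n := by
    rw [← Real.exp_nat_mul]
    congr 1
    ring
  rw [h5]
  exact pow_le_pow_left₀ (Real.exp_pos _).le h1 n

lemma sum_pow_cn (M : ℕ) (x : ℝ) : ∑ T : Fin M → Bool, x ^ cn T = (1 + x) ^ M := by
  have h1 : ∀ T : Fin M → Bool, x ^ cn T = ∏ t, (if T t = true then x else 1) := by
    intro T
    rw [Finset.prod_ite, Finset.prod_const, Finset.prod_const_one, mul_one]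
    rfl
  simp only [h1]
  have h2 := Finset.prod_univ_sum (fun _ : Fin M => (univ : Finset Bool))
    (fun (_ : Fin M) (b : Bool) => (if b = true then x else (1 : ℝ)))
  simp only [Fintype.piFinset_univ] at h2
  rw [← h2]
  simp [add_comm]

lemma sum_pow_cn_le (M : ℕ) (x : ℝ) (hx : 0 ≤ x) :
    ∑ T : Fin M → Bool, x ^ cn T ≤ Real.exp (M * x) := by
  rw [sum_pow_cn, Real.exp_nat_mul]
  refine pow_le_pow_left₀ (by linarith) ?_ M
  have := Real.add_one_le_exp x
  linarith

end CombAux

open CombAux in
theorem comb (hp : PAIR) : COMB := by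
  classical
  intro N adj K hsym hirr hK hdeg q r x hx0 hx1 S P hP
  obtain ⟨S1, hsub, hcard, hgood⟩ := greedy adj K hsym hdeg S
  have hK0 : (0 : ℝ) < K := by exact_mod_cast hK
  have hSP : ∀ b ∈ S, b ∈ P := fun b hb => (hP b).mpr (Or.inl hb)
  have hnP : ∀ b ∈ S, ∀ b', adj b b' → b' ∈ P := fun b hb b' h =>
    (hP b').mpr (Or.inr ⟨b, hb, hsym _ _ h⟩)
  set M : ℕ := tm q with hM
  set ε : ℝ := Real.exp (-((r : ℝ) / (10 * K))) with hε
  have hε0 : 0 < ε := Real.exp_pos _
  let h : (Fin M → Bool) → (Fin M → Bool) → ℝ := fun T T' => (9 / 8 : ℝ) ^ jj q T T'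
  have hh0 : ∀ T T', 0 ≤ h T T' := fun T T' => by positivity
  let W : Fin N → (Fin M → Bool) → ℝ := fun v T =>
    if v ∈ P then x ^ cn T else if T = (fun _ => false) then 1 else 0
  have hW0 : ∀ v T, 0 ≤ W v T := by
    intro v T
    simp only [W]
    split_ifs <;> positivity
  let nbr : Fin N → Finset (Fin N) := fun b => univ.filter fun b' => adj b b'
  let t : Fin N → Finset (Fin N) := fun b => if b ∈ S1 then nbr b else {b}
  let f : (Fin N → Fin M → Bool) → Fin N → Fin N → ℝ := fun D b b' =>
    if b ∈ S1 then ε * h (D b) (D b') else 1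
  have hf0 : ∀ D b b', 0 ≤ f D b b' := by
    intro D b b'
    simp only [f]
    split_ifs
    · exact mul_nonneg hε0.le (hh0 _ _)
    · exact zero_le_one
  -- the columns
  let col : (Fin M → Fin N → Bool) → (Fin N → Fin M → Bool) := fun C b s => C s b
  -- step A
  have hA : ∀ C : Fin M → Fin N → Bool,
      (if (∀ t b, b ∉ P → C t b = false) ∧ (∀ b ∈ S, r < act adj q C b) then wt x P C else 0) ≤
      (∏ v, W v (col C v)) * ∑ m ∈ Fintype.piFinset t, ∏ b, f (col C) b (m b) := by
    intro C
    have hprod0 : 0 ≤ ∏ v, W v (col C v) := Finset.prod_nonneg fun v _ => hW0 _ _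
    have hsum0 : 0 ≤ ∑ m ∈ Fintype.piFinset t, ∏ b, f (col C) b (m b) :=
      Finset.sum_nonneg fun m _ => Finset.prod_nonneg fun b _ => hf0 _ _ _
    split_ifs with hc
    · obtain ⟨hc1, hc2⟩ := hc
      have h1 : wt x P C = ∏ v, W v (col C v) := by
        unfold wt
        rw [Finset.prod_comm]
        refine Finset.prod_congr rfl fun v _ => ?_
        by_cases hv : v ∈ P
        · simp only [W, hv, true_and, if_true]
          rw [Finset.prod_ite, Finset.prod_const, Finset.prod_const_one, mul_one]
          rfl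
        · have h2 : col C v = fun _ => false := funext fun s => hc1 s v hv
          simp only [W, hv, false_and, if_false, h2, if_true, Finset.prod_const_one]
      rw [h1, ← Finset.prod_univ_sum]
      refine le_mul_of_one_le_right hprod0 ?_
      have hone : (1 : ℝ) = ∏ _b : Fin N, (1 : ℝ) := by simp
      rw [hone]
      refine Finset.prod_le_prod (fun _ _ => zero_le_one) ?_
      intro b _
      by_cases hb : b ∈ S1
      · obtain ⟨b', hb', hj⟩ := exists_nbr adj K hK b (hdeg b) q r C (hc2 b (hsub hb))
        have hmem : b' ∈ t b := by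
          simp only [t, if_pos hb, nbr, Finset.mem_filter, Finset.mem_univ, true_and]
          exact hb'
        refine le_trans ?_ (Finset.single_le_sum (f := fun b' => f (col C) b b')
          (fun c _ => hf0 _ _ _) hmem)
        simp only [f, if_pos hb, h, col]
        set n := jj q (fun s => C s b) (fun s => C s b') with hn
        have h3 := exp_le_pow n
        have h4 : Real.exp ((r : ℝ) / (10 * K)) ≤ Real.exp ((n : ℝ) / 10) := by
          apply Real.exp_le_exp.mpr
          have h5 : (r : ℝ) / (10 * K) = ((r : ℝ) / K) / 10 := by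
            field_simp
          rw [h5]
          linarith
        have h6 : ε * Real.exp ((r : ℝ) / (10 * K)) = 1 := by
          rw [hε, ← Real.exp_add]
          simp
        calc (1 : ℝ) = ε * Real.exp ((r : ℝ) / (10 * K)) := h6.symm
          _ ≤ ε * (9 / 8 : ℝ) ^ n := mul_le_mul_of_nonneg_left (h4.trans h3) hε0.le
      · simp only [t, f, if_neg hb, Finset.sum_singleton]
        exact le_refl _
    · exact mul_nonneg hprod0 hsum0
  -- step B
  have hB : (∑ C : Fin M → Fin N → Bool,
      if (∀ t b, b ∉ P → C t b = false) ∧ (∀ b ∈ S, r < act adj q C b) then wt x P C else 0) ≤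
      ∑ m ∈ Fintype.piFinset t, ε ^ S1.card *
        ∑ D : Fin N → Fin M → Bool, (∏ v, W v (D v)) * ∏ b ∈ S1, h (D b) (D (m b)) := by
    refine (Finset.sum_le_sum fun C _ => hA C).trans ?_
    have h1 : ∑ C : Fin M → Fin N → Bool,
        (∏ v, W v (col C v)) * ∑ m ∈ Fintype.piFinset t, ∏ b, f (col C) b (m b) =
        ∑ D : Fin N → Fin M → Bool,
          (∏ v, W v (D v)) * ∑ m ∈ Fintype.piFinset t, ∏ b, f D b (m b) := by
      refine Fintype.sum_equiv (Equiv.piComm fun _ _ => Bool) _ _ ?_
      intro C
      rfl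
    rw [h1]
    simp only [Finset.mul_sum]
    rw [Finset.sum_comm]
    refine Finset.sum_le_sum fun m _ => Finset.sum_le_sum fun D _ => le_of_eq ?_
    have h2 : ∏ b, f D b (m b) = ε ^ S1.card * ∏ b ∈ S1, h (D b) (D (m b)) := by
      simp only [f]
      rw [Finset.prod_ite_mem, Finset.univ_inter, Finset.prod_mul_distrib, Finset.prod_const]
    rw [h2]
    ring
  -- step C
  have hMx : 0 ≤ (M : ℝ) * x := by positivity
  have hC : ∀ m ∈ Fintype.piFinset t,
      ∑ D : Fin N → Fin M → Bool, (∏ v, W v (D v)) * ∏ b ∈ S1, h (D b) (D (m b)) ≤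
      (2 * Real.exp (7 * (M * x))) ^ S1.card * Real.exp (M * x) ^ P.card := by
    intro m hm
    rw [Fintype.mem_piFinset] at hm
    have hmadj : ∀ b ∈ S1, adj b (m b) := by
      intro b hb
      have := hm b
      simp only [t, if_pos hb, nbr, Finset.mem_filter, Finset.mem_univ, true_and] at this
      exact this
    have hinj : Set.InjOn m S1 := by
      intro b hb c hc hbc
      by_contra hne
      exact hgood b hb c hc hne (m b) ⟨Or.inr (hmadj b hb), Or.inr (hbc ▸ hmadj c hc)⟩
    have hdis : ∀ b ∈ S1, m b ∉ S1 := by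
      intro b hb hmb
      have hne : b ≠ m b := fun hh => hirr b (by have := hmadj b hb; rwa [← hh] at this)
      exact hgood b hb (m b) hmb hne (m b) ⟨Or.inr (hmadj b hb), Or.inl rfl⟩
    rw [fact h m S1 W hinj hdis]
    have hbound : ∀ v, (if v ∈ S1 then ∑ T, ∑ T', W v T * W (m v) T' * h T T'
        else if v ∈ S1.image m then 1 else ∑ T, W v T) ≤
        (if v ∈ S1 then 2 * Real.exp (7 * (M * x)) else 1) *
          (if v ∈ P then Real.exp (M * x) else 1) := by
      intro v
      have he1 : 1 ≤ Real.exp (M * x) := Real.one_le_exp hMx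
      have he7 : 0 ≤ 2 * Real.exp (7 * (M * x)) := by positivity
      by_cases hv : v ∈ S1
      · have hvP : v ∈ P := hSP v (hsub hv)
        have hmP : m v ∈ P := hnP v (hsub hv) _ (hmadj v hv)
        simp only [if_pos hv, if_pos hvP]
        have h1 : ∑ T, ∑ T', W v T * W (m v) T' * h T T' ≤ 2 * Real.exp (7 * (M * x)) := by
          have h2 := hp q x hx0 hx1
          simp only [W, if_pos hvP, if_pos hmP, h]
          exact h2
        exact h1.trans (le_mul_of_one_le_right he7 he1)
      · simp only [if_neg hv, one_mul]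
        by_cases hvi : v ∈ S1.image m
        · simp only [if_pos hvi]
          split_ifs
          · exact he1
          · exact le_refl _
        · simp only [if_neg hvi]
          by_cases hvP : v ∈ P
          · simp only [W, if_pos hvP]
            exact sum_pow_cn_le M x hx0
          · simp only [W, if_neg hvP]
            simp
    have hnonneg : ∀ v ∈ (univ : Finset (Fin N)),
        0 ≤ (if v ∈ S1 then ∑ T, ∑ T', W v T * W (m v) T' * h T T'
        else if v ∈ S1.image m then 1 else ∑ T, W v T) := by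
      intro v _
      split_ifs
      · exact Finset.sum_nonneg fun T _ => Finset.sum_nonneg fun T' _ =>
          mul_nonneg (mul_nonneg (hW0 _ _) (hW0 _ _)) (hh0 _ _)
      · exact zero_le_one
      · exact Finset.sum_nonneg fun T _ => hW0 _ _
    refine (Finset.prod_le_prod hnonneg fun v _ => hbound v).trans (le_of_eq ?_)
    rw [Finset.prod_mul_distrib, Finset.prod_ite_mem, Finset.prod_ite_mem, Finset.univ_inter,
      Finset.univ_inter, Finset.prod_const, Finset.prod_const]
  -- step D
  have hD : ((Fintype.piFinset t).card : ℝ) ≤ (K : ℝ) ^ S1.card := by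
    rw [Fintype.card_piFinset]
    have h1 : ∏ b, (t b).card ≤ ∏ b, (if b ∈ S1 then K else 1) := by
      refine Finset.prod_le_prod' fun b _ => ?_
      by_cases hb : b ∈ S1
      · simp only [t, if_pos hb]
        exact hdeg b
      · simp only [t, if_neg hb, Finset.card_singleton]
        exact le_refl _
    rw [Finset.prod_ite_mem, Finset.univ_inter, Finset.prod_const] at h1
    exact_mod_cast h1
  -- the number of columns
  have hPc : (P.card : ℝ) ≤ (K + 1) * S.card := by
    have h1 : P ⊆ S.biUnion fun b => insert b (nbr b) := by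
      intro b hb
      rw [Finset.mem_biUnion]
      rcases (hP b).mp hb with h | ⟨b', hb', h⟩
      · exact ⟨b, h, Finset.mem_insert_self _ _⟩
      · refine ⟨b', hb', Finset.mem_insert_of_mem ?_⟩
        simp only [nbr, Finset.mem_filter, Finset.mem_univ, true_and]
        exact hsym _ _ h
    have h2 : P.card ≤ S.card * (K + 1) := by
      refine (Finset.card_le_card h1).trans ?_
      refine Finset.card_biUnion_le_card_mul _ _ _ fun b _ => ?_
      exact (Finset.card_insert_le _ _).trans (Nat.add_le_add_right (hdeg b) 1)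
    have h3 : (P.card : ℝ) ≤ (S.card : ℝ) * ((K : ℝ) + 1) := by exact_mod_cast h2
    linarith
  -- assembly
  set s1 := S1.card with hs1
  set s := S.card with hs
  have hE : (∑ C : Fin M → Fin N → Bool,
      if (∀ t b, b ∉ P → C t b = false) ∧ (∀ b ∈ S, r < act adj q C b) then wt x P C else 0) ≤
      (K : ℝ) ^ s1 * (ε ^ s1 * ((2 * Real.exp (7 * (M * x))) ^ s1 *
        Real.exp (M * x) ^ P.card)) := by
    refine hB.trans ?_
    refine (Finset.sum_le_sum fun m hm =>
      mul_le_mul_of_nonneg_left (hC m hm) (pow_nonneg hε0.le _)).trans ?_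
    rw [Finset.sum_const, nsmul_eq_mul]
    exact mul_le_mul_of_nonneg_right hD (by positivity)
  refine hE.trans ?_
  have h2K : (K : ℝ) * 2 ≤ Real.exp (2 * K) := by
    have := Real.add_one_le_exp (2 * (K : ℝ))
    linarith
  have hF : (K : ℝ) ^ s1 * (ε ^ s1 * ((2 * Real.exp (7 * (M * x))) ^ s1 *
        Real.exp (M * x) ^ P.card)) ≤
      Real.exp (s1 * (2 * K + 7 * (M * x) - (r : ℝ) / (10 * K)) + P.card * (M * x)) := by
    have h1 : (K : ℝ) ^ s1 * (ε ^ s1 * ((2 * Real.exp (7 * (M * x))) ^ s1 *
        Real.exp (M * x) ^ P.card)) =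
        (((K : ℝ) * 2) * Real.exp (7 * (M * x)) * ε) ^ s1 * Real.exp (M * x) ^ P.card := by
      rw [mul_pow, mul_pow, mul_pow, mul_pow]
      ring
    rw [h1]
    have h3 : (((K : ℝ) * 2) * Real.exp (7 * (M * x)) * ε) ^ s1 ≤
        (Real.exp (2 * K) * Real.exp (7 * (M * x)) * ε) ^ s1 := by
      refine pow_le_pow_left₀ (by positivity) ?_ _
      have h4 := mul_le_mul_of_nonneg_right h2K (Real.exp_pos (7 * (M * x))).le
      exact mul_le_mul_of_nonneg_right h4 hε0.le
    refine (mul_le_mul_of_nonneg_right h3 (by positivity)).trans (le_of_eq ?_)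
    rw [hε, ← Real.exp_add, ← Real.exp_add, ← Real.exp_nat_mul, ← Real.exp_nat_mul, ← Real.exp_add]
    congr 1
  refine hF.trans ?_
  rw [← Real.exp_nat_mul]
  apply Real.exp_le_exp.mpr
  have hs1s : (s1 : ℝ) ≤ s := by exact_mod_cast Finset.card_le_card hsub
  have hcard' : (s : ℝ) ≤ ((K : ℝ) + 1) ^ 2 * s1 := by exact_mod_cast hcard
  have hs10 : (0 : ℝ) ≤ s1 := by positivity
  have hr : (s : ℝ) * ((r : ℝ) / (10 * K * (K + 1) ^ 2)) ≤ s1 * ((r : ℝ) / (10 * K)) := by
    have h1 : (s : ℝ) * ((r : ℝ) / (10 * K * (K + 1) ^ 2)) ≤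
        (((K : ℝ) + 1) ^ 2 * s1) * ((r : ℝ) / (10 * K * (K + 1) ^ 2)) :=
      mul_le_mul_of_nonneg_right hcard' (by positivity)
    refine h1.trans (le_of_eq ?_)
    field_simp
  have h5 : (s1 : ℝ) * (2 * K + 7 * (M * x)) ≤ s * (2 * K + 7 * (M * x)) :=
    mul_le_mul_of_nonneg_right hs1s (by positivity)
  have h6 : (P.card : ℝ) * (M * x) ≤ ((K + 1) * s) * (M * x) :=
    mul_le_mul_of_nonneg_right hPc hMx
  have h7 : (s : ℝ) * (2 * K + 7 * (M * x)) + ((K + 1) * s) * (M * x) ≤
      s * (20 * (K + 1) ^ 2 * (1 + M * x)) := by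
    have h8 : (2 : ℝ) * K + 7 * (M * x) + (K + 1) * (M * x) ≤ 20 * (K + 1) ^ 2 * (1 + M * x) := by
      nlinarith [mul_nonneg hK0.le hMx, mul_nonneg (mul_nonneg hK0.le hK0.le) hMx]
    have hs0 : (0 : ℝ) ≤ s := by positivity
    nlinarith [mul_le_mul_of_nonneg_left h8 hs0]
  have h9 : (s : ℝ) * (20 * (K + 1) ^ 2 * (1 + M * x) - (r : ℝ) / (10 * K * (K + 1) ^ 2)) =
      s * (20 * (K + 1) ^ 2 * (1 + M * x)) - s * ((r : ℝ) / (10 * K * (K + 1) ^ 2)) := by ring
  rw [h9]
  have h10 : (s1 : ℝ) * (2 * K + 7 * (M * x) - (r : ℝ) / (10 * K)) =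
      s1 * (2 * K + 7 * (M * x)) - s1 * ((r : ℝ) / (10 * K)) := by ring
  rw [h10]
  linarith

end Pool.Agent.TH235.PQ
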