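import Pool.Agent.TH235.PQ.Base

/-! # (COUNT): the number of trees of labels of bounded size (helper47) -/

set_option autoImplicit false

open scoped BigOperators
open Finset

namespace Pool.Agent.TH235.PQ

namespace Cnt

theorem split_inj {X : Type*} {q : ℕ} :
    Function.Injective (fun G : Fin (nn (q + 1)) → X => (nroot G, nlf G, nrg G)) := by
  intro G G' h
  simp only [Prod.mk.injEq] at h
  obtain ⟨h1, h2, h3⟩ := h
  funext n
  refine Fin.addCases (m := 1) (n := nn q + nn q) (motive := fun n => G n = G' n)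
    (fun i => ?_) (fun i => ?_) n
  · have : i = 0 := Subsingleton.elim _ _
    subst this; exact h1
  · refine Fin.addCases (m := nn q) (n := nn q)
      (motive := fun i => G (Fin.natAdd 1 i) = G' (Fin.natAdd 1 i)) (fun j => ?_) (fun j => ?_) i
    · exact congrFun h2 j
    · exact congrFun h3 j

open Classical in
/-- indicator of the empty tree -/
noncomputable def ind {Λ : Type} {n : ℕ} (φ : Fin n → Option Λ) : ℝ :=
  if φ = (fun _ => none) then 1 else 0

theorem ind_nonneg {Λ : Type} {n : ℕ} (φ : Fin n → Option Λ) : 0 ≤ ind φ := by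
  unfold ind; split_ifs <;> norm_num

theorem ind_none {Λ : Type} {n : ℕ} {φ : Fin n → Option Λ} (h : ¬ ∃ i, (φ i).isSome = true) :
    ind φ = 1 := by
  have e2 : φ = (fun _ => none) := by
    funext i
    by_contra hn
    exact h ⟨i, Option.ne_none_iff_isSome.1 hn⟩
  unfold ind; rw [if_pos e2]

theorem sum_ind (Λ : Type) [Fintype Λ] (n : ℕ) : ∑ φ : Fin n → Option Λ, ind φ = 1 := by
  classical
  rw [Finset.sum_eq_single (fun _ => none)]
  · exact if_pos rfl
  · intro φ _ hφ
    exact if_neg hφ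
  · intro h; exact absurd (mem_univ _) h

theorem step_le {Λ : Type} (ρ : ℝ) (h0 : 0 ≤ ρ) (q : ℕ) (φ : Fin (nn (q + 1)) → Option Λ) :
    ρ ^ sz (q + 1) φ ≤ ind φ + ρ * (ρ ^ sz q (nlf φ) * ρ ^ sz q (nrg φ)) := by
  classical
  have hnn : 0 ≤ ρ * (ρ ^ sz q (nlf φ) * ρ ^ sz q (nrg φ)) := by positivity
  by_cases h : ∃ n, (φ n).isSome = true
  · have e : sz (q + 1) φ = 1 + sz q (nlf φ) + sz q (nrg φ) := by
      simp only [sz]; rw [if_pos h]
    rw [e, pow_add, pow_add, pow_one]
    have := ind_nonneg φ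
    nlinarith
  · have e : sz (q + 1) φ = 0 := by
      simp only [sz]; rw [if_neg h]
    rw [e, ind_none h, pow_zero]
    linarith

theorem Z_le (Λ : Type) [Fintype Λ] (ρ : ℝ) (h0 : 0 ≤ ρ)
    (h1 : ρ * (4 * ((Fintype.card Λ : ℝ) + 1)) = 1) :
    ∀ q, ∑ φ : Fin (nn q) → Option Λ, ρ ^ sz q φ ≤ 2 := by
  classical
  intro q
  induction q with
  | zero =>
    have hle : ∀ φ : Fin (nn 0) → Option Λ, ρ ^ sz 0 φ ≤ ind φ + ρ := by
      intro φ
      by_cases h : ∃ n, (φ n).isSome = true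
      · have e : sz 0 φ = 1 := by simp only [sz]; rw [if_pos h]
        rw [e, pow_one]
        have := ind_nonneg φ
        linarith
      · have e : sz 0 φ = 0 := by simp only [sz]; rw [if_neg h]
        rw [e, ind_none h, pow_zero]
        linarith
    refine (Finset.sum_le_sum fun φ _ => hle φ).trans ?_
    rw [Finset.sum_add_distrib, sum_ind, Finset.sum_const, nsmul_eq_mul]
    have hc : ((univ : Finset (Fin (nn 0) → Option Λ)).card : ℝ) = (Fintype.card Λ : ℝ) + 1 := by
      rw [Finset.card_univ, Fintype.card_fun, Fintype.card_option, Fintype.card_fin]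
      simp [nn]
    rw [hc]
    nlinarith
  | succ q ih =>
    have hZ0 : 0 ≤ ∑ φ : Fin (nn q) → Option Λ, ρ ^ sz q φ :=
      Finset.sum_nonneg fun φ _ => by positivity
    refine (Finset.sum_le_sum fun φ _ => step_le ρ h0 q φ).trans ?_
    rw [Finset.sum_add_distrib, sum_ind]
    have hs : ∑ φ : Fin (nn (q + 1)) → Option Λ, ρ * (ρ ^ sz q (nlf φ) * ρ ^ sz q (nrg φ)) ≤
        ∑ y : Option Λ × (Fin (nn q) → Option Λ) × (Fin (nn q) → Option Λ),
          ρ * (ρ ^ sz q y.2.1 * ρ ^ sz q y.2.2) := by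
      set f : Option Λ × (Fin (nn q) → Option Λ) × (Fin (nn q) → Option Λ) → ℝ :=
        fun y => ρ * (ρ ^ sz q y.2.1 * ρ ^ sz q y.2.2) with hf
      have hm := Finset.sum_map (univ : Finset (Fin (nn (q + 1)) → Option Λ))
        ⟨fun G => (nroot G, nlf G, nrg G), split_inj (X := Option Λ) (q := q)⟩ f
      have hm' : ∑ φ : Fin (nn (q + 1)) → Option Λ, ρ * (ρ ^ sz q (nlf φ) * ρ ^ sz q (nrg φ)) =
          ∑ y ∈ (univ : Finset (Fin (nn (q + 1)) → Option Λ)).map
            ⟨fun G => (nroot G, nlf G, nrg G), split_inj (X := Option Λ) (q := q)⟩, f y :=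
        hm.symm
      rw [hm']
      exact Finset.sum_le_univ_sum_of_nonneg (f := f) (fun y => by rw [hf]; positivity)
    have ht : ∑ y : Option Λ × (Fin (nn q) → Option Λ) × (Fin (nn q) → Option Λ),
          ρ * (ρ ^ sz q y.2.1 * ρ ^ sz q y.2.2) =
        ((Fintype.card Λ : ℝ) + 1) * (ρ * ((∑ φ : Fin (nn q) → Option Λ, ρ ^ sz q φ) *
          (∑ φ : Fin (nn q) → Option Λ, ρ ^ sz q φ))) := by
      have h1 : ∑ y : (Fin (nn q) → Option Λ) × (Fin (nn q) → Option Λ),
          ρ * (ρ ^ sz q y.1 * ρ ^ sz q y.2) =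
          ρ * ((∑ φ : Fin (nn q) → Option Λ, ρ ^ sz q φ) *
          (∑ φ : Fin (nn q) → Option Λ, ρ ^ sz q φ)) := by
        rw [Fintype.sum_prod_type]
        simp only [← Finset.mul_sum, ← Finset.sum_mul]
      rw [Fintype.sum_prod_type]
      simp only [h1]
      rw [Finset.sum_const, Finset.card_univ, Fintype.card_option, nsmul_eq_mul]
      push_cast
      ring
    rw [ht] at hs
    have h4 : (∑ φ : Fin (nn q) → Option Λ, ρ ^ sz q φ) *
        (∑ φ : Fin (nn q) → Option Λ, ρ ^ sz q φ) ≤ 4 := by nlinarith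
    have h5 : 0 ≤ ((Fintype.card Λ : ℝ) + 1) * ρ := by positivity
    nlinarith

end Cnt

theorem count : COUNT := by
  classical
  intro Λ _ q r
  set c : ℝ := (Fintype.card Λ : ℝ) + 1 with hc
  have hcpos : 0 < c := by positivity
  have hρ : (4 * c)⁻¹ * (4 * c) = 1 := inv_mul_cancel₀ (by positivity)
  have hρpos : 0 < (4 * c)⁻¹ := by positivity
  have hρle : (4 * c)⁻¹ ≤ 1 := by
    apply inv_le_one_of_one_le₀
    have : (0 : ℝ) ≤ (Fintype.card Λ : ℝ) := by positivity
    rw [hc]; linarith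
  have hZ := Cnt.Z_le Λ (4 * c)⁻¹ hρpos.le hρ q
  rw [Nat.card_eq_fintype_card, Fintype.card_subtype]
  have h1 : ((univ.filter fun φ : Fin (nn q) → Option Λ => sz q φ ≤ r).card : ℝ) *
      ((4 * c)⁻¹) ^ r ≤ 2 := by
    calc ((univ.filter fun φ : Fin (nn q) → Option Λ => sz q φ ≤ r).card : ℝ) *
          ((4 * c)⁻¹) ^ r
        = ∑ φ ∈ univ.filter (fun φ : Fin (nn q) → Option Λ => sz q φ ≤ r),
            ((4 * c)⁻¹) ^ r := by rw [Finset.sum_const, nsmul_eq_mul]
      _ ≤ ∑ φ ∈ univ.filter (fun φ : Fin (nn q) → Option Λ => sz q φ ≤ r),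
            ((4 * c)⁻¹) ^ sz q φ := by
          refine Finset.sum_le_sum fun φ hφ => ?_
          exact pow_le_pow_of_le_one hρpos.le hρle (Finset.mem_filter.1 hφ).2
      _ ≤ ∑ φ : Fin (nn q) → Option Λ, ((4 * c)⁻¹) ^ sz q φ :=
          Finset.sum_le_sum_of_subset_of_nonneg (Finset.filter_subset _ _)
            fun φ _ _ => by positivity
      _ ≤ 2 := hZ
  have h2 : ((univ.filter fun φ : Fin (nn q) → Option Λ => sz q φ ≤ r).card : ℝ) ≤
      2 * (4 * c) ^ r := by
    rw [inv_pow, ← div_eq_mul_inv, div_le_iff₀ (by positivity)] at h1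
    exact h1
  have h3 : ((univ.filter fun φ : Fin (nn q) → Option Λ => sz q φ ≤ r).card : ℝ) ≤
      ((2 * (4 * (Fintype.card Λ + 1)) ^ r : ℕ) : ℝ) := by
    push_cast
    exact h2
  exact_mod_cast h3

end Pool.Agent.TH235.PQ
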