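import Pool.Agent.TH235.PQ.Goal

/-! TFAE at polynomial scale from the amplification statement (helper574, adapted from
`Pool/Agent/Results/MP_953b23_mp/OverlapBoosting.lean`). -/

set_option autoImplicit false
set_option linter.unusedSectionVars false

open scoped BigOperators Matrix
open Finset Pool.Agent.TH235.PP Pool.Agent.Results.MP_953b23_mp.OverlapBoosting
  Pool.Agent.Results.MP_953b23_mp.ThermalCriterion

namespace Pool.Agent.TH235.PQ

namespace Equ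

variable {d R : ℕ} {h : BoxOp d R} {Δ : ℝ} {Ψ : ∀ L : ℕ, (Site L → Fin d) → ℂ}

/-- amplification for families -/
theorem pure_to_all (hA : AMP) (hF : GappedFamily h Δ Ψ) (hP : ∃ C, PureOverlap Ψ 1 C) (c : ℝ)
    (hc : 0 < c) : ∃ C, Approx Ψ 1 C fun L => (L : ℝ) ^ (-c) := by
  obtain ⟨R', rfl⟩ : ∃ R', R = R' + 1 := ⟨R - 1, by have := hF.range_pos; omega⟩
  obtain ⟨C, hC, hq⟩ := hA d R' h hF.herm Δ hF.gap_pos
  obtain ⟨L₁, hL₁⟩ := hF.ground
  obtain ⟨C', L₂, hL₂⟩ := hP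
  refine ⟨|C'| + C * (1 + |C'| + c), max (R' + 3) (max L₁ L₂), ?_⟩
  intro L _ hL
  simp only [max_le_iff] at hL
  obtain ⟨h3, ha, hb⟩ := hL
  have hL3 : 3 ≤ L := by omega
  obtain ⟨hn, hg⟩ := hL₁ L ha
  obtain ⟨D0, φ, hD0, hφ, hφ1, hov⟩ := hL₂ L hb
  have hl1 := log_ge_one hL3
  have hL0 : (0 : ℝ) < L := by
    have : (3 : ℝ) ≤ L := by exact_mod_cast hL3
    linarith
  have hε : (L : ℝ) ^ (-c) = Real.exp (-(c * Real.log L)) := by
    rw [Real.rpow_def_of_pos hL0]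
    congr 1
    ring
  obtain ⟨D, ψ, hD, hψ, herr⟩ := hq L (by omega) (by omega) (Ψ L) hn hg D0 φ hφ hφ1
    (Real.exp (-(C' * Real.log L ^ 1))) (Real.exp (-(c * Real.log L))) (Real.exp_pos _) hov
    (Real.exp_pos _) (Real.exp_le_one_iff.2 (by
      have : 0 ≤ c * Real.log L := by positivity
      linarith))
  refine ⟨D, ψ, hD.trans ?_, hψ, by rw [sqrt_normSq]; beta_reduce; rw [hε]; exact herr⟩
  have hlog : Real.log (1 / (Real.exp (-(C' * Real.log L ^ 1)) *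
      Real.exp (-(c * Real.log L)))) = C' * Real.log L + c * Real.log L := by
    rw [← Real.exp_add, one_div, ← Real.exp_neg, Real.log_exp, pow_one]
    ring
  rw [hlog]
  simp only [pow_one] at hD0 ⊢
  generalize Real.log L = l at hl1 hD0 ⊢
  have hl0 : 0 ≤ l := by linarith
  have hC'l : C' * l ≤ |C'| * l := mul_le_mul_of_nonneg_right (le_abs_self _) hl0
  calc (D0 : ℝ) * Real.exp (C * (l + (C' * l + c * l)))
      ≤ Real.exp (|C'| * l) * Real.exp (C * ((1 + |C'| + c) * l)) := by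
        refine mul_le_mul (hD0.trans (Real.exp_le_exp.2 hC'l)) (Real.exp_le_exp.2 ?_)
          (Real.exp_pos _).le (Real.exp_pos _).le
        refine mul_le_mul_of_nonneg_left ?_ hC.le
        linarith
    _ = Real.exp ((|C'| + C * (1 + |C'| + c)) * l) := by
        rw [← Real.exp_add]
        congr 1
        ring

/-- one exponent gives a good overlap -/
theorem one_to_pure (hF : GappedFamily h Δ Ψ) {c : ℝ} (hc : 0 < c) {k : ℕ} {C : ℝ}
    (hA : Approx Ψ k C fun L => (L : ℝ) ^ (-c)) : ∃ C, PureOverlap Ψ k C := by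
  obtain ⟨L₁, hL₁⟩ := hF.ground
  obtain ⟨L₂, hL₂⟩ := hA
  obtain ⟨L₃, hL₃⟩ := rpow_small c hc (1 / 4) (by norm_num)
  refine ⟨|C| + 1, max 3 (max L₁ (max L₂ L₃)), ?_⟩
  intro L _ hL
  simp only [max_le_iff] at hL
  obtain ⟨h3, ha, hb, hc'⟩ := hL
  obtain ⟨hn, -⟩ := hL₁ L ha
  obtain ⟨D, ψ, hD, hψ, herr⟩ := hL₂ L hb
  rw [sqrt_normSq] at herr
  obtain ⟨n1, n2, n3⟩ := near (Ψ L) ψ hn (herr.trans (hL₃ L hc'))
  obtain ⟨u1, u2, u3⟩ := unit_of hψ (by linarith)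
  have hl1 := log_ge_one h3
  have hlk : 1 ≤ Real.log L ^ k := one_le_pow₀ hl1
  refine ⟨D, _, hD.trans (Real.exp_le_exp.2 ?_), u1, u2, ?_⟩
  · have := le_abs_self C
    nlinarith only [this, hlk, abs_nonneg C]
  · rw [u3]
    have h5 : (3 : ℝ) / 5 ≤ ‖ip (Ψ L) ψ‖ / nr ψ := by
      rw [le_div_iff₀ (by linarith)]
      linarith
    refine le_trans ?_ h5
    have h6 : Real.exp (-((|C| + 1) * Real.log L ^ k)) ≤ Real.exp (-1) := by
      apply Real.exp_le_exp.2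
      nlinarith only [mul_nonneg (abs_nonneg C) (by linarith : (0 : ℝ) ≤ Real.log L ^ k), hlk]
    exact h6.trans (exp_neg_one_lt.trans (by norm_num))

/-- the conclusion of the problem gives low-energy states -/
theorem all_to_low (hF : GappedFamily h Δ Ψ) {k : ℕ}
    (hA : ∃ C, Approx Ψ k C fun L => (L : ℝ) ^ (-(2 : ℝ))) : ∃ C, LowEnergy h Δ Ψ k C := by
  obtain ⟨L₁, hL₁⟩ := hF.ground
  obtain ⟨C, L₂, hL₂⟩ := hA
  have hJ0 := nJ_nonneg h
  have hΔ := hF.gap_pos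
  obtain ⟨L₃, hL₃⟩ := rpow_small 2 (by norm_num) (min (1 / 4) (Δ / (16 * (nJ h + 1))))
    (lt_min (by norm_num) (by positivity))
  refine ⟨|C| + 1, max 3 (max L₁ (max L₂ L₃)), ?_⟩
  intro L _ hL
  simp only [max_le_iff] at hL
  obtain ⟨h3, ha, hb, hc'⟩ := hL
  obtain ⟨hn, hg⟩ := hL₁ L ha
  obtain ⟨D, ψ, hD, hψ, herr⟩ := hL₂ L hb
  rw [sqrt_normSq] at herr
  have hs := hL₃ L hc'
  obtain ⟨n1, n2, n3⟩ := near (Ψ L) ψ hn (herr.trans (hs.trans (min_le_left _ _)))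
  have hl1 := log_ge_one h3
  have hlk : 1 ≤ Real.log L ^ k := one_le_pow₀ hl1
  have hsum : ∀ f : ((Site L → Fin d) → ℂ) → ℝ,
      ∑ _t : Site L → Fin 1, f ψ = f ψ := by
    intro f
    rw [Finset.sum_const, Finset.card_univ]
    simp
  have hn9 : 9 / 16 ≤ normSq ψ := by
    rw [← nr_sq]
    nlinarith only [n1]
  refine ⟨1, D, fun _ => ψ, hD.trans (Real.exp_le_exp.2 ?_), ?_, ?_, ?_⟩
  · have := le_abs_self C
    nlinarith only [this, hlk, abs_nonneg C]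
  · obtain ⟨A, hA⟩ := hψ
    exact ⟨fun x i _ => A x i, fun _ => hA⟩
  · rw [hsum fun ψ => normSq ψ]
    linarith
  · rw [hsum fun ψ => normSq ψ, hsum fun ψ => (ip ψ (ham h L *ᵥ ψ)).re]
    have h4 := ener_upper (ham h L) (ham_herm h hF.herm) Δ (Ψ L) hn hg ψ
    have h5 := norm_ham (L := L) h
    refine h4.trans ?_
    have hLpos : (0 : ℝ) < L := by
      have : (3 : ℝ) ≤ L := by exact_mod_cast h3
      linarith
    have h7 : normSq (ψ - Ψ L) ≤ ((L : ℝ) ^ (-(2 : ℝ))) ^ 2 := by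
      rw [← nr_sq]
      exact pow_le_pow_left₀ (nr_nonneg _) herr 2
    have h8 : (L : ℝ) ^ (-(2 : ℝ)) * (L : ℝ) ^ 2 = 1 := by
      rw [Real.rpow_neg hLpos.le, Real.rpow_two]
      field_simp
    have h9 : 0 < (L : ℝ) ^ (-(2 : ℝ)) := Real.rpow_pos_of_pos hLpos _
    generalize (L : ℝ) ^ (-(2 : ℝ)) = ρ at *
    have h10 : Real.exp (-((|C| + 1) * Real.log L ^ k)) ≤ 2 / 5 := by
      refine le_trans (Real.exp_le_exp.2 ?_) exp_neg_one_lt
      nlinarith only [mul_nonneg (abs_nonneg C) (by linarith : (0 : ℝ) ≤ Real.log L ^ k), hlk]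
    have h11 : ρ * (16 * (nJ h + 1)) ≤ Δ := by
      have := hs.trans (min_le_right _ _)
      rwa [le_div_iff₀ (by positivity)] at this
    have h12 : 2 * (((L : ℝ) ^ 2) * nJ h) * ρ ^ 2 ≤ Δ / 8 := by
      have e : 2 * (((L : ℝ) ^ 2) * nJ h) * ρ ^ 2 = 2 * nJ h * ρ * (ρ * (L : ℝ) ^ 2) := by ring
      rw [e, h8, mul_one]
      nlinarith only [h11, h9]
    have hnn := normSq_nonneg (ψ - Ψ L)
    have hA0 := hJ0
    have h13 : 2 * (((L : ℝ) ^ 2) * nJ h) * normSq (ψ - Ψ L) ≤ Δ / 8 :=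
      le_trans (mul_le_mul_of_nonneg_left h7 (by positivity)) h12
    have h14 := mul_le_mul_of_nonneg_right (mul_le_mul_of_nonneg_left h5 (by norm_num : (0:ℝ) ≤ 2))
      hnn
    have h15 : Δ * (3 / 5) * (9 / 16) ≤
        Δ * (1 - Real.exp (-((|C| + 1) * Real.log L ^ k))) * normSq ψ := by
      refine mul_le_mul ?_ hn9 (by norm_num) ?_
      · exact mul_le_mul_of_nonneg_left (by linarith) hΔ.le
      · exact mul_nonneg hΔ.le (by linarith)
    rw [add_mul]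
    linarith

/-- low energy gives overlap -/
theorem low_to_mixed (hF : GappedFamily h Δ Ψ) {k : ℕ} (hA : ∃ C, LowEnergy h Δ Ψ k C) :
    ∃ C, MixedOverlap Ψ k C := by
  obtain ⟨L₁, hL₁⟩ := hF.ground
  obtain ⟨C, L₂, hL₂⟩ := hA
  refine ⟨C, max L₁ L₂, ?_⟩
  intro L _ hL
  obtain ⟨hn, hg⟩ := hL₁ L ((le_max_left _ _).trans hL)
  obtain ⟨a, D, X, h1, h2, h3, h4⟩ := hL₂ L ((le_max_right _ _).trans hL)
  refine ⟨a, D, X, h1, h2, h3, ?_⟩
  have h5 : ∑ t, ((ip (Ψ L) (ham h L *ᵥ Ψ L)).re * normSq (X t) +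
      Δ * (normSq (X t) - ‖ip (Ψ L) (X t)‖ ^ 2)) ≤ ∑ t, (ip (X t) (ham h L *ᵥ X t)).re :=
    Finset.sum_le_sum fun t _ =>
      gap_ineq (ham h L) (ham_herm h hF.herm) Δ hF.gap_pos (Ψ L) hn hg (X t)
  rw [Finset.sum_add_distrib, ← Finset.mul_sum, ← Finset.mul_sum, Finset.sum_sub_distrib] at h5
  have h6 := h5.trans h4
  have hΔ := hF.gap_pos
  have h7 : Δ * (Real.exp (-(C * Real.log L ^ k)) * ∑ t, normSq (X t)) ≤
      Δ * ∑ t, ‖ip (Ψ L) (X t)‖ ^ 2 := by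
    nlinarith only [h6]
  exact le_of_mul_le_mul_left h7 hΔ

/-- averaging over the ancilla basis -/
theorem mixed_to_pure {k : ℕ} (hA : ∃ C, MixedOverlap Ψ k C) : ∃ C, PureOverlap Ψ k C := by
  obtain ⟨C, L₂, hL₂⟩ := hA
  refine ⟨|C|, max 3 L₂, ?_⟩
  intro L _ hL
  have hL3 : 3 ≤ L := (le_max_left _ _).trans hL
  obtain ⟨a, D, X, h1, ⟨A, hA⟩, h3, h4⟩ := hL₂ L ((le_max_right _ _).trans hL)
  have hl1 := log_ge_one hL3
  have hlk : 0 ≤ Real.log L ^ k := by positivity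
  have hlC : C * Real.log L ^ k ≤ |C| * Real.log L ^ k :=
    mul_le_mul_of_nonneg_right (le_abs_self _) hlk
  obtain ⟨t, ht0, ht⟩ : ∃ t, 0 < normSq (X t) ∧
      Real.exp (-(C * Real.log L ^ k)) * normSq (X t) ≤ ‖ip (Ψ L) (X t)‖ ^ 2 := by
    by_contra hcon
    push Not at hcon
    have hle : ∀ t, ‖ip (Ψ L) (X t)‖ ^ 2 ≤ Real.exp (-(C * Real.log L ^ k)) * normSq (X t) := by
      intro t
      rcases (normSq_nonneg (X t)).lt_or_eq with h5 | h5
      · exact (hcon t h5).le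
      · have h6 : nr (X t) = 0 := by
          have := nr_sq (X t)
          rw [← h5] at this
          exact pow_eq_zero_iff (two_ne_zero) |>.1 this
        have h7 : ‖ip (Ψ L) (X t)‖ ≤ 0 := by
          rw [ip_eq]
          refine (norm_inner_le_norm _ _).trans ?_
          have k2 : ‖(WithLp.toLp 2 (X t) : EuclideanSpace ℂ (Site L → Fin d))‖ = 0 := h6
          rw [k2, mul_zero]
        have h8 : ‖ip (Ψ L) (X t)‖ = 0 := le_antisymm h7 (norm_nonneg _)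
        rw [h8, ← h5]
        simp
    obtain ⟨t, ht⟩ : ∃ t, 0 < normSq (X t) := by
      by_contra hc
      push Not at hc
      exact absurd h3 (not_lt.2 (Finset.sum_nonpos fun t _ => hc t))
    have hlt : ∑ t, ‖ip (Ψ L) (X t)‖ ^ 2 <
        ∑ t, Real.exp (-(C * Real.log L ^ k)) * normSq (X t) :=
      Finset.sum_lt_sum (fun t _ => hle t) ⟨t, mem_univ t, hcon t ht⟩
    rw [← Finset.mul_sum] at hlt
    exact absurd h4 (not_le.2 hlt)
  have hpeps : IsPEPS D (X t) := ⟨fun x i => A x i (t x), hA t⟩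
  have hnr : 0 < nr (X t) := by
    rcases (nr_nonneg (X t)).lt_or_eq with h5 | h5
    · exact h5
    · exfalso
      have := nr_sq (X t)
      rw [← h5] at this
      rw [← this] at ht0
      simp at ht0
  obtain ⟨u1, u2, u3⟩ := unit_of hpeps hnr
  refine ⟨D, _, h1.trans (Real.exp_le_exp.2 hlC), u1, u2, ?_⟩
  rw [u3, le_div_iff₀ hnr]
  apply le_of_sq_le_sq _ (norm_nonneg _)
  refine le_trans ?_ ht
  rw [mul_pow, nr_sq, ← Real.exp_nat_mul]
  refine mul_le_mul_of_nonneg_right (Real.exp_le_exp.2 ?_) ht0.le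
  push_cast
  have h0 : 0 ≤ |C| * Real.log L ^ k := mul_nonneg (abs_nonneg _) hlk
  linarith

/-- polynomial overlap with an approximable family -/
theorem transfer {Ψ' : ∀ L : ℕ, (Site L → Fin d) → ℂ} (hn : ∃ L₀ : ℕ, ∀ (L : ℕ) [NeZero L],
      L₀ ≤ L → normSq (Ψ L) = 1 ∧ normSq (Ψ' L) = 1)
    (hov : ∃ (C : ℝ) (L₀ : ℕ), ∀ (L : ℕ) [NeZero L], L₀ ≤ L →
      Real.exp (-(C * Real.log L)) ≤ ‖ip (Ψ L) (Ψ' L)‖)
    (hA : ∀ c : ℝ, 0 < c → ∃ C, Approx Ψ' 1 C fun L => (L : ℝ) ^ (-c)) :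
    ∃ C, PureOverlap Ψ 1 C := by
  obtain ⟨L₁, hL₁⟩ := hn
  obtain ⟨C, L₂, hL₂⟩ := hov
  obtain ⟨C', L₃, hL₃⟩ := hA (|C| + 1) (by positivity)
  refine ⟨|C'| + |C| + 1, max 3 (max L₁ (max L₂ L₃)), ?_⟩
  intro L _ hL
  simp only [max_le_iff] at hL
  obtain ⟨h3, ha, hb, hc'⟩ := hL
  obtain ⟨hn1, hn2⟩ := hL₁ L ha
  have hov := hL₂ L hb
  obtain ⟨D, ψ, hD, hψ, herr⟩ := hL₃ L hc'
  rw [sqrt_normSq] at herr
  beta_reduce at herr
  have hl1 : 1 ≤ Real.log L := log_ge_one h3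
  have hL0 : (0 : ℝ) < L := by
    have : (3 : ℝ) ≤ L := by exact_mod_cast h3
    linarith
  rw [Real.rpow_def_of_pos hL0] at herr
  simp only [pow_one] at hD ⊢
  generalize Real.log L = l at hl1 hD herr hov ⊢
  have hC0 := abs_nonneg C
  have hC0' := abs_nonneg C'
  set θ : ℝ := Real.exp (-(|C| * l)) with hθ
  have hθ0 : 0 < θ := Real.exp_pos _
  have hθ1 : θ ≤ 1 := Real.exp_le_one_iff.2 (by
    have : 0 ≤ |C| * l := by positivity
    linarith)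
  have e1 : Real.exp (l * -(|C| + 1)) ≤ 2 / 5 * θ := by
    have h5 : Real.exp (l * -(|C| + 1)) ≤ Real.exp (-1) * θ := by
      rw [hθ, ← Real.exp_add]
      apply Real.exp_le_exp.2
      linarith
    exact h5.trans (mul_le_mul_of_nonneg_right exp_neg_one_lt hθ0.le)
  have e2 : θ ≤ ‖ip (Ψ L) (Ψ' L)‖ := by
    refine le_trans (Real.exp_le_exp.2 ?_) hov
    have := mul_le_mul_of_nonneg_right (le_abs_self C) (by positivity : (0 : ℝ) ≤ l)
    linarith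
  have n1 : nr (Ψ L) = 1 := nr_one _ hn1
  have n2 : nr (Ψ' L) = 1 := nr_one _ hn2
  have e3 : ‖ip (Ψ L) (ψ - Ψ' L)‖ ≤ nr (ψ - Ψ' L) := by
    rw [ip_eq]
    refine (norm_inner_le_norm _ _).trans ?_
    have k1 : ‖(WithLp.toLp 2 (Ψ L) : EuclideanSpace ℂ (Site L → Fin d))‖ = 1 := n1
    rw [k1, one_mul]
    exact le_rfl
  have e4 : 3 / 5 * θ ≤ ‖ip (Ψ L) ψ‖ := by
    have h5 : ip (Ψ L) (Ψ' L) = ip (Ψ L) ψ - ip (Ψ L) (ψ - Ψ' L) := by
      rw [ip_eq, ip_eq, ip_eq, ← inner_sub_right, ← WithLp.toLp_sub, sub_sub_cancel]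
    have h6 := norm_sub_le (ip (Ψ L) ψ) (ip (Ψ L) (ψ - Ψ' L))
    rw [← h5] at h6
    linarith
  have e5 : nr ψ ≤ 7 / 5 := by
    have := nr_add (ψ - Ψ' L) (Ψ' L)
    rw [sub_add_cancel] at this
    linarith
  have e6 : 0 < nr ψ := by
    rcases (nr_nonneg ψ).lt_or_eq with h5 | h5
    · exact h5
    · exfalso
      have h6 : ‖ip (Ψ L) ψ‖ ≤ nr (Ψ L) * nr ψ := by
        rw [ip_eq]
        exact norm_inner_le_norm _ _
      rw [← h5, mul_zero] at h6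
      linarith
  obtain ⟨u1, u2, u3⟩ := unit_of hψ e6
  refine ⟨D, _, hD.trans (Real.exp_le_exp.2 ?_), u1, u2, ?_⟩
  · have h5 : C' * l ≤ |C'| * l := mul_le_mul_of_nonneg_right (le_abs_self _) (by linarith)
    have h6 : 0 ≤ (|C| + 1) * l := by positivity
    linarith
  · rw [u3, le_div_iff₀ e6]
    have h5 : Real.exp (-((|C'| + |C| + 1) * l)) ≤ 2 / 5 * θ := by
      have h6 : Real.exp (-((|C'| + |C| + 1) * l)) ≤ Real.exp (-1) * θ := by
        rw [hθ, ← Real.exp_add]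
        apply Real.exp_le_exp.2
        have h8 : 0 ≤ |C'| * l := by positivity
        linarith
      exact h6.trans (mul_le_mul_of_nonneg_right exp_neg_one_lt hθ0.le)
    calc Real.exp (-((|C'| + |C| + 1) * l)) * nr ψ ≤ 2 / 5 * θ * (7 / 5) :=
          mul_le_mul h5 e5 e6.le (by positivity)
      _ ≤ ‖ip (Ψ L) ψ‖ := by linarith

end Equ

theorem equiv (hA : AMP) : EQUIV := by
  intro d R h Δ Ψ hF
  tfae_have 1 → 2 := fun h1 => ⟨1, one_pos, h1 1 one_pos⟩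
  tfae_have 2 → 3 := fun ⟨_, hc, _, hA⟩ => Equ.one_to_pure hF hc hA
  tfae_have 3 → 1 := fun h3 c hc => Equ.pure_to_all hA hF h3 c hc
  tfae_have 1 → 5 := fun h1 => Equ.all_to_low hF (h1 2 two_pos)
  tfae_have 5 → 4 := fun h5 => Equ.low_to_mixed hF h5
  tfae_have 4 → 3 := fun h4 => Equ.mixed_to_pure h4
  tfae_have 1 → 6 := by
    intro h1
    refine ⟨R, h, Δ, Ψ, hF, h1, 0, ?_⟩
    obtain ⟨L₀, hL₀⟩ := hF.ground
    refine ⟨L₀, fun L _ hL => ?_⟩
    rw [ip_self_one (Ψ L) (hL₀ L hL).1]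
    simp
  tfae_have 6 → 3 := by
    rintro ⟨R', h', Δ', Ψ', hF', hA', hov⟩
    obtain ⟨L₁, h1⟩ := hF.ground
    obtain ⟨L₂, h2⟩ := hF'.ground
    exact Equ.transfer (Ψ := Ψ) ⟨max L₁ L₂, fun L _ hL =>
      ⟨(h1 L ((le_max_left _ _).trans hL)).1, (h2 L ((le_max_right _ _).trans hL)).1⟩⟩ hov hA'
  tfae_finish

end Pool.Agent.TH235.PQ
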