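import Pool.Agent.TH235.PQ.Goal

set_option autoImplicit false
set_option linter.unusedSectionVars false

open scoped BigOperators Matrix InnerProductSpace
open Finset Pool.Agent.TH235.PP Pool.Agent.Results.MP_953b23_mp.OverlapBoosting
  Pool.Agent.Results.MP_953b23_mp.ThermalCriterion

namespace Pool.Agent.TH235.PQ

section family

variable {d R : ℕ} {h : BoxOp d R} {Δ : ℝ} {Ψ : ∀ L : ℕ, (Site L → Fin d) → ℂ}

/-- small partition functions give PEPS -/
theorem small_to_approxK (hT : THERM) (hF : GappedFamily h Δ Ψ) {k : ℕ} {C : ℝ}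
    (hS : SmallPartition h Ψ k C) (m : ℕ) (a : ℝ) (hm : 1 ≤ m) (hkm : k ≤ m) (ha : 0 ≤ a) :
    ∃ C' : ℝ, Approx Ψ m C' fun L => Real.exp (-(a * Real.log L ^ m)) := by
  obtain ⟨R', rfl⟩ : ∃ R', R = R' + 1 := ⟨R - 1, by have := hF.range_pos; omega⟩
  obtain ⟨C0, hC0, hq⟩ := hT d R' h hF.herm Δ hF.gap_pos
  obtain ⟨L₁, hL₁⟩ := hF.ground
  obtain ⟨L₂, hL₂⟩ := hS
  refine ⟨C0 * (2 * |C| + 1 + a), max (R' + 3) (max L₁ L₂), ?_⟩
  intro L _ hL
  have hLR : R' + 3 ≤ L := (le_max_left _ _).trans hL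
  have hL3 : 3 ≤ L := by omega
  obtain ⟨hn, hg⟩ := hL₁ L (((le_max_left _ _).trans (le_max_right _ _)).trans hL)
  have hH := ham_herm (L := L) h hF.herm
  obtain ⟨β, hβ0, hβ, hZ⟩ := hL₂ L (((le_max_right _ _).trans (le_max_right _ _)).trans hL) hH
  have hl1 := log_ge_one hL3
  have hlm : 0 ≤ Real.log L ^ m := by positivity
  have hexp1 : Real.exp (-(a * Real.log L ^ m)) ≤ 1 := Real.exp_le_one_iff.2 (by
    have : 0 ≤ a * Real.log L ^ m := mul_nonneg ha hlm
    linarith)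
  obtain ⟨D, ψ, hD, hψ, herr⟩ := hq L (by omega) (by omega) (Ψ L) hn hg hH β
    (Real.exp (-(a * Real.log L ^ m))) hβ0 (Real.exp_pos _) hexp1
  refine ⟨D, ψ, hD.trans (Real.exp_le_exp.2 ?_), hψ, by rw [sqrt_normSq]; exact herr⟩
  obtain ⟨e1, j0, e2⟩ := energy_le hH hF.gap_pos hn hg
  have hZdef : (∑ j, Real.exp (-(β * (hH.eigenvalues j -
      (ip (Ψ L) (ham h L *ᵥ Ψ L)).re)))) = partition hH (energy (ham h L) (Ψ L)) β := rfl
  rw [hZdef]
  have hZ1 : 1 ≤ partition hH (energy (ham h L) (Ψ L)) β := by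
    unfold partition
    have h1 := Finset.single_le_sum (f := fun j => Real.exp (-(β * (hH.eigenvalues j -
      energy (ham h L) (Ψ L))))) (fun j _ => (Real.exp_pos _).le) (mem_univ j0)
    refine le_trans (le_of_eq ?_) h1
    rw [e2]
    simp
  generalize partition hH (energy (ham h L) (Ψ L)) β = Z at hZ hZ1 ⊢
  have hW0 : 0 ≤ Real.log Z := Real.log_nonneg hZ1
  have hW : Real.log Z ≤ C * Real.log L ^ k := by
    have := Real.log_le_log (by linarith) hZ
    rwa [Real.log_exp] at this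
  have hlog : Real.log (1 / Real.exp (-(a * Real.log L ^ m))) = a * Real.log L ^ m := by
    rw [one_div, ← Real.exp_neg, Real.log_exp, neg_neg]
  rw [hlog]
  generalize Real.log Z = W at hW0 hW ⊢
  generalize Real.log L = l at hl1 hlm hβ hW ⊢
  have hk1 : l ^ k ≤ l ^ m := pow_le_pow_right₀ hl1 hkm
  have h11 : l ≤ l ^ m := by
    calc l = l ^ 1 := (pow_one l).symm
      _ ≤ l ^ m := pow_le_pow_right₀ hl1 hm
  have hl0 : 0 ≤ l := by linarith
  have hCk : C * l ^ k ≤ |C| * l ^ m :=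
    mul_le_mul (le_abs_self _) hk1 (by positivity) (abs_nonneg _)
  have ham0 : 0 ≤ a * l ^ m := mul_nonneg ha hlm
  have hsum : β + l + W + a * l ^ m ≤ (2 * |C| + 1 + a) * l ^ m := by
    have e : (2 * |C| + 1 + a) * l ^ m = 2 * (|C| * l ^ m) + l ^ m + a * l ^ m := by ring
    rw [e]; linarith
  calc C0 * (β + l + W + a * l ^ m) ≤ C0 * ((2 * |C| + 1 + a) * l ^ m) :=
        mul_le_mul_of_nonneg_left hsum hC0.le
    _ = C0 * (2 * |C| + 1 + a) * l ^ m := by ring

/-- amplification for families, with the exponent under control -/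
theorem pure_to_superK (hA : AMP) (hF : GappedFamily h Δ Ψ) {k : ℕ} {C' : ℝ}
    (hP : PureOverlap Ψ k C') (m : ℕ) (a : ℝ) (hm : 1 ≤ m) (hkm : k ≤ m) (ha : 0 ≤ a) :
    ∃ C, Approx Ψ m C fun L => Real.exp (-(a * Real.log L ^ m)) := by
  obtain ⟨R', rfl⟩ : ∃ R', R = R' + 1 := ⟨R - 1, by have := hF.range_pos; omega⟩
  obtain ⟨C, hC, hq⟩ := hA d R' h hF.herm Δ hF.gap_pos
  obtain ⟨L₁, hL₁⟩ := hF.ground
  obtain ⟨L₂, hL₂⟩ := hP
  refine ⟨|C'| + C * (1 + |C'| + a), max (R' + 3) (max L₁ L₂), ?_⟩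
  intro L _ hL
  have hLR : R' + 3 ≤ L := (le_max_left _ _).trans hL
  obtain ⟨hn, hg⟩ := hL₁ L (((le_max_left _ _).trans (le_max_right _ _)).trans hL)
  obtain ⟨D0, φ, hD0, hφ, hφ1, hov⟩ :=
    hL₂ L (((le_max_right _ _).trans (le_max_right _ _)).trans hL)
  have hl1 := log_ge_one (L := L) (by omega)
  have hlm0 : 0 ≤ Real.log L ^ m := by positivity
  obtain ⟨D, ψ, hD, hψ, herr⟩ := hq L (by omega) (by omega) (Ψ L) hn hg D0 φ hφ hφ1
    (Real.exp (-(C' * Real.log L ^ k))) (Real.exp (-(a * Real.log L ^ m))) (Real.exp_pos _) hov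
    (Real.exp_pos _) (Real.exp_le_one_iff.2 (by
      have : 0 ≤ a * Real.log L ^ m := mul_nonneg ha hlm0
      linarith))
  refine ⟨D, ψ, hD.trans ?_, hψ, by rw [sqrt_normSq]; exact herr⟩
  have hlog : Real.log (1 / (Real.exp (-(C' * Real.log L ^ k)) *
      Real.exp (-(a * Real.log L ^ m)))) = C' * Real.log L ^ k + a * Real.log L ^ m := by
    rw [← Real.exp_add, one_div, ← Real.exp_neg, Real.log_exp]
    ring
  rw [hlog]
  generalize Real.log L = l at hl1 hD0 ⊢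
  have hl0 : 0 ≤ l := by linarith
  have hk1 : l ^ k ≤ l ^ m := pow_le_pow_right₀ hl1 hkm
  have h11 : l ≤ l ^ m := by
    calc l = l ^ 1 := (pow_one l).symm
      _ ≤ l ^ m := pow_le_pow_right₀ hl1 hm
  have hCk : C' * l ^ k ≤ |C'| * l ^ m :=
    mul_le_mul (le_abs_self _) hk1 (by positivity) (abs_nonneg _)
  have hsum : l + (C' * l ^ k + a * l ^ m) ≤ (1 + |C'| + a) * l ^ m := by
    have e : (1 + |C'| + a) * l ^ m = l ^ m + |C'| * l ^ m + a * l ^ m := by ring
    rw [e]; linarith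
  calc (D0 : ℝ) * Real.exp (C * (l + (C' * l ^ k + a * l ^ m)))
      ≤ Real.exp (|C'| * l ^ m) * Real.exp (C * ((1 + |C'| + a) * l ^ m)) := by
        refine mul_le_mul (hD0.trans (Real.exp_le_exp.2 hCk)) (Real.exp_le_exp.2 ?_)
          (Real.exp_pos _).le (Real.exp_pos _).le
        exact mul_le_mul_of_nonneg_left hsum hC.le
    _ = Real.exp ((|C'| + C * (1 + |C'| + a)) * l ^ m) := by
        rw [← Real.exp_add]
        congr 1
        ring

end family

end Pool.Agent.TH235.PQ
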