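import Pool.Agent.TH235.PQ.Base

/-! # PAIR: exponential moment of the number of common dyadic nodes (job 5319, helper329) -/

set_option autoImplicit false
set_option linter.unusedSectionVars false

open scoped BigOperators
open Finset Pool.Agent.TH235.PP

namespace Pool.Agent.TH235.PQ

namespace Pairx

theorem sum_halves {β : Type*} [AddCommMonoid β] (q : ℕ)
    (f : (Fin (tm q) → Bool) → (Fin (tm q) → Bool) → β) :
    ∑ T : Fin (tm (q + 1)) → Bool, f (lf T) (rg T) = ∑ T₁, ∑ T₂, f T₁ T₂ := by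
  rw [← Fintype.sum_prod_type' f]
  exact Fintype.sum_equiv (Fin.appendEquiv (tm q) (tm q)).symm _ _ (fun T => rfl)

theorem cn_halves {q : ℕ} (T : Fin (tm (q + 1)) → Bool) : cn T = cn (lf T) + cn (rg T) := by
  unfold cn
  rw [card_filter, card_filter, card_filter]
  exact Fin.sum_univ_add _

/-- the empty column -/
def z (q : ℕ) : Fin (tm q) → Bool := fun _ => false

theorem cn_z (q : ℕ) : cn (z q) = 0 := by
  unfold cn z
  simp

theorem lf_z (q : ℕ) : lf (z (q + 1)) = z q := rfl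
theorem rg_z (q : ℕ) : rg (z (q + 1)) = z q := rfl

theorem jj_z (q : ℕ) : ∀ T : Fin (tm q) → Bool, jj q (z q) T = 0 ∧ jj q T (z q) = 0 := by
  induction q with
  | zero =>
    intro T
    simp [jj, z]
  | succ q ih =>
    intro T
    have h1 : ¬ ∃ t, z (q + 1) t = true := by simp [z]
    simp [jj, lf_z, rg_z, h1, (ih (lf T)).1, (ih (lf T)).2, (ih (rg T)).1, (ih (rg T)).2]

theorem ne_z {q : ℕ} {T : Fin (tm q) → Bool} (h : T ≠ z q) : ∃ t, T t = true := by
  by_contra hcon
  push Not at hcon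
  apply h
  funext t
  simpa [z] using hcon t

noncomputable def W (x : ℝ) (q : ℕ) (T T' : Fin (tm q) → Bool) : ℝ :=
  x ^ cn T * x ^ cn T' * (9 / 8 : ℝ) ^ jj q T T'

noncomputable def A (x : ℝ) (q : ℕ) : ℝ := ∑ T, ∑ T', W x q T T'

noncomputable def S (x : ℝ) (q : ℕ) : ℝ := ∑ T : Fin (tm q) → Bool, x ^ cn T

theorem W_zl (x : ℝ) (q : ℕ) (T : Fin (tm q) → Bool) : W x q (z q) T = x ^ cn T := by
  unfold W
  rw [cn_z, (jj_z q T).1]
  simp

theorem W_zr (x : ℝ) (q : ℕ) (T : Fin (tm q) → Bool) : W x q T (z q) = x ^ cn T := by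
  unfold W
  rw [cn_z, (jj_z q T).2]
  simp

/-- the part without the root -/
noncomputable def G (x : ℝ) (q : ℕ) (T T' : Fin (tm (q + 1)) → Bool) : ℝ :=
  W x q (lf T) (lf T') * W x q (rg T) (rg T')

theorem W_succ (x : ℝ) (q : ℕ) (T T' : Fin (tm (q + 1)) → Bool) :
    W x (q + 1) T T' = 9 / 8 * G x q T T' - 1 / 8 * (if T = z (q + 1) then G x q T T' else 0) -
      1 / 8 * (if T' = z (q + 1) then G x q T T' else 0) +
      1 / 8 * (if T = z (q + 1) then (if T' = z (q + 1) then G x q T T' else 0) else 0) := by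
  have key : W x (q + 1) T T' = (9 / 8 : ℝ) ^ (jj (q + 1) T T' - (jj q (lf T) (lf T') +
      jj q (rg T) (rg T'))) * G x q T T' := by
    have h1 : jj q (lf T) (lf T') + jj q (rg T) (rg T') ≤ jj (q + 1) T T' := by
      rw [jj]; omega
    unfold G W
    obtain ⟨e, he⟩ := Nat.exists_eq_add_of_le h1
    rw [he, cn_halves T, cn_halves T', Nat.add_sub_cancel_left]
    ring
  rw [key]
  by_cases h1 : T = z (q + 1)
  · subst h1
    rw [(jj_z (q + 1) T').1]
    by_cases h2 : T' = z (q + 1)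
    · simp only [h2, if_true, Nat.zero_sub, pow_zero]; ring
    · simp only [h2, if_true, if_false, Nat.zero_sub, pow_zero]; ring
  · by_cases h2 : T' = z (q + 1)
    · subst h2
      rw [(jj_z (q + 1) T).2]
      simp only [h1, if_true, if_false, Nat.zero_sub, pow_zero]; ring
    · have h3 := ne_z h1
      have h4 := ne_z h2
      have h5 : jj (q + 1) T T' - (jj q (lf T) (lf T') + jj q (rg T) (rg T')) = 1 := by
        rw [jj, if_pos ⟨h3, h4⟩]; omega
      rw [h5]
      simp only [h1, h2, if_false]; ring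

theorem S_succ (x : ℝ) (q : ℕ) : S x (q + 1) = S x q ^ 2 := by
  unfold S
  have h1 : ∀ T : Fin (tm (q + 1)) → Bool, x ^ cn T = x ^ cn (lf T) * x ^ cn (rg T) := fun T => by
    rw [cn_halves T, pow_add]
  simp only [h1]
  rw [sum_halves q fun a b => x ^ cn a * x ^ cn b, sq, Finset.sum_mul_sum]

theorem sum_G (x : ℝ) (q : ℕ) : ∑ T, ∑ T', G x q T T' = A x q ^ 2 := by
  have h1 : ∀ T : Fin (tm (q + 1)) → Bool, ∑ T', G x q T T' =
      (∑ a, W x q (lf T) a) * (∑ b, W x q (rg T) b) := by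
    intro T
    unfold G
    rw [sum_halves q fun a b => W x q (lf T) a * W x q (rg T) b, Finset.sum_mul_sum]
  simp only [h1]
  rw [sum_halves q fun c d => (∑ a, W x q c a) * (∑ b, W x q d b), ← Finset.sum_mul_sum, ← sq]
  rfl

theorem G_zl (x : ℝ) (q : ℕ) (T : Fin (tm (q + 1)) → Bool) :
    G x q (z (q + 1)) T = x ^ cn T := by
  unfold G
  rw [lf_z, rg_z, W_zl, W_zl, ← pow_add, ← cn_halves]

theorem G_zr (x : ℝ) (q : ℕ) (T : Fin (tm (q + 1)) → Bool) :
    G x q T (z (q + 1)) = x ^ cn T := by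
  unfold G
  rw [lf_z, rg_z, W_zr, W_zr, ← pow_add, ← cn_halves]

theorem A_succ (x : ℝ) (q : ℕ) :
    A x (q + 1) = 9 / 8 * A x q ^ 2 - 1 / 8 * (2 * S x q ^ 2 - 1) := by
  have h1 : A x (q + 1) = 9 / 8 * (∑ T, ∑ T', G x q T T') -
      1 / 8 * (∑ T, ∑ T', if T = z (q + 1) then G x q T T' else 0) -
      1 / 8 * (∑ T, ∑ T', if T' = z (q + 1) then G x q T T' else 0) +
      1 / 8 * (∑ T, ∑ T', if T = z (q + 1) then (if T' = z (q + 1) then G x q T T' else 0)
        else 0) := by
    unfold A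
    simp only [Finset.mul_sum, ← Finset.sum_add_distrib, ← Finset.sum_sub_distrib]
    exact Finset.sum_congr rfl fun T _ => Finset.sum_congr rfl fun T' _ => W_succ x q T T'
  have h2 : (∑ T, ∑ T', if T = z (q + 1) then G x q T T' else 0) = S x q ^ 2 := by
    have h3 : ∀ T : Fin (tm (q + 1)) → Bool,
        (∑ T', if T = z (q + 1) then G x q T T' else 0) =
          if T = z (q + 1) then ∑ T', G x q T T' else 0 := by
      intro T
      by_cases h : T = z (q + 1)
      · simp [h]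
      · simp [h]
    simp only [h3, Finset.sum_ite_eq', Finset.mem_univ, if_true, G_zl]
    exact S_succ x q
  have h4 : (∑ T, ∑ T', if T' = z (q + 1) then G x q T T' else 0) = S x q ^ 2 := by
    simp only [Finset.sum_ite_eq', Finset.mem_univ, if_true, G_zr]
    exact S_succ x q
  have h5 : (∑ T, ∑ T', if T = z (q + 1) then (if T' = z (q + 1) then G x q T T' else 0)
        else 0) = 1 := by
    have h3 : ∀ T : Fin (tm (q + 1)) → Bool,
        (∑ T', if T = z (q + 1) then (if T' = z (q + 1) then G x q T T' else 0) else 0) =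
          if T = z (q + 1) then G x q T (z (q + 1)) else 0 := by
      intro T
      by_cases h : T = z (q + 1)
      · simp [h]
      · simp [h]
    simp only [h3, Finset.sum_ite_eq', Finset.mem_univ, if_true, G_zr, cn_z, pow_zero]
  rw [h1, h2, h4, h5, sum_G]
  ring

theorem sum_one {β : Type*} [AddCommMonoid β] (f : (Fin (tm 0) → Bool) → β) :
    ∑ T : Fin (tm 0) → Bool, f T = f (fun _ => true) + f (fun _ => false) := by
  have h := (Equiv.funUnique (Fin 1) Bool).symm.sum_comp f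
  exact h.symm.trans (by rw [Fintype.sum_bool]; rfl)

theorem cn_true : cn (fun _ : Fin (tm 0) => true) = 1 := by
  show cn (fun _ : Fin 1 => true) = 1
  rfl

theorem S_zero (x : ℝ) : S x 0 = 1 + x := by
  unfold S
  rw [sum_one, cn_true]
  have : cn (fun _ : Fin (tm 0) => false) = 0 := cn_z 0
  rw [this]
  ring

theorem A_zero (x : ℝ) : A x 0 = 1 + 2 * x + 9 / 8 * x ^ 2 := by
  unfold A
  rw [sum_one, sum_one, sum_one]
  have h0 : (fun _ : Fin (tm 0) => false) = z 0 := rfl
  rw [h0, W_zl, W_zl, W_zr, cn_z, cn_true]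
  have h1 : jj 0 (fun _ : Fin (tm 0) => true) (fun _ : Fin (tm 0) => true) = 1 := by
    have h2 : ∃ t : Fin (tm 0), (fun _ : Fin (tm 0) => true) t = true := ⟨⟨0, by simp [tm]⟩, rfl⟩
    rw [jj, if_pos ⟨h2, h2⟩]
  unfold W
  rw [h1, cn_true]
  ring

theorem exp_le {y : ℝ} (h : y < 1) : Real.exp y ≤ 1 / (1 - y) := by
  have h1 := Real.add_one_le_exp (-y)
  have h2 : 0 < 1 - y := by linarith
  rw [le_div_iff₀ h2]
  have h3 : Real.exp y * Real.exp (-y) = 1 := by rw [← Real.exp_add]; simp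
  have h4 := Real.exp_pos y
  nlinarith

theorem S_le {x : ℝ} (hx : 0 ≤ x) (q : ℕ) : 1 ≤ S x q ∧ S x q ≤ Real.exp (tm q * x) := by
  induction q with
  | zero =>
    rw [S_zero]
    refine ⟨by linarith, ?_⟩
    have := Real.add_one_le_exp x
    simp only [tm, Nat.cast_one, one_mul]
    linarith
  | succ q ih =>
    rw [S_succ]
    refine ⟨by nlinarith [ih.1], ?_⟩
    have h1 : Real.exp (tm (q + 1) * x) = Real.exp (tm q * x) ^ 2 := by
      rw [← Real.exp_nat_mul]
      congr 1
      simp only [tm]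
      push_cast
      ring
    rw [h1]
    exact pow_le_pow_left₀ (by linarith [ih.1]) ih.2 2

/-- the invariant for small times -/
theorem small {x : ℝ} (hx : 0 ≤ x) (q : ℕ) :
    0 ≤ A x q - 2 * S x q + 1 ∧
    ((tm q : ℝ) * x ≤ 1 / 10 → A x q - 2 * S x q + 1 ≤ 2 * (S x q - 1) ^ 2) := by
  induction q with
  | zero =>
    rw [A_zero, S_zero]
    constructor
    · nlinarith [sq_nonneg x]
    · intro _
      nlinarith [sq_nonneg x]
  | succ q ih =>
    obtain ⟨h1, h2⟩ := ih
    obtain ⟨s1, s2⟩ := S_le hx q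
    rw [A_succ, S_succ]
    set X := S x q - 1 with hX
    have hX0 : 0 ≤ X := by linarith
    set B := A x q - 2 * S x q + 1 with hB
    have hA : A x q = 1 + 2 * X + B := by rw [hB, hX]; ring
    have hS : S x q = 1 + X := by rw [hX]; ring
    have e1 : 9 / 8 * A x q ^ 2 - 1 / 8 * (2 * S x q ^ 2 - 1) - 2 * S x q ^ 2 + 1 =
        9 / 8 * (2 * X ^ 2 + 2 * B + 4 * X * B + B ^ 2) := by
      rw [hA, hS]; ring
    rw [e1]
    constructor
    · positivity
    · intro hL
      have hL' : (tm q : ℝ) * x ≤ 1 / 20 := by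
        simp only [tm] at hL
        push_cast at hL
        linarith
      have h3 := h2 (by linarith)
      have h4 : Real.exp (tm q * x) ≤ 1 / (1 - 1 / 20) :=
        (Real.exp_le_exp.2 hL').trans (exp_le (by norm_num))
      have hX1 : X ≤ 1 / 8 := by
        have : (1 : ℝ) / (1 - 1 / 20) ≤ 1 + 1 / 8 := by norm_num
        linarith
      have e2 : S x q ^ 2 - 1 = 2 * X + X ^ 2 := by rw [hS]; ring
      rw [e2]
      have h5 : 2 * X ^ 2 + 2 * B + 4 * X * B + B ^ 2 ≤
          X ^ 2 * (6 + 8 * X + 4 * X ^ 2) := by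
        have h6 : B ^ 2 ≤ (2 * X ^ 2) ^ 2 := pow_le_pow_left₀ h1 h3 2
        have h7 : X * B ≤ X * (2 * X ^ 2) := mul_le_mul_of_nonneg_left h3 hX0
        nlinarith
      have h8 : 6 + 8 * X + 4 * X ^ 2 ≤ 64 / 9 := by nlinarith
      have h9 : X ^ 2 * (6 + 8 * X + 4 * X ^ 2) ≤ X ^ 2 * (64 / 9) :=
        mul_le_mul_of_nonneg_left h8 (sq_nonneg X)
      have h10 : X ^ 2 * 4 ≤ (2 * X + X ^ 2) ^ 2 := by
        have : (2 * X + X ^ 2) ^ 2 = 4 * X ^ 2 + 4 * X * X ^ 2 + X ^ 2 * X ^ 2 := by ring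
        rw [this]
        have h11 : 0 ≤ X * X ^ 2 := by positivity
        have h12 : 0 ≤ X ^ 2 * X ^ 2 := by positivity
        linarith
      linarith

/-- large times -/
theorem large {x : ℝ} (hx : 0 ≤ x) (hx1 : x ≤ 1 / 20) (q : ℕ) (h : 1 / 20 < (tm q : ℝ) * x) :
    9 / 8 * A x q ≤ Real.exp (7 * (tm q * x)) := by
  induction q with
  | zero =>
    simp only [tm, Nat.cast_one, one_mul] at h
    linarith
  | succ q ih =>
    have e0 : ((tm (q + 1) : ℕ) : ℝ) * x = 2 * (tm q * x) := by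
      simp only [tm]; push_cast; ring
    rcases le_or_gt ((tm (q + 1) : ℝ) * x) (1 / 10) with h1 | h1
    · have h2 := (small hx (q + 1)).2 h1
      obtain ⟨s1, s2⟩ := S_le hx (q + 1)
      have h4 : Real.exp (tm (q + 1) * x) ≤ 1 / (1 - 1 / 10) :=
        (Real.exp_le_exp.2 h1).trans (exp_le (by norm_num))
      have hX1 : S x (q + 1) - 1 ≤ 1 / 9 := by
        have : (1 : ℝ) / (1 - 1 / 10) = 1 + 1 / 9 := by norm_num
        linarith
      have hX2 : (S x (q + 1) - 1) ^ 2 ≤ (1 / 9) ^ 2 := pow_le_pow_left₀ (by linarith) hX1 2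
      have h5 : (1 : ℝ) + 7 / 20 + (7 / 20) ^ 2 / 2 ≤ Real.exp (7 / 20) :=
        Real.quadratic_le_exp_of_nonneg (by norm_num)
      have h6 : Real.exp (7 / 20) ≤ Real.exp (7 * (tm (q + 1) * x)) :=
        Real.exp_le_exp.2 (by linarith)
      norm_num at hX2 h5
      linarith
    · have h2 : 1 / 20 < (tm q : ℝ) * x := by linarith
      have h3 := ih h2
      have h4 : A x (q + 1) ≤ 9 / 8 * A x q ^ 2 := by
        rw [A_succ]
        have := (S_le hx q).1
        nlinarith
      have h5 : Real.exp (7 * (tm (q + 1) * x)) = Real.exp (7 * (tm q * x)) ^ 2 := by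
        rw [← Real.exp_nat_mul, e0]
        congr 1
        push_cast
        ring
      have h6 : 0 ≤ 9 / 8 * A x q := by
        have h7 := (small hx q).1
        have h8 := (S_le hx q).1
        linarith
      have h9 := pow_le_pow_left₀ h6 h3 2
      rw [h5]
      nlinarith

end Pairx

open Pairx in
theorem pair : PAIR := by
  intro q x hx hx1
  have e : ∑ T : Fin (tm q) → Bool, ∑ T' : Fin (tm q) → Bool,
      x ^ cn T * x ^ cn T' * (9 / 8 : ℝ) ^ jj q T T' = A x q := rfl
  rw [e]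
  have hp := Real.exp_pos (7 * ((tm q : ℝ) * x))
  rcases lt_or_ge (1 / 20) ((tm q : ℝ) * x) with h | h
  · have := large hx hx1 q h
    linarith
  · have h2 := (small hx q).2 (by linarith)
    obtain ⟨s1, s2⟩ := S_le hx q
    have h4 : Real.exp (tm q * x) ≤ 1 / (1 - 1 / 20) :=
      (Real.exp_le_exp.2 h).trans (exp_le (by norm_num))
    have hX1 : S x q - 1 ≤ 1 / 9 := by
      have : (1 : ℝ) / (1 - 1 / 20) ≤ 1 + 1 / 9 := by norm_num
      linarith
    have hX2 : (S x q - 1) ^ 2 ≤ (1 / 9) ^ 2 := pow_le_pow_left₀ (by linarith) hX1 2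
    have h6 : (1 : ℝ) ≤ Real.exp (7 * ((tm q : ℝ) * x)) :=
      Real.one_le_exp (by positivity)
    norm_num at hX2
    linarith

end Pool.Agent.TH235.PQ
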