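import Pool.Agent.TH235.PQ.Base

set_option autoImplicit false
set_option linter.unusedSectionVars false

open scoped BigOperators
open Finset Pool.Agent.TH235.PP

namespace Pool.Agent.TH235.PQ

namespace Reg973

section ops

variable {R : Type*} [Ring R]

lemma op_commute {n : ℕ} (a : Fin n → R) (x : R) (h : ∀ i, Commute (a i) x) :
    Commute (op a) x := by
  induction n with
  | zero => rw [op_zero]; exact Commute.one_left x
  | succ n ih => rw [op_succ]; exact (h 0).mul_left (ih _ fun i => h i.succ)

lemma op_mul {n : ℕ} (a z : Fin n → R) (h : ∀ i j, Commute (a i) (z j)) :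
    op (fun i => a i * z i) = op a * op z := by
  induction n with
  | zero => simp [op_zero]
  | succ n ih =>
    rw [op_succ, op_succ a, op_succ z, ih _ _ (fun i j => h i.succ j.succ)]
    have hc : Commute (op fun i : Fin n => a i.succ) (z 0) :=
      op_commute _ _ fun i => h i.succ 0
    calc a 0 * z 0 * ((op fun i : Fin n => a i.succ) * op fun i : Fin n => z i.succ)
        = a 0 * (z 0 * (op fun i : Fin n => a i.succ)) * op fun i : Fin n => z i.succ := by
          simp only [mul_assoc]
      _ = a 0 * ((op fun i : Fin n => a i.succ) * z 0) * op fun i : Fin n => z i.succ := by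
          rw [hc.eq]
      _ = _ := by simp only [mul_assoc]

lemma op_one (n : ℕ) : op (fun _ : Fin n => (1 : R)) = 1 := by rw [op_const, one_pow]

lemma op_single {n : ℕ} (b : Fin n) (w : R) : op (fun c => if c = b then w else 1) = w := by
  induction n with
  | zero => exact b.elim0
  | succ n ih =>
    rw [op_succ]
    refine Fin.cases ?_ (fun b' => ?_) b
    · have : (fun i : Fin n => if i.succ = (0 : Fin (n + 1)) then w else 1) = fun _ => 1 := by
        funext i; rw [if_neg (Fin.succ_ne_zero i)]
      rw [this, op_one, if_pos rfl, mul_one]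
    · have : (fun i : Fin n => if i.succ = b'.succ then w else 1) =
          fun i => if i = b' then w else 1 := by
        funext i; simp only [Fin.succ_inj]
      rw [this, ih, if_neg (Fin.succ_ne_zero b').symm, one_mul]

lemma op_add {m n : ℕ} (z : Fin (m + n) → R) :
    op z = op (fun i => z (Fin.castAdd n i)) * op (fun j => z (Fin.natAdd m j)) := by
  unfold op
  rw [List.ofFn_add, List.prod_append]
  rfl

lemma pr_mul {M N : ℕ} (a z : Fin M → Fin N → R)
    (h : ∀ t c t' c', Commute (a t c) (z t' c')) :
    pr (fun t c => a t c * z t c) = pr a * pr z := by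
  unfold pr
  rw [← op_mul]
  · congr 1
    funext t
    exact op_mul _ _ fun i j => h t i t j
  · intro i j
    refine op_commute _ _ fun c => ?_
    exact (op_commute _ _ fun c' => (h i c j c').symm).symm

lemma sumY {M : ℕ} (w : R) :
    (∑ T : Fin M → Bool, if (∃ t, T t = true) then op (fun t => if T t = true then w else 1) else 0)
      = (1 + w) ^ M - 1 := by
  classical
  have h := op_sum (n := M) (fun (_ : Fin M) (x : Bool) => if x = true then w else (1 : R))
  have h1 : op (fun _ : Fin M => ∑ x : Bool, if x = true then w else (1 : R)) = (1 + w) ^ M := by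
    rw [op_const]
    simp [add_comm]
  rw [h1] at h
  have h2 : ∀ T : Fin M → Bool, op (fun t => if T t = true then w else (1 : R)) =
      (if (∃ t, T t = true) then op (fun t => if T t = true then w else 1) else 0) +
        (if T = (fun _ => false) then 1 else 0) := by
    intro T
    by_cases hT : ∃ t, T t = true
    · rw [if_pos hT, if_neg, add_zero]
      rintro rfl
      simp at hT
    · rw [if_neg hT]
      have hT2 : T = fun _ => false := by
        funext t
        by_contra hne
        exact hT ⟨t, by simpa using hne⟩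
      rw [if_pos hT2, zero_add]
      subst hT2
      simp [op_one]
  rw [h, Finset.sum_congr rfl fun T _ => h2 T, Finset.sum_add_distrib]
  simp

end ops

open Classical in
/-- the set of used columns -/
noncomputable def used {M N : ℕ} (F : Fin M → Fin N → Bool) : Finset (Fin N) :=
  univ.filter fun b => occ F b

lemma mem_used {M N : ℕ} (F : Fin M → Fin N → Bool) (b : Fin N) : b ∈ used F ↔ occ F b := by
  classical
  simp [used]

/-- clear the column `b` -/
def clr {M N : ℕ} (b : Fin N) (F : Fin M → Fin N → Bool) : Fin M → Fin N → Bool :=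
  fun t c => if c = b then false else F t c

/-- fill the column `b` -/
def fil {M N : ℕ} (b : Fin N) (T : Fin M → Bool) (F : Fin M → Fin N → Bool) :
    Fin M → Fin N → Bool :=
  fun t c => if c = b then T t else F t c

lemma occ_clr {M N : ℕ} (b : Fin N) (F : Fin M → Fin N → Bool) (c : Fin N) :
    occ (clr b F) c ↔ c ≠ b ∧ occ F c := by
  unfold occ clr
  by_cases h : c = b
  · simp [h]
  · simp [h]

lemma occ_fil {M N : ℕ} (b : Fin N) (T : Fin M → Bool) (F : Fin M → Fin N → Bool) (c : Fin N) :
    occ (fil b T F) c ↔ (c = b ∧ ∃ t, T t = true) ∨ (c ≠ b ∧ occ F c) := by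
  unfold occ fil
  by_cases h : c = b
  · simp [h]
  · simp [h]

lemma occ_lf {q N : ℕ} (F : Fin (tm (q + 1)) → Fin N → Bool) (c : Fin N) (h : occ (lf F) c) :
    occ F c := by
  obtain ⟨t, ht⟩ := h
  exact ⟨_, ht⟩

lemma occ_rg {q N : ℕ} (F : Fin (tm (q + 1)) → Fin N → Bool) (c : Fin N) (h : occ (rg F) c) :
    occ F c := by
  obtain ⟨t, ht⟩ := h
  exact ⟨_, ht⟩

section main

variable {N : ℕ} (adj : Fin N → Fin N → Prop)

open Classical in
lemma act_clr (hs : ∀ b b', adj b b' → adj b' b) (b : Fin N) (q : ℕ) :
    ∀ (F : Fin (tm q) → Fin N → Bool), (∀ b', adj b b' → ¬ occ F b') →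
      act adj q (clr b F) = act adj q F := by
  have key : ∀ {M : ℕ} (F : Fin M → Fin N → Bool), (∀ b', adj b b' → ¬ occ F b') → ∀ c,
      (occ (clr b F) c ∧ ∃ c', adj c c' ∧ occ (clr b F) c') ↔
        (occ F c ∧ ∃ c', adj c c' ∧ occ F c') := by
    intro M F hF c
    simp only [occ_clr]
    constructor
    · rintro ⟨⟨_, h1⟩, c', h2, _, h3⟩
      exact ⟨h1, c', h2, h3⟩
    · rintro ⟨h1, c', h2, h3⟩
      refine ⟨⟨?_, h1⟩, c', h2, ?_, h3⟩
      · rintro rfl
        exact hF c' h2 h3
      · rintro rfl
        exact hF c (hs _ _ h2) h1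
  induction q with
  | zero =>
    intro F hF
    funext c
    simp only [act]
    rw [if_congr (key F hF c) rfl rfl]
  | succ q ih =>
    intro F hF
    funext c
    simp only [act]
    rw [if_congr (key F hF c) rfl rfl]
    have h1 : lf (clr b F) = clr b (lf F) := rfl
    have h2 : rg (clr b F) = clr b (rg F) := rfl
    rw [h1, h2, ih (lf F) (fun b' hb' ho => hF b' hb' (occ_lf F b' ho)),
      ih (rg F) (fun b' hb' ho => hF b' hb' (occ_rg F b' ho))]

variable {R : Type*} [Ring R] (y : Fin N → R)

lemma PF_clr {M : ℕ} (hc : ∀ b b', ¬ adj b b' → y b * y b' = y b' * y b) (b : Fin N)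
    (F : Fin M → Fin N → Bool) (hF : ∀ b', adj b b' → ¬ occ F b') :
    PF y F = op (fun t => if F t b = true then y b else 1) * PF y (clr b F) := by
  have h1 : PF y F = pr (fun t c => (if c = b then (if F t b = true then y b else 1) else 1) *
      (if clr b F t c = true then y c else 1)) := by
    unfold PF
    congr 1
    funext t c
    by_cases h : c = b
    · subst h
      simp [clr]
    · simp [clr, h]
  rw [h1, pr_mul]
  · congr 1
    unfold pr
    congr 1
    funext t
    exact op_single b _
  · intro t c t' c'
    by_cases h1 : c = b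
    · by_cases h2 : F t b = true
      · by_cases h3 : clr b F t' c' = true
        · simp only [h1, h2, h3, if_true]
          have h4 : occ (clr b F) c' := ⟨t', h3⟩
          rw [occ_clr] at h4
          exact hc b c' fun h5 => hF c' h5 h4.2
        · rw [if_neg h3]
          exact Commute.one_right _
      · rw [if_pos h1, if_neg h2]
        exact Commute.one_left _
    · rw [if_neg h1]
      exact Commute.one_left _

open Classical in
lemma remove_one (hs : ∀ b b', adj b b' → adj b' b) (hi : ∀ b, ¬ adj b b)
    (hc : ∀ b b', ¬ adj b b' → y b * y b' = y b' * y b) (q : ℕ) (O : Finset (Fin N)) (b : Fin N)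
    (hb : b ∈ O) (hiso : ∀ b' ∈ O, ¬ adj b b') (p : (Fin N → ℕ) → Prop) :
    (∑ F : Fin (tm q) → Fin N → Bool, if used F = O ∧ p (act adj q F) then PF y F else 0) =
      ((1 + y b) ^ tm q - 1) * ∑ F : Fin (tm q) → Fin N → Bool,
        if used F = O.erase b ∧ p (act adj q F) then PF y F else 0 := by
  rw [← sumY, Finset.sum_mul_sum, ← Finset.sum_product', ← Finset.sum_filter]
  have e : ∀ x : (Fin (tm q) → Bool) × (Fin (tm q) → Fin N → Bool),
      (if (∃ t, x.1 t = true) then op (fun t => if x.1 t = true then y b else 1) else 0) *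
        (if used x.2 = O.erase b ∧ p (act adj q x.2) then PF y x.2 else 0) =
      if ((∃ t, x.1 t = true) ∧ used x.2 = O.erase b ∧ p (act adj q x.2)) then
        op (fun t => if x.1 t = true then y b else 1) * PF y x.2 else 0 := by
    intro x
    by_cases h1 : ∃ t, x.1 t = true
    · by_cases h2 : used x.2 = O.erase b ∧ p (act adj q x.2)
      · rw [if_pos h1, if_pos h2, if_pos ⟨h1, h2⟩]
      · rw [if_neg h2, mul_zero, if_neg fun h => h2 h.2]
    · rw [if_neg h1, zero_mul, if_neg fun h => h1 h.1]
  rw [Finset.sum_congr rfl fun x _ => e x, ← Finset.sum_filter]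
  have hfree : ∀ F : Fin (tm q) → Fin N → Bool, used F = O → ∀ b', adj b b' → ¬ occ F b' := by
    intro F hF b' hadj ho
    rw [← mem_used, hF] at ho
    exact hiso b' ho hadj
  have hclrfil : ∀ (T : Fin (tm q) → Bool) (F : Fin (tm q) → Fin N → Bool),
      used F = O.erase b → clr b (fil b T F) = F := by
    intro T F hF
    funext t c
    unfold clr fil
    by_cases h : c = b
    · subst h
      rw [if_pos rfl]
      by_contra hne
      have : occ F c := ⟨t, by
        cases hh : F t c
        · exact absurd hh.symm hne
        · rfl⟩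
      rw [← mem_used, hF] at this
      exact absurd this (Finset.notMem_erase c O)
    · rw [if_neg h, if_neg h]
  have husedfil : ∀ (T : Fin (tm q) → Bool) (F : Fin (tm q) → Fin N → Bool),
      (∃ t, T t = true) → used F = O.erase b → used (fil b T F) = O := by
    intro T F hT hF
    ext c
    rw [mem_used, occ_fil, ← mem_used, hF, Finset.mem_erase]
    constructor
    · rintro (⟨h1, _⟩ | ⟨_, _, h2⟩)
      · rw [h1]; exact hb
      · exact h2
    · intro h
      by_cases hcb : c = b
      · exact Or.inl ⟨hcb, hT⟩
      · exact Or.inr ⟨hcb, hcb, h⟩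
  refine Finset.sum_bij' (fun F _ => ((fun t => F t b), clr b F)) (fun x _ => fil b x.1 x.2)
    ?_ ?_ ?_ ?_ ?_
  · intro F hF
    rw [Finset.mem_filter] at hF
    obtain ⟨_, hF1, hF2⟩ := hF
    rw [Finset.mem_filter]
    refine ⟨by simp, ?_, ?_, ?_⟩
    · have := (mem_used F b).1 (hF1 ▸ hb)
      exact this
    · ext c
      rw [mem_used, occ_clr, ← mem_used, hF1, Finset.mem_erase]
    · show p (act adj q (clr b F))
      rw [act_clr adj hs b q F (hfree F hF1)]
      exact hF2
  · intro x hx
    rw [Finset.mem_filter] at hx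
    obtain ⟨_, hT, hx1, hx2⟩ := hx
    rw [Finset.mem_filter]
    have hu := husedfil x.1 x.2 hT hx1
    refine ⟨by simp, hu, ?_⟩
    rw [← act_clr adj hs b q _ (hfree _ hu), hclrfil _ _ hx1]
    exact hx2
  · intro F _
    funext t c
    unfold fil clr
    by_cases h : c = b
    · subst h; simp
    · simp [h]
  · intro x hx
    rw [Finset.mem_filter] at hx
    obtain ⟨_, hT, hx1, hx2⟩ := hx
    refine Prod.ext ?_ ?_
    · funext t
      simp [fil]
    · exact hclrfil _ _ hx1
  · intro F hF
    rw [Finset.mem_filter] at hF
    exact PF_clr adj y hc b F (hfree F hF.2.1)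

open Classical in
lemma remove_all (hs : ∀ b b', adj b b' → adj b' b) (hi : ∀ b, ¬ adj b b)
    (hc : ∀ b b', ¬ adj b b' → y b * y b' = y b' * y b) (q : ℕ) (O : Finset (Fin N))
    (p : (Fin N → ℕ) → Prop) (J : Finset (Fin N)) (hJ : J ⊆ O)
    (hiso : ∀ b ∈ J, ∀ b' ∈ O, ¬ adj b b') :
    (∑ F : Fin (tm q) → Fin N → Bool, if used F = O ∧ p (act adj q F) then PF y F else 0) =
      op (fun c => if c ∈ J then (1 + y c) ^ tm q - 1 else 1) *
        ∑ F : Fin (tm q) → Fin N → Bool,
          if used F = O \ J ∧ p (act adj q F) then PF y F else 0 := by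
  induction J using Finset.induction_on with
  | empty => simp [op_one]
  | insert b J hbJ ih =>
    rw [ih ((Finset.subset_insert b J).trans hJ)
      (fun c hcJ => hiso c (Finset.mem_insert_of_mem hcJ))]
    have hbO : b ∈ O := hJ (Finset.mem_insert_self b J)
    rw [remove_one adj y hs hi hc q (O \ J) b (by simp [hbO, hbJ])
      (fun b' hb' => hiso b (Finset.mem_insert_self b J) b' (Finset.mem_sdiff.1 hb').1) p]
    rw [← mul_assoc]
    have h1 : (O \ J).erase b = O \ insert b J := by
      ext c
      simp only [Finset.mem_erase, Finset.mem_sdiff, Finset.mem_insert]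
      tauto
    rw [h1]
    congr 1
    have h2 : (fun c => if c ∈ insert b J then (1 + y c) ^ tm q - 1 else 1) =
        fun c => (if c ∈ J then (1 + y c) ^ tm q - 1 else 1) *
          (if c = b then (1 + y b) ^ tm q - 1 else 1) := by
      funext c
      by_cases hcb : c = b
      · subst hcb
        simp [hbJ]
      · simp [hcb]
    rw [h2, op_mul, op_single]
    intro c c'
    by_cases h3 : c ∈ J
    · by_cases h4 : c' = b
      · rw [if_pos h3, if_pos h4]
        have h5 : Commute (y c) (y b) :=
          hc c b (hiso c (Finset.mem_insert_of_mem h3) b hbO)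
        exact (((Commute.one_left _).add_left ((Commute.one_right _).add_right h5)).pow_pow
          _ _).sub_left (Commute.one_left _) |>.sub_right (Commute.one_right _)
      · rw [if_neg h4]
        exact Commute.one_right _
    · rw [if_neg h3]
      exact Commute.one_left _

lemma lf_append {X : Type*} {q : ℕ} (A B : Fin (tm q) → X) :
    lf (q := q) (Fin.append A B) = A := by
  funext t
  exact Fin.append_left A B t

lemma rg_append {X : Type*} {q : ℕ} (A B : Fin (tm q) → X) :
    rg (q := q) (Fin.append A B) = B := by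
  funext t
  exact Fin.append_right A B t

lemma occ_append {m n : ℕ} (A : Fin m → Fin N → Bool) (B : Fin n → Fin N → Bool) (c : Fin N) :
    occ (Fin.append A B) c ↔ occ A c ∨ occ B c := by
  constructor
  · rintro ⟨t, ht⟩
    revert ht
    refine Fin.addCases (fun i => ?_) (fun j => ?_) t
    · intro h
      rw [Fin.append_left] at h
      exact Or.inl ⟨i, h⟩
    · intro h
      rw [Fin.append_right] at h
      exact Or.inr ⟨j, h⟩
  · rintro (⟨i, h⟩ | ⟨j, h⟩)
    · exact ⟨Fin.castAdd n i, by rw [Fin.append_left]; exact h⟩
    · exact ⟨Fin.natAdd m j, by rw [Fin.append_right]; exact h⟩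

lemma PF_append {q : ℕ} (A B : Fin (tm q) → Fin N → Bool) :
    PF (M := tm (q + 1)) y (Fin.append A B) = PF y A * PF y B := by
  unfold PF pr
  have h := op_add (m := tm q) (n := tm q)
    (fun t => op fun b => if Fin.append A B t b = true then y b else (1 : R))
  simp only [Fin.append_left, Fin.append_right] at h
  exact h

lemma sum_append {m n : ℕ} {X : Type*} [Fintype X] (f : (Fin (m + n) → X) → R) :
    ∑ F, f F = ∑ A : Fin m → X, ∑ B : Fin n → X, f (Fin.append A B) := by
  rw [← (Fin.appendEquiv m n).sum_comp, Fintype.sum_prod_type]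
  rfl

/-- glue root and subtrees -/
def glue {X : Type*} {q : ℕ} (r : X) (A B : Fin (nn q) → X) : Fin (nn (q + 1)) → X :=
  Fin.append (fun _ : Fin 1 => r) (Fin.append A B)

lemma nroot_glue {X : Type*} {q : ℕ} (r : X) (A B : Fin (nn q) → X) :
    nroot (glue r A B) = r := by
  unfold nroot glue
  rw [Fin.append_left]

lemma nlf_glue {X : Type*} {q : ℕ} (r : X) (A B : Fin (nn q) → X) :
    nlf (glue r A B) = A := by
  funext n
  unfold nlf glue
  rw [Fin.append_right, Fin.append_left]

lemma nrg_glue {X : Type*} {q : ℕ} (r : X) (A B : Fin (nn q) → X) :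
    nrg (glue r A B) = B := by
  funext n
  unfold nrg glue
  rw [Fin.append_right, Fin.append_right]

lemma occ_glue {q : ℕ} (r : Fin N → Bool) (A B : Fin (nn q) → Fin N → Bool) (c : Fin N) :
    occ (glue r A B) c ↔ r c = true ∨ occ A c ∨ occ B c := by
  have h := occ_append (m := 1) (n := nn q + nn q) (fun _ : Fin 1 => r) (Fin.append A B) c
  have h2 := occ_append (m := nn q) (n := nn q) A B c
  have this : occ (fun _ : Fin 1 => r) c ↔ r c = true := by
    constructor
    · rintro ⟨_, h⟩; exact h
    · intro h; exact ⟨0, h⟩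
  exact h.trans (or_congr this h2)

lemma PN_glue {q : ℕ} (r : Fin N → Bool) (A B : Fin (nn q) → Fin N → Bool) :
    PN (q + 1) y (glue r A B) =
      op (fun c => if r c = true then (1 + y c) ^ tm (q + 1) - 1 else 1) *
        (PN q y A * PN q y B) := by
  unfold PN pr
  have h := op_add (m := 1) (n := nn q + nn q)
    (fun n => op fun b => if glue r A B n b = true then (1 + y b) ^ len (q + 1) n - 1 else (1 : R))
  have h2 := op_add (m := nn q) (n := nn q)
    (fun n => op fun b => if glue r A B (Fin.natAdd 1 n) b = true then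
      (1 + y b) ^ len (q + 1) (Fin.natAdd 1 n) - 1 else (1 : R))
  rw [h2, op_succ, op_zero, mul_one] at h
  simp only [glue, len, Fin.append_left, Fin.append_right, Fin.addCases_left,
    Fin.addCases_right] at h
  exact h

lemma sum_glue {q : ℕ} {X : Type*} [Fintype X] (f : (Fin (nn (q + 1)) → X) → R) :
    ∑ G, f G = ∑ r : X, ∑ A : Fin (nn q) → X, ∑ B : Fin (nn q) → X, f (glue r A B) := by
  have h := sum_append (m := 1) (n := nn q + nn q) f
  refine h.trans ?_
  rw [← (Equiv.funUnique (Fin 1) X).symm.sum_comp]
  refine Finset.sum_congr rfl fun r _ => ?_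
  exact sum_append (m := nn q) (n := nn q)
    (fun G => f (Fin.append ((Equiv.funUnique (Fin 1) X).symm r) G))

/-- the non-isolated elements -/
noncomputable def nis (O : Finset (Fin N)) : Finset (Fin N) :=
  open Classical in O.filter fun b => ∃ b', adj b b' ∧ b' ∈ O

lemma mem_nis (O : Finset (Fin N)) (b : Fin N) :
    b ∈ nis adj O ↔ b ∈ O ∧ ∃ b', adj b b' ∧ b' ∈ O := by
  classical
  simp [nis]

open Classical in
lemma F_side (hs : ∀ b b', adj b b' → adj b' b) (hi : ∀ b, ¬ adj b b)
    (hc : ∀ b b', ¬ adj b b' → y b * y b' = y b' * y b) (q : ℕ) (O : Finset (Fin N))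
    (p : (Fin N → ℕ) → Prop) :
    (∑ F : Fin (tm (q + 1)) → Fin N → Bool,
      if used F = O ∧ p (act adj (q + 1) F) then PF y F else 0) =
      op (fun c => if c ∈ O \ nis adj O then (1 + y c) ^ tm (q + 1) - 1 else 1) *
        ∑ A : Fin (tm q) → Fin N → Bool, ∑ B : Fin (tm q) → Fin N → Bool,
          if used A ∪ used B = nis adj O ∧
            p (fun b => (if b ∈ nis adj O then 1 else 0) + act adj q A b + act adj q B b) then
            PF y A * PF y B else 0 := by
  rw [remove_all adj y hs hi hc (q + 1) O p (O \ nis adj O) Finset.sdiff_subset]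
  · congr 1
    have hO : O \ (O \ nis adj O) = nis adj O := by
      ext c
      simp only [Finset.mem_sdiff, mem_nis]
      constructor
      · rintro ⟨h1, h2⟩
        by_contra h3
        exact h2 ⟨h1, h3⟩
      · rintro ⟨h1, h2⟩
        exact ⟨h1, fun h => h.2 ⟨h1, h2⟩⟩
    rw [hO]
    refine (sum_append (m := tm q) (n := tm q) _).trans ?_
    refine Finset.sum_congr rfl fun A _ => Finset.sum_congr rfl fun B _ => ?_
    have hu : used (Fin.append A B) = used A ∪ used B := by
      ext c
      rw [mem_used, occ_append, Finset.mem_union, mem_used, mem_used]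
    have hu' : used (M := tm (q + 1)) (Fin.append A B) = used A ∪ used B := hu
    rw [PF_append, hu']
    have hact : used A ∪ used B = nis adj O →
        act adj (q + 1) (Fin.append A B) =
          fun b => (if b ∈ nis adj O then 1 else 0) + act adj q A b + act adj q B b := by
      intro h
      funext b
      simp only [act]
      rw [lf_append, rg_append]
      have : (occ (M := tm (q + 1)) (Fin.append A B) b ∧
          ∃ b', adj b b' ∧ occ (M := tm (q + 1)) (Fin.append A B) b') ↔ b ∈ nis adj O := by
        have h1 : ∀ c, occ (M := tm (q + 1)) (Fin.append A B) c ↔ c ∈ nis adj O := by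
          intro c
          exact (mem_used (M := tm (q + 1)) _ c).symm.trans (by rw [hu', h])
        simp only [h1]
        constructor
        · exact fun h => h.1
        · intro hb
          refine ⟨hb, ?_⟩
          obtain ⟨hbO, b', hadj, hb'⟩ := (mem_nis adj O b).1 hb
          exact ⟨b', hadj, (mem_nis adj O b').2 ⟨hb', b, hs _ _ hadj, hbO⟩⟩
      rw [if_congr this rfl rfl]
    by_cases h : used A ∪ used B = nis adj O
    · rw [hact h]
    · rw [if_neg fun h' => h h'.1, if_neg fun h' => h h'.1]
  · intro b hb b' hb' hadj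
    rw [Finset.mem_sdiff, mem_nis] at hb
    exact hb.2 ⟨hb.1, b', hadj, hb'⟩

open Classical in
lemma G_side (hs : ∀ b b', adj b b' → adj b' b) (q : ℕ) (O : Finset (Fin N))
    (p : (Fin N → ℕ) → Prop) :
    (∑ G : Fin (nn (q + 1)) → Fin N → Bool,
      if (∀ b, adm adj (q + 1) G b) ∧ used G = O ∧ p (actn adj (q + 1) G) then
        PN (q + 1) y G else 0) =
      op (fun c => if c ∈ O \ nis adj O then (1 + y c) ^ tm (q + 1) - 1 else 1) *
        ∑ A : Fin (nn q) → Fin N → Bool, ∑ B : Fin (nn q) → Fin N → Bool,
          if (∀ b, adm adj q A b) ∧ (∀ b, adm adj q B b) ∧ used A ∪ used B = nis adj O ∧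
            p (fun b => (if b ∈ nis adj O then 1 else 0) + actn adj q A b + actn adj q B b) then
            PN q y A * PN q y B else 0 := by
  rw [sum_glue]
  set rI : Fin N → Bool := fun c => decide (c ∈ O \ nis adj O) with hrI
  have hcond : ∀ (r : Fin N → Bool) (A B : Fin (nn q) → Fin N → Bool),
      ((∀ b, adm adj (q + 1) (glue r A B) b) ∧ used (glue r A B) = O ∧
        p (actn adj (q + 1) (glue r A B))) ↔
      (r = rI ∧ (∀ b, adm adj q A b) ∧ (∀ b, adm adj q B b) ∧ used A ∪ used B = nis adj O ∧
        p (fun b => (if b ∈ nis adj O then 1 else 0) + actn adj q A b + actn adj q B b)) := by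
    intro r A B
    have hadm : ∀ b, adm adj (q + 1) (glue r A B) b ↔
        ((r b = true → ¬ occ A b ∧ ¬ occ B b ∧ ∀ b', adj b b' → ¬ occ (glue r A B) b') ∧
        (occ A b ∨ occ B b → ∃ b', adj b b' ∧ occ (glue r A B) b') ∧
        adm adj q A b ∧ adm adj q B b) := by
      intro b
      simp only [adm]
      rw [nroot_glue, nlf_glue, nrg_glue]
    have hactn : used (glue r A B) = O → actn adj (q + 1) (glue r A B) =
        (fun b => (if b ∈ nis adj O then 1 else 0) + actn adj q A b + actn adj q B b) := by
      intro h
      funext b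
      simp only [actn]
      rw [nlf_glue, nrg_glue]
      have h1 : ∀ c, occ (glue r A B) c ↔ c ∈ O := by
        intro c
        rw [← mem_used, h]
      have : (occ (glue r A B) b ∧ ∃ b', adj b b' ∧ occ (glue r A B) b') ↔ b ∈ nis adj O := by
        simp only [h1]
        rw [mem_nis]
      rw [if_congr this rfl rfl]
    constructor
    · rintro ⟨h1, h2, h3⟩
      have ho : ∀ c, occ (glue r A B) c ↔ c ∈ O := by
        intro c
        rw [← mem_used, h2]
      have h1' := fun b => (hadm b).1 (h1 b)
      simp only [ho] at h1'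
      have hog : ∀ c, c ∈ O ↔ r c = true ∨ occ A c ∨ occ B c := by
        intro c
        rw [← ho, occ_glue]
      refine ⟨?_, fun b => (h1' b).2.2.1, fun b => (h1' b).2.2.2, ?_, ?_⟩
      · funext c
        rw [hrI]
        rw [Bool.eq_iff_iff, decide_eq_true_eq, Finset.mem_sdiff, mem_nis]
        constructor
        · intro hr
          refine ⟨(hog c).2 (Or.inl hr), ?_⟩
          rintro ⟨_, b', hadj, hb'⟩
          exact ((h1' c).1 hr).2.2 b' hadj hb'
        · rintro ⟨hcO, hcn⟩
          rcases (hog c).1 hcO with h | h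
          · exact h
          · exact absurd ⟨hcO, (h1' c).2.1 h⟩ hcn
      · ext c
        rw [Finset.mem_union, mem_used, mem_used, mem_nis]
        constructor
        · intro h
          exact ⟨(hog c).2 (Or.inr h), (h1' c).2.1 h⟩
        · rintro ⟨hcO, b', hadj, hb'⟩
          rcases (hog c).1 hcO with h | h
          · exact absurd hb' (((h1' c).1 h).2.2 b' hadj)
          · exact h
      · rw [← hactn h2]
        exact h3
    · rintro ⟨hr, hA, hB, hu, hp⟩
      have hAB : ∀ c, occ A c ∨ occ B c ↔ c ∈ nis adj O := by
        intro c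
        rw [← hu, Finset.mem_union, mem_used, mem_used]
      have hrc : ∀ c, r c = true ↔ c ∈ O ∧ c ∉ nis adj O := by
        intro c
        rw [hr, hrI, decide_eq_true_eq, Finset.mem_sdiff]
      have ho : ∀ c, occ (glue r A B) c ↔ c ∈ O := by
        intro c
        rw [occ_glue, hAB, hrc]
        constructor
        · rintro (h | h)
          · exact h.1
          · exact ((mem_nis adj O c).1 h).1
        · intro h
          by_cases hc : c ∈ nis adj O
          · exact Or.inr hc
          · exact Or.inl ⟨h, hc⟩
      have h2 : used (glue r A B) = O := by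
        ext c
        rw [mem_used, ho]
      refine ⟨fun b => (hadm b).2 ⟨?_, ?_, hA b, hB b⟩, h2, ?_⟩
      · intro h
        have h3 := (hrc b).1 h
        refine ⟨fun h4 => h3.2 ((hAB b).1 (Or.inl h4)), fun h4 => h3.2 ((hAB b).1 (Or.inr h4)), ?_⟩
        intro b' hadj hb'
        rw [ho] at hb'
        exact h3.2 ((mem_nis adj O b).2 ⟨h3.1, b', hadj, hb'⟩)
      · intro h
        have h3 := (mem_nis adj O b).1 ((hAB b).1 h)
        obtain ⟨_, b', hadj, hb'⟩ := h3
        exact ⟨b', hadj, (ho b').2 hb'⟩
      · rw [hactn h2]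
        exact hp
  rw [Finset.sum_eq_single rI]
  · rw [Finset.mul_sum]
    refine Finset.sum_congr rfl fun A _ => ?_
    rw [Finset.mul_sum]
    refine Finset.sum_congr rfl fun B _ => ?_
    rw [if_congr (hcond rI A B) rfl rfl, PN_glue]
    have hop : (fun c => if rI c = true then (1 + y c) ^ tm (q + 1) - 1 else 1) =
        fun c => if c ∈ O \ nis adj O then (1 + y c) ^ tm (q + 1) - 1 else 1 := by
      funext c
      rw [hrI]
      simp only [decide_eq_true_eq]
    rw [hop]
    by_cases h : (∀ b, adm adj q A b) ∧ (∀ b, adm adj q B b) ∧ used A ∪ used B = nis adj O ∧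
        p (fun b => (if b ∈ nis adj O then 1 else 0) + actn adj q A b + actn adj q B b)
    · rw [if_pos ⟨rfl, h⟩, if_pos h]
    · rw [if_neg fun h' => h h'.2, if_neg h, mul_zero]
  · intro r _ hr
    refine Finset.sum_eq_zero fun A _ => Finset.sum_eq_zero fun B _ => ?_
    rw [if_neg fun h => hr ((hcond r A B).1 h).1]
  · intro h
    exact absurd (Finset.mem_univ _) h

open Classical in
theorem gen (hs : ∀ b b', adj b b' → adj b' b) (hi : ∀ b, ¬ adj b b)
    (hc : ∀ b b', ¬ adj b b' → y b * y b' = y b' * y b) (q : ℕ) :
    ∀ p : Finset (Fin N) → (Fin N → ℕ) → Prop,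
    (∑ F : Fin (tm q) → Fin N → Bool, if p (used F) (act adj q F) then PF y F else 0) =
      ∑ G : Fin (nn q) → Fin N → Bool,
        if (∀ b, adm adj q G b) ∧ p (used G) (actn adj q G) then PN q y G else 0 := by
  induction q with
  | zero =>
    intro p
    refine Finset.sum_congr rfl fun F _ => ?_
    have h1 : act adj 0 F = actn adj 0 F := rfl
    have h2 : PF y F = PN 0 y F := by
      unfold PF PN
      congr 1
      funext t b
      have : len 0 t = 1 := rfl
      rw [this, pow_one, add_sub_cancel_left]
    have h3 : ∀ b, adm adj 0 F b := fun b => trivial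
    rw [h1, h2]
    by_cases h : p (used F) (actn adj 0 F)
    · rw [if_pos h]
      exact (if_pos ⟨h3, h⟩).symm
    · rw [if_neg h]
      exact (if_neg fun h' => h h'.2).symm
  | succ q ih =>
    intro p
    have e1 : ∀ F : Fin (tm (q + 1)) → Fin N → Bool,
        (if p (used F) (act adj (q + 1) F) then PF y F else 0) =
        ∑ O : Finset (Fin N), if used F = O ∧ p O (act adj (q + 1) F) then PF y F else 0 := by
      intro F
      rw [Finset.sum_eq_single (used F)]
      · by_cases h : p (used F) (act adj (q + 1) F)
        · rw [if_pos h, if_pos ⟨rfl, h⟩]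
        · rw [if_neg h, if_neg fun h' => h h'.2]
      · intro O _ hO
        rw [if_neg fun h => hO h.1.symm]
      · intro h; exact absurd (Finset.mem_univ _) h
    have e2 : ∀ G : Fin (nn (q + 1)) → Fin N → Bool,
        (if (∀ b, adm adj (q + 1) G b) ∧ p (used G) (actn adj (q + 1) G) then
          PN (q + 1) y G else 0) =
        ∑ O : Finset (Fin N), if (∀ b, adm adj (q + 1) G b) ∧ used G = O ∧
          p O (actn adj (q + 1) G) then PN (q + 1) y G else 0 := by
      intro G
      rw [Finset.sum_eq_single (used G)]
      · by_cases h : (∀ b, adm adj (q + 1) G b) ∧ p (used G) (actn adj (q + 1) G)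
        · rw [if_pos h, if_pos ⟨h.1, rfl, h.2⟩]
        · rw [if_neg h, if_neg fun h' => h ⟨h'.1, h'.2.2⟩]
      · intro O _ hO
        rw [if_neg fun h => hO h.2.1.symm]
      · intro h; exact absurd (Finset.mem_univ _) h
    rw [Finset.sum_congr rfl fun F _ => e1 F, Finset.sum_congr rfl fun G _ => e2 G]
    rw [Finset.sum_comm]
    conv_rhs => rw [Finset.sum_comm]
    refine Finset.sum_congr rfl fun O _ => ?_
    rw [F_side adj y hs hi hc q O (p O), G_side adj y hs q O (p O)]
    congr 1
    -- replace the second factor
    have s1 : ∀ A : Fin (tm q) → Fin N → Bool,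
        (∑ B : Fin (tm q) → Fin N → Bool,
          if used A ∪ used B = nis adj O ∧
            p O (fun b => (if b ∈ nis adj O then 1 else 0) + act adj q A b + act adj q B b) then
            PF y A * PF y B else 0) =
        ∑ B : Fin (nn q) → Fin N → Bool,
          if (∀ b, adm adj q B b) ∧ used A ∪ used B = nis adj O ∧
            p O (fun b => (if b ∈ nis adj O then 1 else 0) + act adj q A b + actn adj q B b) then
            PF y A * PN q y B else 0 := by
      intro A
      have h := ih (fun U a => used A ∪ U = nis adj O ∧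
        p O (fun b => (if b ∈ nis adj O then 1 else 0) + act adj q A b + a b))
      have h' := congrArg (fun z => PF y A * z) h
      simp only [Finset.mul_sum, mul_ite, mul_zero] at h'
      exact h'
    have s2 : ∀ B : Fin (nn q) → Fin N → Bool,
        (∑ A : Fin (tm q) → Fin N → Bool,
          if (∀ b, adm adj q B b) ∧ used A ∪ used B = nis adj O ∧
            p O (fun b => (if b ∈ nis adj O then 1 else 0) + act adj q A b + actn adj q B b) then
            PF y A * PN q y B else 0) =
        ∑ A : Fin (nn q) → Fin N → Bool,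
          if (∀ b, adm adj q A b) ∧ (∀ b, adm adj q B b) ∧ used A ∪ used B = nis adj O ∧
            p O (fun b => (if b ∈ nis adj O then 1 else 0) + actn adj q A b + actn adj q B b) then
            PN q y A * PN q y B else 0 := by
      intro B
      have h := ih (fun U a => (∀ b, adm adj q B b) ∧ U ∪ used B = nis adj O ∧
        p O (fun b => (if b ∈ nis adj O then 1 else 0) + a b + actn adj q B b))
      have h' := congrArg (fun z => z * PN q y B) h
      simp only [Finset.sum_mul, ite_mul, zero_mul] at h'
      exact h'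
    rw [Finset.sum_congr rfl fun A _ => s1 A, Finset.sum_comm,
      Finset.sum_congr rfl fun B _ => s2 B, Finset.sum_comm]

end main

end Reg973

theorem reg : REG := by
  classical
  intro R _ N adj y hs hi hc q r
  unfold KA
  convert Reg973.gen adj y hs hi hc q (fun _ a => ∀ b, a b ≤ r)

end Pool.Agent.TH235.PQ
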