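import Pool.Agent.TH235.PQ.Goal
import Pool.Agent.TH235.PQ.Ana
import Pool.Agent.TH235.PQ.Card
import Pool.Agent.TH235.PP.ThermQ

set_option autoImplicit false
set_option linter.unusedSectionVars false

open scoped BigOperators Matrix InnerProductSpace
open Finset Pool.Agent.TH235.PP

namespace Pool.Agent.TH235.PQ

section matrix

variable {n : Type*} [Fintype n] [DecidableEq n] [Nonempty n]

open scoped Matrix.Norms.L2Operator in
/-- Frobenius norm of the truncated expansion -/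
theorem frob_KA (hcomb : COMB) (A : Matrix n n ℂ) (hA : A.IsHermitian) (κ : ℝ)
    (hl : ∀ j, 3 / 4 ≤ 1 - κ * hA.eigenvalues j) {N : ℕ} (adj : Fin N → Fin N → Prop) (K : ℕ)
    (hsym : ∀ b b', adj b b' → adj b' b) (hirr : ∀ b, ¬ adj b b) (hK1 : 1 ≤ K)
    (hK : ∀ b, open Classical in (univ.filter fun b' => adj b b').card ≤ K) (q r : ℕ)
    (y : Fin N → Matrix n n ℂ) (hyG : 1 + ∑ b, y b = 1 - (κ : ℂ) • A) (y0 : ℝ) (hy0 : 0 ≤ y0)
    (hy1 : y0 ≤ 1 / 80) (hy : ∀ b, ‖y b‖ ≤ y0) (hN : N * y0 ≤ 1 / 4)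
    (hM : 2 * tm q * (N * y0) ^ 2 ≤ 1)
    (hr : N * Real.exp (100 * (K + 1) ^ 2 * (1 + tm q * y0) - r / (10 * K * (K + 1) ^ 2)) ≤ 1) :
    fr2 (KA adj q y r) ≤ 81 * ∑ j, (1 - κ * hA.eigenvalues j) ^ (2 * tm q) := by
  have hM1 : 1 ≤ tm q := tm_pos q
  obtain ⟨U, hU, hU', hdec⟩ := spec_dec A hA
  set l : n → ℝ := fun j => 1 - κ * hA.eigenvalues j with hldef
  have hl' : ∀ j, 3 / 4 ≤ l j := hl
  have hl0 : ∀ j, 0 ≤ l j := fun j => by linarith [hl' j]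
  set G : Matrix n n ℂ := U * Matrix.diagonal (fun j => ((l j : ℝ) : ℂ)) * Uᴴ with hG
  set Gi : Matrix n n ℂ := U * Matrix.diagonal (fun j => (((l j)⁻¹ : ℝ) : ℂ)) * Uᴴ with hGi
  have hGG : G * Gi = 1 := by
    rw [hG, hGi]
    calc U * Matrix.diagonal (fun j => ((l j : ℝ) : ℂ)) * Uᴴ *
          (U * Matrix.diagonal (fun j => (((l j)⁻¹ : ℝ) : ℂ)) * Uᴴ)
        = U * (Matrix.diagonal (fun j => ((l j : ℝ) : ℂ)) * (Uᴴ * U) *
          Matrix.diagonal (fun j => (((l j)⁻¹ : ℝ) : ℂ))) * Uᴴ := by simp only [mul_assoc]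
      _ = 1 := by
        rw [hU, mul_one, Matrix.diagonal_mul_diagonal]
        have : (fun i => ((l i : ℝ) : ℂ) * (((l i)⁻¹ : ℝ) : ℂ)) = fun _ => 1 := by
          funext i
          rw [← Complex.ofReal_mul, mul_inv_cancel₀ (by linarith [hl' i]), Complex.ofReal_one]
        rw [this, Matrix.diagonal_one, mul_one, hU']
  have hGG' : Gi * G = 1 := by
    rw [hG, hGi]
    calc U * Matrix.diagonal (fun j => (((l j)⁻¹ : ℝ) : ℂ)) * Uᴴ *
          (U * Matrix.diagonal (fun j => ((l j : ℝ) : ℂ)) * Uᴴ)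
        = U * (Matrix.diagonal (fun j => (((l j)⁻¹ : ℝ) : ℂ)) * (Uᴴ * U) *
          Matrix.diagonal (fun j => ((l j : ℝ) : ℂ))) * Uᴴ := by simp only [mul_assoc]
      _ = 1 := by
        rw [hU, mul_one, Matrix.diagonal_mul_diagonal]
        have : (fun i => (((l i)⁻¹ : ℝ) : ℂ) * ((l i : ℝ) : ℂ)) = fun _ => 1 := by
          funext i
          rw [← Complex.ofReal_mul, inv_mul_cancel₀ (by linarith [hl' i]), Complex.ofReal_one]
        rw [this, Matrix.diagonal_one, mul_one, hU']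
  have hUn := norm_unit U hU
  have hGin : ‖Gi‖ ≤ 4 / 3 := by
    have h2 : ‖(Matrix.diagonal (fun j => (((l j)⁻¹ : ℝ) : ℂ)) : Matrix n n ℂ)‖ ≤ 4 / 3 := by
      rw [Matrix.l2_opNorm_diagonal, pi_norm_le_iff_of_nonneg (by norm_num)]
      intro j
      rw [Complex.norm_real, Real.norm_eq_abs, abs_of_nonneg (inv_nonneg.2 (hl0 j))]
      rw [inv_le_comm₀ (by linarith [hl' j]) (by norm_num)]
      linarith [hl' j]
    rw [hGi]
    calc _ ≤ ‖U‖ * ‖(Matrix.diagonal (fun j => (((l j)⁻¹ : ℝ) : ℂ)) : Matrix n n ℂ)‖ * ‖Uᴴ‖ :=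
          (norm_mul_le _ _).trans (mul_le_mul_of_nonneg_right (norm_mul_le _ _) (norm_nonneg _))
      _ ≤ 1 * (4 / 3) * 1 := by
          rw [Matrix.l2_opNorm_conjTranspose]
          exact mul_le_mul (mul_le_mul hUn h2 (norm_nonneg _) zero_le_one) hUn (norm_nonneg _)
            (by norm_num)
      _ = 4 / 3 := by norm_num
  have hS0 : 0 ≤ ∑ j, l j ^ (2 * tm q) := Finset.sum_nonneg fun j _ => pow_nonneg (hl0 j) _
  have hνp : ∀ z : Fin (tm q) → Matrix n n ℂ,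
      fr (op z) ≤ Real.sqrt (∑ j, l j ^ (2 * tm q)) * ∏ t, ‖Gi * z t‖ := by
    intro z
    have e : op z = op fun t => G * (Gi * z t) := by
      congr 1
      funext t
      rw [← mul_assoc, hGG, one_mul]
    have h1 := frob_op U hU l hl0 hM1 fun t => Gi * z t
    rw [← hG, ← e] at h1
    apply le_of_sq_le_sq _ (mul_nonneg (Real.sqrt_nonneg _)
      (Finset.prod_nonneg fun t _ => norm_nonneg _))
    rw [fr_sq, mul_pow, Real.sq_sqrt hS0]
    exact h1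
  have h := (KA_bound hcomb adj K hsym hirr hK1 hK q r (fun a => ‖Gi * a‖) fr
    (fun a => norm_nonneg _)
    (fun a b => by rw [mul_add]; exact norm_add_le _ _)
    (fun a => (norm_mul_le _ _).trans (mul_le_mul_of_nonneg_right hGin (norm_nonneg _)))
    fr_zero fr_add fr_neg (Real.sqrt (∑ j, l j ^ (2 * tm q))) (Real.sqrt_nonneg _) hνp y y0 hy0
    hy1 hy (by rw [hyG, hdec κ, hGG', norm_one]) hN hM hr).1
  have h2 := pow_le_pow_left₀ (fr_nonneg _) h 2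
  rw [fr_sq, mul_pow, Real.sq_sqrt hS0] at h2
  linarith

end matrix

section core

variable {d R' L : ℕ} [NeZero L]

open scoped Matrix.Norms.L2Operator in
/-- A PEPS whose overlap with the ground state is controlled by the partition function. -/
lemma therm_coreK (hcomb : COMB) (hreg : REG) (hL : R' + 1 ≤ L) (h : BoxOp d (R' + 1))
    (Δ : ℝ) (hΔ : 0 < Δ)
    (Ψ : (Site L → Fin d) → ℂ) (hΨ : normSq Ψ = 1) (hgr : IsGappedGround (ham h L) Δ Ψ)
    (hH : (ham h L).IsHermitian) (β : ℝ) (hβ : 0 ≤ β) (q r K : ℕ) (hKd : K = (R' + 1) ^ 4)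
    (hNy80 : ((L ^ 2 : ℕ) : ℝ) * (β / tm q * nJ h) ≤ 1 / 80)
    (hMN : (tm q : ℝ) * (((L ^ 2 : ℕ) : ℝ) * (β / tm q * nJ h)) ^ 2 ≤ 1 / 16)
    (hr : ((L ^ 2 : ℕ) : ℝ) * Real.exp (100 * (K + 1) ^ 2 * (1 + β * nJ h) -
      r / (10 * K * (K + 1) ^ 2)) ≤ 1 / 24) :
    ∃ φ : (Site L → Fin d) → ℂ,
      IsPEPS (Fintype.card (Fin 1 × (Fin (2 * R' + 1) × Fin (2 * R' + 1) →
        LabT d (R' + 1) q r))) φ ∧
      normSq φ = 1 ∧ 1 / (18 * Real.sqrt (∑ j, Real.exp (-(β * (hH.eigenvalues j -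
        (ip Ψ (ham h L *ᵥ Ψ)).re))))) ≤ ‖ip Ψ φ‖ := by
  have hne := nonempty_of_normSq Ψ hΨ
  have hJ0 := nJ_nonneg h
  have hM1 : 1 ≤ tm q := tm_pos q
  have hM0 : (0 : ℝ) < tm q := by exact_mod_cast hM1
  have hNy : ((L ^ 2 : ℕ) : ℝ) * (β / tm q * nJ h) ≤ 1 / 4 := by linarith
  have hL1 : (1 : ℝ) ≤ ((L ^ 2 : ℕ) : ℝ) := by
    have h1 : 1 ≤ L := by omega
    exact_mod_cast Nat.one_le_pow _ _ h1
  obtain ⟨e⟩ : Nonempty (Fin (L ^ 2) ≃ Site L) := by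
    rw [← Fintype.card_eq, Fintype.card_fin, card_site]
  obtain ⟨E, hE, hsimple, hgap⟩ := hgr
  have hEE : (ip Ψ (ham h L *ᵥ Ψ)).re = E := by
    rw [hE, ip_smul_right, ip_self_one Ψ hΨ, mul_one, Complex.ofReal_re]
  rw [hEE]
  obtain ⟨f1, f2, f3, j0, f4⟩ := eig_facts (ham h L) hH Δ hΔ Ψ hΨ E hE hgap
  have hκ : 0 ≤ β / (tm q : ℝ) := by positivity
  have hκM : β / (tm q : ℝ) * tm q = β := by field_simp
  generalize hκd : β / (tm q : ℝ) = κ at hκ hκM hNy hMN hNy80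
  generalize hyd : κ * nJ h = y0 at hNy hMN hNy80
  have hy00 : 0 ≤ y0 := by rw [← hyd]; positivity
  have hy80 : y0 ≤ 1 / 80 := by nlinarith
  have hMy : (tm q : ℝ) * y0 = β * nJ h := by
    rw [← hyd, ← hκM]; ring
  have hAn : κ * ‖ham h L‖ ≤ 1 / 4 := by
    refine le_trans ?_ hNy
    have h1 : ‖ham h L‖ ≤ (L : ℝ) ^ 2 * nJ h := norm_ham h
    calc κ * ‖ham h L‖ ≤ κ * ((L : ℝ) ^ 2 * nJ h) := mul_le_mul_of_nonneg_left h1 hκ
      _ = ((L ^ 2 : ℕ) : ℝ) * y0 := by rw [← hyd]; push_cast; ring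
  have hk1 : ∀ x : ℝ, |x| ≤ ‖ham h L‖ → κ * x ≤ 1 / 4 ∧ -(1 / 4) ≤ κ * x := by
    intro x hx
    have h1 : |κ * x| ≤ 1 / 4 := by
      rw [abs_mul, abs_of_nonneg hκ]
      exact (mul_le_mul_of_nonneg_left hx hκ).trans hAn
    rw [abs_le] at h1
    exact ⟨h1.2, h1.1⟩
  have hl : ∀ j, 3 / 4 ≤ 1 - κ * hH.eigenvalues j := fun j => by linarith [(hk1 _ (f1 j)).1]
  have hg34 : 3 / 4 ≤ 1 - κ * E := by linarith [(hk1 E f2).1]
  have hg2 : 1 - κ * E ≤ 2 := by linarith [(hk1 E f2).2]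
  have hGn := norm_G (ham h L) hH κ E hκ (fun j => by linarith [hl j]) f3
  set y : Fin (L ^ 2) → TorOp d L := fun b => ((-κ : ℝ) : ℂ) • term h (e b) with hy
  have hyn : ∀ b, ‖y b‖ ≤ y0 := by
    intro b
    rw [hy]
    simp only []
    rw [norm_smul, Complex.norm_real, Real.norm_eq_abs, abs_neg, abs_of_nonneg hκ, ← hyd]
    exact mul_le_mul_of_nonneg_left (norm_term h (e b)) hκ
  have hG : 1 + ∑ b, y b = 1 - (κ : ℂ) • ham h L := by
    rw [hy]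
    simp only []
    rw [← Finset.smul_sum]
    have : ∑ b, term h (e b) = ham h L := by
      unfold ham
      exact e.sum_comp (fun u => term h u)
    rw [this]
    push_cast
    rw [neg_smul, sub_eq_add_neg]
  have h2M : 2 * (tm q : ℝ) * (((L ^ 2 : ℕ) : ℝ) * y0) ^ 2 ≤ 1 := by
    have : 2 * (tm q : ℝ) * (((L ^ 2 : ℕ) : ℝ) * y0) ^ 2 =
      2 * (tm q * (((L ^ 2 : ℕ) : ℝ) * y0) ^ 2) := by ring
    rw [this]; linarith
  have hK1 : 1 ≤ K := by rw [hKd]; exact Nat.one_le_pow _ _ (Nat.succ_pos _)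
  have hKc : ∀ b, open Classical in (univ.filter fun b' => adjR R' e b b').card ≤ K := by
    intro b
    rw [hKd]
    exact adjR_card e b
  rw [← hMy] at hr
  have htr := trunc_KA hcomb (adjR R' e) K (adjR_symm e) (adjR_irr e) hK1 hKc q r y y0
    (1 - κ * E) hy00 hy80 hyn (by rw [hG]; exact hGn) hg34 hNy h2M (by linarith)
  rw [hG] at htr
  have hgM : 0 < (1 - κ * E) ^ tm q := by
    have : 0 < 1 - κ * E := by linarith
    positivity
  have htr2 : ‖KA (adjR R' e) q y r - ((1 : TorOp d L) - (κ : ℂ) • ham h L) ^ tm q‖ ≤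
      (1 - κ * E) ^ tm q / 2 := by
    refine htr.trans ?_
    rw [show (1 - κ * E) ^ tm q / 2 = (1 - κ * E) ^ tm q * (1 / 2) by ring]
    exact mul_le_mul_of_nonneg_left (by linarith) hgM.le
  have hov := over_KT (ham h L) hH κ E (1 - κ * E) Ψ hΨ hE rfl (by linarith) (tm q)
    (KA (adjR R' e) q y r) htr2
  have hfr := frob_KA hcomb (ham h L) hH κ hl (adjR R' e) K (adjR_symm e) (adjR_irr e) hK1 hKc
    q r y hG y0 hy00 hy80 hyn hNy h2M (by linarith)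
  have htrace := trace_le hH.eigenvalues E κ β (tm q) hκ hκM f3 (fun j => by linarith [hl j])
    (by linarith) hg2
  set Z : ℝ := ∑ j, Real.exp (-(β * (hH.eigenvalues j - E))) with hZ
  have hZ0 : 0 < Z := by
    rw [hZ]
    exact Finset.sum_pos (fun j _ => Real.exp_pos _) ⟨j0, mem_univ _⟩
  have hg2M : 0 < (1 - κ * E) ^ (2 * tm q) := by
    have : 0 < 1 - κ * E := by linarith
    positivity
  obtain ⟨A1, hA1⟩ : ∃ A1 : TorOp d L, A1 = KA (adjR R' e) q y r := ⟨_, rfl⟩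
  rw [← hA1] at hov hfr
  have hsum : ∑ t, normSq (fun s => A1 s t) = fr2 A1 := by
    unfold normSq fr2
    rw [Finset.sum_comm]
  obtain ⟨t, ht0, ht⟩ := avg (fun t => ‖ip Ψ (fun s => A1 s t)‖ ^ 2)
    (fun t => normSq (fun s => A1 s t)) (1 / (324 * Z)) ((1 - κ * E) ^ (2 * tm q) / 4)
    (fun t => Finset.sum_nonneg fun _ _ => by positivity)
    (fun t h0 => by
      have h1 : nr (fun s => A1 s t) = 0 := by
        have := nr_sq (fun s => A1 s t)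
        rw [h0] at this
        exact pow_eq_zero_iff (two_ne_zero) |>.1 this
      have h2 := ip_le Ψ (fun s => A1 s t)
      rw [h1, mul_zero] at h2
      have h3 : ‖ip Ψ (fun s => A1 s t)‖ = 0 := le_antisymm h2 (norm_nonneg _)
      simp only [h3]
      norm_num)
    (div_pos hg2M (by norm_num)) hov
    (by
      rw [hsum]
      have h1 : fr2 A1 ≤ 81 * ((1 - κ * E) ^ (2 * tm q) * Z) :=
        hfr.trans (mul_le_mul_of_nonneg_left htrace (by norm_num))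
      calc 1 / (324 * Z) * fr2 A1 ≤ 1 / (324 * Z) * (81 * ((1 - κ * E) ^ (2 * tm q) * Z)) :=
            mul_le_mul_of_nonneg_left h1
              (div_nonneg zero_le_one (mul_nonneg (by norm_num) hZ0.le))
        _ = (1 - κ * E) ^ (2 * tm q) / 4 := aux324 _ _ hZ0)
  obtain ⟨A, hA⟩ := peps_KA hreg hL (K := Fin 1)
    (fun x i _ _ _ _ => if i = t x then (1 : ℂ) else 0) ((-κ : ℝ) : ℂ) h e q r
  rw [basis_contract] at hA
  have hcol : A1 *ᵥ Pi.single t 1 = fun s => A1 s t := by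
    funext s
    rw [Matrix.mulVec_single_one]
    rfl
  have hx : (fun s => A1 s t) = contract A := by
    rw [← hcol, hA1]
    exact hA
  rw [hx] at ht0 ht
  have hpeps : IsPEPS (Fintype.card (Fin 1 × (Fin (2 * R' + 1) × Fin (2 * R' + 1) →
      LabT d (R' + 1) q r))) (contract A) := isPEPS_contract A
  have hnr : 0 < nr (contract A) := by
    rcases (nr_nonneg (contract A)).lt_or_eq with h5 | h5
    · exact h5
    · exfalso
      have := nr_sq (contract A)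
      rw [← h5] at this
      rw [← this] at ht0
      simp at ht0
  have hnn : ‖((nr (contract A))⁻¹ : ℂ)‖ = (nr (contract A))⁻¹ := by
    rw [norm_inv, Complex.norm_real, Real.norm_eq_abs, abs_of_pos hnr]
  refine ⟨((nr (contract A))⁻¹ : ℂ) • contract A, hpeps.smul _, ?_, ?_⟩
  · rw [← nr_sq, nr_smul, hnn, inv_mul_cancel₀ hnr.ne', one_pow]
  · rw [ip_smul_right, norm_mul, hnn, inv_mul_eq_div, le_div_iff₀ hnr]
    apply le_of_sq_le_sq _ (norm_nonneg _)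
    refine le_trans (le_of_eq ?_) ht
    rw [mul_pow, nr_sq, div_pow, mul_pow, Real.sq_sqrt hZ0.le]
    norm_num

end core

/-- linear bounds for the exponents -/
lemma ther_par (β lam W T J c1 c2 r s : ℝ) (hβ : 0 ≤ β) (hlam : 1 / 2 ≤ lam) (hW : 0 ≤ W)
    (hT : 0 ≤ T) (hJ : 0 ≤ J) (hc1 : 0 ≤ c1) (hc2 : 0 < c2)
    (hr : r ≤ c2 * (c1 * (1 + β * J) + (2 * lam + 4)) + 1) (hs : s = β + lam + W + T) :
    2 * r + 2 ≤ (2 * (c2 * (c1 * (2 + J) + 10) + 2) + 4) * s := by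
  have hs2 : 1 / 2 ≤ s := by rw [hs]; linarith
  have hls : lam ≤ s := by rw [hs]; linarith
  have h1 : 1 + β * J ≤ (2 + J) * s := by
    have h2 : β * J ≤ s * J := mul_le_mul_of_nonneg_right (by rw [hs]; linarith) hJ
    nlinarith
  have h2 : c1 * (1 + β * J) ≤ c1 * ((2 + J) * s) := mul_le_mul_of_nonneg_left h1 hc1
  have h3 : c2 * (c1 * (1 + β * J) + (2 * lam + 4)) ≤ c2 * (c1 * ((2 + J) * s) + 10 * s) :=
    mul_le_mul_of_nonneg_left (by linarith) hc2.le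
  have h4 : (2 * (c2 * (c1 * (2 + J) + 10) + 2) + 4) * s =
      2 * (c2 * (c1 * ((2 + J) * s) + 10 * s)) + 8 * s := by ring
  rw [h4]
  linarith

/-- (THERM) -/
theorem ther (hcomb : COMB) (hreg : REG) (hcount : COUNT) (hA : AMP) : THERM := by
  intro d R' h hh Δ hΔ
  obtain ⟨C0, hC0, hq⟩ := hA d R' h hh Δ hΔ
  have hJ0 : 0 ≤ nJ h := nJ_nonneg h
  obtain ⟨K, hK⟩ : ∃ K : ℕ, K = (R' + 1) ^ 4 := ⟨_, rfl⟩
  have hK1 : 1 ≤ K := by rw [hK]; exact Nat.one_le_pow _ _ (Nat.succ_pos _)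
  have hK1' : (1 : ℝ) ≤ K := by exact_mod_cast hK1
  obtain ⟨c1, hc1⟩ : ∃ c1 : ℝ, c1 = 100 * ((K : ℝ) + 1) ^ 2 := ⟨_, rfl⟩
  obtain ⟨c2, hc2⟩ : ∃ c2 : ℝ, c2 = 10 * (K : ℝ) * ((K : ℝ) + 1) ^ 2 := ⟨_, rfl⟩
  have hc10 : 0 ≤ c1 := by rw [hc1]; positivity
  have hc20 : 0 < c2 := by rw [hc2]; positivity
  refine ⟨4 * ((Fintype.card (Lm d (R' + 1)) : ℕ) + 1) *
    (2 * (c2 * (c1 * (2 + nJ h) + 10) + 2) + 4) * ((2 * R' + 1 : ℕ) : ℝ) ^ 2 + 9 * C0,
    by positivity, ?_⟩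
  intro L _ hL hRL Ψ hΨ hgr hH β ε hβ hε hε1
  have hL2 : (2 : ℝ) ≤ L := by exact_mod_cast hL
  have hlam0 : 1 / 2 ≤ Real.log L := by
    have h1 : Real.log 2 ≤ Real.log L := Real.log_le_log (by norm_num) hL2
    have := Real.log_two_gt_d9
    linarith
  have hNexp : ((L ^ 2 : ℕ) : ℝ) = Real.exp (2 * Real.log L) := by
    rw [two_mul, Real.exp_add, Real.exp_log (by linarith)]; push_cast; ring
  have hN1 : (1 : ℝ) ≤ ((L ^ 2 : ℕ) : ℝ) := by
    rw [hNexp]; exact Real.one_le_exp (by linarith)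
  have hT0 : 0 ≤ Real.log (1 / ε) := Real.log_nonneg (by rw [le_div_iff₀ hε]; linarith)
  have hB0 : 0 ≤ β * nJ h := by positivity
  obtain ⟨q, hM1, hM2, hM3⟩ := par_q (β * nJ h) ((L ^ 2 : ℕ) : ℝ) 0 hB0 hN1
  have hM0 : (0 : ℝ) < tm q := by linarith
  obtain ⟨r, hr1, hr2⟩ := par_r c1 c2 (1 + β * nJ h) (2 * Real.log L + 4) hc20 (by positivity)
  have hNy : ((L ^ 2 : ℕ) : ℝ) * (β / tm q * nJ h) ≤ 1 / 80 := by
    have : ((L ^ 2 : ℕ) : ℝ) * (β / tm q * nJ h) = ((L ^ 2 : ℕ) : ℝ) * (β * nJ h) / tm q := by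
      ring
    rw [this]; exact hM2
  have hMN : (tm q : ℝ) * (((L ^ 2 : ℕ) : ℝ) * (β / tm q * nJ h)) ^ 2 ≤ 1 / 16 := by
    have : (tm q : ℝ) * (((L ^ 2 : ℕ) : ℝ) * (β / tm q * nJ h)) ^ 2 =
        (((L ^ 2 : ℕ) : ℝ) * (β * nJ h)) ^ 2 / tm q := by field_simp
    rw [this]
    refine hM3.trans (le_of_eq ?_)
    rw [neg_zero, Real.exp_zero]
  have hrr : ((L ^ 2 : ℕ) : ℝ) * Real.exp (100 * (K + 1) ^ 2 * (1 + β * nJ h) -
      r / (10 * K * (K + 1) ^ 2)) ≤ 1 / 24 := by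
    refine le_trans ?_ exp_four
    rw [hNexp, ← Real.exp_add]
    apply Real.exp_le_exp.2
    rw [hc1, hc2] at hr1
    linarith
  have hZ1 : 1 ≤ ∑ j, Real.exp (-(β * (hH.eigenvalues j - (ip Ψ (ham h L *ᵥ Ψ)).re))) := by
    obtain ⟨E, hE, hsimple, hgap⟩ := hgr
    have hEE : (ip Ψ (ham h L *ᵥ Ψ)).re = E := by
      rw [hE, ip_smul_right, ip_self_one Ψ hΨ, mul_one, Complex.ofReal_re]
    obtain ⟨-, -, -, j0, hj0⟩ := eig_facts (ham h L) hH Δ hΔ Ψ hΨ E hE hgap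
    have h1 := Finset.single_le_sum (f := fun j => Real.exp (-(β * (hH.eigenvalues j -
      (ip Ψ (ham h L *ᵥ Ψ)).re)))) (fun j _ => (Real.exp_pos _).le) (mem_univ j0)
    refine le_trans (le_of_eq ?_) h1
    rw [hj0, hEE]
    simp
  obtain ⟨φ, hφ, hφ1, hov⟩ := therm_coreK hcomb hreg hRL h Δ hΔ Ψ hΨ hgr hH β hβ q r K hK hNy
    hMN hrr
  generalize (∑ j, Real.exp (-(β * (hH.eigenvalues j - (ip Ψ (ham h L *ᵥ Ψ)).re)))) = Z
    at hZ1 hov ⊢
  have hZs : 0 < Real.sqrt Z := Real.sqrt_pos.2 (by linarith)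
  obtain ⟨D, ψ, hD, hψ, herr⟩ := hq L hL hRL Ψ hΨ hgr _ φ hφ hφ1 (1 / (18 * Real.sqrt Z)) ε
    (by positivity) hov hε hε1
  refine ⟨D, ψ, hD.trans ?_, hψ, herr⟩
  rw [log_eta Z ε hZ1 hε]
  have hW0 : 0 ≤ Real.log Z := Real.log_nonneg hZ1
  have h18 := log_18
  have h180 : 0 ≤ Real.log 18 := Real.log_nonneg (by norm_num)
  generalize Real.log Z = W at hW0 ⊢
  generalize Real.log (1 / ε) = T at hT0 ⊢
  generalize Real.log 18 = v at h18 h180 ⊢
  generalize Real.log L = lam at hlam0 hNexp hr1 hr2 ⊢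
  have hpar := ther_par β lam W T (nJ h) c1 c2 r (β + lam + W + T) hβ hlam0 hW0 hT0 hJ0 hc10 hc20
    hr2 rfl
  have hcard := card_bdK hcount (d := d) (R' := R') 1 q r
  rw [Nat.cast_one, one_mul] at hcard
  have hP0 : (0 : ℝ) ≤ ((Fintype.card (Lm d (R' + 1)) : ℕ) : ℝ) := Nat.cast_nonneg _
  generalize ((Fintype.card (Lm d (R' + 1)) : ℕ) : ℝ) = P at *
  generalize hs : β + lam + W + T = s at *
  have hs0 : 0 ≤ s := by linarith
  refine (mul_le_mul hcard (Real.exp_le_exp.2 (mul_le_mul_of_nonneg_left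
    (show lam + (v + W / 2 + T) ≤ 9 * s by linarith) hC0.le))
    (Real.exp_pos _).le (Real.exp_pos _).le).trans ?_
  rw [← Real.exp_add]
  apply Real.exp_le_exp.2
  have h5 := mul_le_mul_of_nonneg_left hpar (by positivity : (0 : ℝ) ≤ 4 * (P + 1))
  have h6 := mul_le_mul_of_nonneg_right h5 (by positivity : (0 : ℝ) ≤ ((2 * R' + 1 : ℕ) : ℝ) ^ 2)
  refine (add_le_add h6 le_rfl).trans (le_of_eq ?_)
  ring

end Pool.Agent.TH235.PQ
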