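import Pool.Agent.TH235.PQ.AllL
import Pool.Agent.TH235.PQ.Amp
import Pool.Agent.TH235.PQ.Equiv
import Pool.Agent.TH235.PQ.Pair
import Pool.Agent.TH235.PQ.Count
import Pool.Agent.TH235.PQ.Comb
import Pool.Agent.TH235.PQ.Reg
import Pool.Agent.TH235.PQ.Ther

set_option autoImplicit false

namespace Pool.Agent.TH235.PQ

theorem amp0 : AMP := amp (comb pair) reg count

theorem therm0 : THERM := ther (comb pair) reg count amp0

end Pool.Agent.TH235.PQ
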