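import Pool.Agent.TH235.PP.ThermalCrit

set_option autoImplicit false
set_option linter.unusedSectionVars false

open scoped BigOperators Matrix InnerProductSpace
open Finset Pool.Agent.TH235.PP Pool.Agent.Results.MP_953b23_mp.OverlapBoosting
  Pool.Agent.Results.MP_953b23_mp.ThermalCriterion

namespace Pool.Agent.TH235.PQ

/-- (AMP) amplification with a polynomial factor -/
def AMP : Prop := ∀ (d R' : ℕ) (h : BoxOp d (R' + 1)), h.IsHermitian → ∀ Δ : ℝ, 0 < Δ →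
    ∃ C : ℝ, 0 < C ∧ ∀ (L : ℕ) [NeZero L], 2 ≤ L → R' + 1 ≤ L →
      ∀ Ψ : (Site L → Fin d) → ℂ, normSq Ψ = 1 →
      IsGappedGround (ham h L) Δ Ψ → ∀ (D0 : ℕ) (φ : (Site L → Fin d) → ℂ), IsPEPS D0 φ →
      normSq φ = 1 → ∀ η ε : ℝ, 0 < η → η ≤ ‖ip Ψ φ‖ → 0 < ε → ε ≤ 1 →
      ∃ (D : ℕ) (ψ : (Site L → Fin d) → ℂ),
        (D : ℝ) ≤ D0 * Real.exp (C * (Real.log L + Real.log (1 / (η * ε)))) ∧
        IsPEPS D ψ ∧ nr (ψ - Ψ) ≤ ε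

/-- (THERM) bond dimension polynomial in the partition function -/
def THERM : Prop := ∀ (d R' : ℕ) (h : BoxOp d (R' + 1)), h.IsHermitian → ∀ Δ : ℝ, 0 < Δ →
    ∃ C : ℝ, 0 < C ∧ ∀ (L : ℕ) [NeZero L], 2 ≤ L → R' + 1 ≤ L →
      ∀ Ψ : (Site L → Fin d) → ℂ, normSq Ψ = 1 →
      IsGappedGround (ham h L) Δ Ψ → ∀ (hH : (ham h L).IsHermitian) (β ε : ℝ), 0 ≤ β → 0 < ε →
      ε ≤ 1 → ∃ (D : ℕ) (ψ : (Site L → Fin d) → ℂ),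
        (D : ℝ) ≤ Real.exp (C * (β + Real.log L + Real.log (∑ j, Real.exp (-(β *
          (hH.eigenvalues j - (ip Ψ (ham h L *ᵥ Ψ)).re)))) + Real.log (1 / ε))) ∧
        IsPEPS D ψ ∧ nr (ψ - Ψ) ≤ ε

/-- (EQUIV) equivalent forms of the conclusion at polynomial scale -/
def EQUIV : Prop := ∀ (d R : ℕ) (h : BoxOp d R) (Δ : ℝ) (Ψ : ∀ L : ℕ, (Site L → Fin d) → ℂ),
      GappedFamily h Δ Ψ →
      List.TFAE [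
        ∀ c : ℝ, 0 < c → ∃ C : ℝ, Approx Ψ 1 C fun L => (L : ℝ) ^ (-c),
        ∃ c : ℝ, 0 < c ∧ ∃ C : ℝ, Approx Ψ 1 C fun L => (L : ℝ) ^ (-c),
        ∃ C : ℝ, PureOverlap Ψ 1 C,
        ∃ C : ℝ, MixedOverlap Ψ 1 C,
        ∃ C : ℝ, LowEnergy h Δ Ψ 1 C,
        ∃ (R' : ℕ) (h' : BoxOp d R') (Δ' : ℝ) (Ψ' : ∀ L : ℕ, (Site L → Fin d) → ℂ),
          GappedFamily h' Δ' Ψ' ∧
          (∀ c : ℝ, 0 < c → ∃ C : ℝ, Approx Ψ' 1 C fun L => (L : ℝ) ^ (-c)) ∧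
          ∃ (C : ℝ) (L₀ : ℕ), ∀ (L : ℕ) [NeZero L], L₀ ≤ L →
            Real.exp (-(C * Real.log L)) ≤ ‖ip (Ψ L) (Ψ' L)‖]

/-- (EVERY) from all large `L` to every `L` -/
def EVERY : Prop := ∀ (d : ℕ) (Ψ : ∀ L : ℕ, (Site L → Fin d) → ℂ) (C c : ℝ),
    Approx Ψ 1 C (fun L => (L : ℝ) ^ (-c)) → ∃ a k : ℕ, ∀ (L : ℕ) [NeZero L],
      ∃ (D : ℕ) (ψ : (Site L → Fin d) → ℂ), D ≤ a * L ^ k ∧ IsPEPS D ψ ∧
        Real.sqrt (normSq (ψ - Ψ L)) ≤ (L : ℝ) ^ (-c)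

end Pool.Agent.TH235.PQ
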