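import Pool.Agent.TH235.PQ.Ops

set_option autoImplicit false
set_option linter.unusedSectionVars false

open scoped BigOperators Matrix
open Finset Pool.Agent.TH235.PP

namespace Pool.Agent.TH235.PQ

section lab

variable {d R' L : ℕ} [NeZero L]

/-- labels of a site: trees of matrix units of size at most `2 r + 1` -/
abbrev LabT (d R q r : ℕ) : Type :=
  {φ : Fin (nn q) → Option (Lm d R) // sz q φ ≤ 2 * r + 1}

instance (R q r : ℕ) : Nonempty (LabT d R q r) :=
  ⟨⟨fun _ => none, by rw [sz_zero q _ (by simp)]; omega⟩⟩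

noncomputable instance (R q r : ℕ) : Fintype (LabT d R q r) := Fintype.ofFinite _

/-- coefficient of a label -/
noncomputable def cf (c : ℂ) (h : BoxOp d (R' + 1)) (q : ℕ) (n : Fin (nn q)) :
    Option (Lm d (R' + 1)) → ℂ
  | none => 1
  | some pq => ((1 + c • h) ^ len q n - 1) pq.1 pq.2

/-- total coefficient of a label -/
noncomputable def wgtT (c : ℂ) (h : BoxOp d (R' + 1)) {q r : ℕ} (φ : LabT d (R' + 1) q r) : ℂ :=
  ∏ n, cf c h q n (φ.1 n)

lemma PN_eq (hL : R' + 1 ≤ L) (c : ℂ) (h : BoxOp d (R' + 1)) {N : ℕ} (e : Fin N ≃ Site L) (q : ℕ)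
    (G : Fin (nn q) → Fin N → Bool) : PN q (fun b => c • term h (e b)) G =
      ∑ H : Fin (nn q) → Fin N → Option (Lm d (R' + 1)), open Classical in
        if (∀ n b, (H n b).isSome = G n b) then
          pr (fun n b => cf c h q n (H n b) • tp (lo (e b) (H n b))) else 0 := by
  classical
  have e1 : PN q (fun b => c • term h (e b)) G = pr (fun n b => ∑ o : Option (Lm d (R' + 1)),
      if o.isSome = G n b then cf c h q n o • tp (lo (e b) o) else (0 : TorOp d L)) := by
    unfold PN
    congr 1
    funext n b
    rw [Fintype.sum_option]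
    cases hF : G n b with
    | true =>
      simp only [if_true, Option.isSome_none, Option.isSome_some, Bool.false_eq_true, if_false,
        zero_add]
      rw [← term_pow hL, term_eq]
      rfl
    | false =>
      simp only [Bool.false_eq_true, if_false, Option.isSome_none, if_true, Option.isSome_some,
        Bool.true_eq_false, Finset.sum_const_zero, add_zero]
      simp only [cf, lo]
      rw [tp_one, one_smul]
  rw [e1]
  have e2 := pr_sum (M := nn q) (fun (n : Fin (nn q)) (b : Fin N) (o : Option (Lm d (R' + 1))) =>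
    if o.isSome = G n b then cf c h q n o • tp (lo (e b) o) else (0 : TorOp d L))
  rw [e2]
  refine Finset.sum_congr rfl fun H _ => ?_
  split_ifs with hc
  · congr 1
    funext n b
    rw [if_pos (hc n b)]
  · push Not at hc
    obtain ⟨n, b, hne⟩ := hc
    apply pr_eq_zero _ n b
    rw [if_neg hne]

/-- the node pattern of a family of labels -/
def pat {N q r : ℕ} {R : ℕ} (e : Fin N ≃ Site L) (g : Site L → LabT d R q r) :
    Fin (nn q) → Fin N → Bool := fun n b => ((g (e b)).1 n).isSome

/-- the local constraint -/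
def XX {N q r : ℕ} (e : Fin N ≃ Site L) (u : Site L) (g : Site L → LabT d (R' + 1) q r) : Prop :=
  adm (adjR R' e) q (pat e g) (e.symm u) ∧ actn (adjR R' e) q (pat e g) (e.symm u) ≤ r

lemma KA_eq (hreg : REG) (hL : R' + 1 ≤ L) (c : ℂ) (h : BoxOp d (R' + 1)) {N : ℕ}
    (e : Fin N ≃ Site L) (q r : ℕ) :
    KA (adjR R' e) q (fun b => c • term h (e b)) r =
      ∑ g : Site L → LabT d (R' + 1) q r,
        (open Classical in if ∀ u, XX e u g then ∏ u, wgtT c h (g u) else 0) •
          tp (OvG e fun u => (g u).1) := by
  classical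
  rw [hreg (TorOp d L) N (adjR R' e) (fun b => c • term h (e b)) (adjR_symm e) (adjR_irr e)
    (y_comm c h e) q r]
  -- exchange the sums
  have h2 : (∑ G : Fin (nn q) → Fin N → Bool, open Classical in
      if (∀ b, adm (adjR R' e) q G b) ∧ (∀ b, actn (adjR R' e) q G b ≤ r) then
        PN q (fun b => c • term h (e b)) G else 0) =
      ∑ H : Fin (nn q) → Fin N → Option (Lm d (R' + 1)),
        if (∀ b, adm (adjR R' e) q (fun n b => (H n b).isSome) b) ∧
          (∀ b, actn (adjR R' e) q (fun n b => (H n b).isSome) b ≤ r) then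
          pr (fun n b => cf c h q n (H n b) • tp (lo (e b) (H n b))) else (0 : TorOp d L) := by
    simp only [PN_eq hL]
    have h3 : ∀ G : Fin (nn q) → Fin N → Bool,
        (if (∀ b, adm (adjR R' e) q G b) ∧ (∀ b, actn (adjR R' e) q G b ≤ r) then
          ∑ H : Fin (nn q) → Fin N → Option (Lm d (R' + 1)),
          (if (∀ n b, (H n b).isSome = G n b) then
            pr (fun n b => cf c h q n (H n b) • tp (lo (e b) (H n b))) else 0)
            else (0 : TorOp d L)) =
        ∑ H : Fin (nn q) → Fin N → Option (Lm d (R' + 1)),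
          if (fun n b => (H n b).isSome) = G then
          (if (∀ b, adm (adjR R' e) q (fun n b => (H n b).isSome) b) ∧
          (∀ b, actn (adjR R' e) q (fun n b => (H n b).isSome) b ≤ r) then
          pr (fun n b => cf c h q n (H n b) • tp (lo (e b) (H n b))) else 0) else 0 := by
      intro G
      by_cases hF : (∀ b, adm (adjR R' e) q G b) ∧ (∀ b, actn (adjR R' e) q G b ≤ r)
      · rw [if_pos hF]
        refine Finset.sum_congr rfl fun H _ => ?_
        by_cases hG : (fun n b => (H n b).isSome) = G
        · have hG' : ∀ n b, (H n b).isSome = G n b := fun n b => congrFun (congrFun hG n) b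
          rw [if_pos hG, if_pos hG', if_pos]
          rw [hG]
          exact hF
        · rw [if_neg hG, if_neg (fun hh => hG (funext fun n => funext fun b => hh n b))]
      · rw [if_neg hF]
        symm
        apply Finset.sum_eq_zero
        intro H _
        by_cases hG : (fun n b => (H n b).isSome) = G
        · rw [if_pos hG, if_neg]
          rw [hG]
          exact hF
        · rw [if_neg hG]
    have h4 : (∑ G : Fin (nn q) → Fin N → Bool, open Classical in
      if (∀ b, adm (adjR R' e) q G b) ∧ (∀ b, actn (adjR R' e) q G b ≤ r) then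
        ∑ H : Fin (nn q) → Fin N → Option (Lm d (R' + 1)), 
          (if (∀ n b, (H n b).isSome = G n b) then
            pr (fun n b => cf c h q n (H n b) • tp (lo (e b) (H n b))) else 0)
        else (0 : TorOp d L)) = 
        ∑ G : Fin (nn q) → Fin N → Bool, ∑ H : Fin (nn q) → Fin N → Option (Lm d (R' + 1)),
          if (fun n b => (H n b).isSome) = G then
          (if (∀ b, adm (adjR R' e) q (fun n b => (H n b).isSome) b) ∧
          (∀ b, actn (adjR R' e) q (fun n b => (H n b).isSome) b ≤ r) then
          pr (fun n b => cf c h q n (H n b) • tp (lo (e b) (H n b))) else 0) else 0 := by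
      refine Finset.sum_congr rfl fun G _ => ?_
      rw [← h3 G]
    refine Eq.trans ?_ (h4.trans ?_)
    · refine Finset.sum_congr rfl fun G _ => ?_
      congr
    · rw [Finset.sum_comm]
      refine Finset.sum_congr rfl fun H _ => ?_
      rw [Finset.sum_ite_eq]
      simp
  rw [h2, ← Finset.sum_filter]
  -- reindex
  have h5 : (∑ g : Site L → LabT d (R' + 1) q r,
        (open Classical in if ∀ u, XX e u g then ∏ u, wgtT c h (g u) else 0) •
          tp (OvG e fun u => (g u).1)) =
      ∑ g ∈ (univ : Finset (Site L → LabT d (R' + 1) q r)).filter fun g => ∀ u, XX e u g,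
        (∏ u, wgtT c h (g u)) • tp (OvG e fun u => (g u).1) := by
    rw [Finset.sum_filter]
    refine Finset.sum_congr rfl fun g _ => ?_
    by_cases hx : ∀ u, XX e u g
    · rw [if_pos hx, if_pos hx]
    · rw [if_neg hx, if_neg hx, zero_smul]
  rw [h5]
  symm
  refine Finset.sum_bij' (i := fun (g : Site L → LabT d (R' + 1) q r) _ =>
      fun n b => (g (e b)).1 n)
    (j := fun (H : Fin (nn q) → Fin N → Option (Lm d (R' + 1))) hH => fun u =>
      (⟨fun n => H n (e.symm u), by
        have h6 := (mem_filter.1 hH).2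
        have h7 := sz_le (adjR R' e) q H (e.symm u) (h6.1 (e.symm u))
        have h8 := h6.2 (e.symm u)
        omega⟩ : LabT d (R' + 1) q r)) ?_ ?_ ?_ ?_ ?_
  · intro g hg
    rw [mem_filter] at hg ⊢
    refine ⟨mem_univ _, fun b => ?_, fun b => ?_⟩
    · have := (hg.2 (e b)).1
      rw [e.symm_apply_apply] at this
      exact this
    · have := (hg.2 (e b)).2
      rw [e.symm_apply_apply] at this
      exact this
  · intro H hH
    have h6 := (mem_filter.1 hH).2
    rw [mem_filter]
    have h7 : pat e (fun u => (⟨fun n => H n (e.symm u), by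
        have h7 := sz_le (adjR R' e) q H (e.symm u) (h6.1 (e.symm u))
        have h8 := h6.2 (e.symm u)
        omega⟩ : LabT d (R' + 1) q r)) = fun n b => (H n b).isSome := by
      funext n b
      unfold pat
      simp
    refine ⟨mem_univ _, fun u => ?_⟩
    unfold XX
    rw [h7]
    exact ⟨h6.1 _, h6.2 _⟩
  · intro g _
    funext u
    apply Subtype.ext
    simp
  · intro H _
    funext n b
    simp
  · intro g _
    rw [pr_smul, tp_pr]
    congr 1
    unfold wgtT
    rw [← e.prod_comp, Finset.prod_comm]

/-- The truncated expansion maps tensor network vectors to tensor network vectors. -/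
theorem peps_KA (hreg : REG) (hL : R' + 1 ≤ L) {K : Type*} [Fintype K]
    (A0 : Site L → Fin d → K → K → K → K → ℂ) (c : ℂ) (h : BoxOp d (R' + 1)) {N : ℕ}
    (e : Fin N ≃ Site L) (q r : ℕ) :
    ∃ A : Site L → Fin d →
      (K × (Fin (2 * R' + 1) × Fin (2 * R' + 1) → LabT d (R' + 1) q r)) →
      (K × (Fin (2 * R' + 1) × Fin (2 * R' + 1) → LabT d (R' + 1) q r)) →
      (K × (Fin (2 * R' + 1) × Fin (2 * R' + 1) → LabT d (R' + 1) q r)) →
      (K × (Fin (2 * R' + 1) × Fin (2 * R' + 1) → LabT d (R' + 1) q r)) → ℂ,
      (KA (adjR R' e) q (fun b => c • term h (e b)) r).mulVec (contract A0) = contract A := by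
  rw [KA_eq hreg hL c h e q r]
  refine net A0 e (fun φ : LabT d (R' + 1) q r => φ.1) (fun φ => wgtT c h φ)
    (fun u g => XX e u g) ?_
  intro v g g' hgg
  have hc : g (cen R' v) = g' (cen R' v) := hgg _ _ (sh_cen v)
  have h1 : ∀ n, pat e g n (e.symm (cen R' v)) = pat e g' n (e.symm (cen R' v)) := by
    intro n
    unfold pat
    rw [e.apply_symm_apply, hc]
  have h2 : ∀ n b', adjR R' e (e.symm (cen R' v)) b' → pat e g n b' = pat e g' n b' := by
    intro n b' hb'
    obtain ⟨-, x, x', hx⟩ := hb'
    rw [e.apply_symm_apply] at hx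
    unfold pat
    rw [hgg (e b') (⟨R' + x'.1.1 - x.1.1, by omega⟩, ⟨R' + x'.2.1 - x.2.1, by omega⟩) ?_]
    unfold sh cen at hx
    rw [Prod.mk.injEq] at hx
    unfold sh
    simp only []
    have hx1 := hx.1
    have hx2 := hx.2
    ext
    · simp only []
      rw [Nat.cast_sub (by omega), Nat.cast_add]
      linear_combination -hx1
    · simp only []
      rw [Nat.cast_sub (by omega), Nat.cast_add]
      linear_combination -hx2
  unfold XX
  rw [adm_congr (adjR R' e) q _ _ _ h1 h2, actn_congr (adjR R' e) q _ _ _ h1 h2]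

end lab

end Pool.Agent.TH235.PQ
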