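import Pool.Agent.TH235.PQ.Base

set_option autoImplicit false
set_option linter.unusedSectionVars false

open scoped BigOperators Matrix
open Finset Pool.Agent.TH235.PP

namespace Pool.Agent.TH235.PQ

section net

variable {d R' L : ℕ} [NeZero L]

/-- the operator at the site `v` for a family of node labels -/
noncomputable def OvG {M N : ℕ} (e : Fin N ≃ Site L) (g : Site L → (Fin M → Option (Lm d (R' + 1))))
    (v : Site L) : Matrix (Fin d) (Fin d) ℂ := pr fun t b => lo (e b) (g (e b) t) v

lemma OvG_congr {M N : ℕ} (e : Fin N ≃ Site L) (g g' : Site L → (Fin M → Option (Lm d (R' + 1))))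
    (v : Site L) (hgg : ∀ u, ∀ x : Fin (R' + 1) × Fin (R' + 1), sh u x = v → g u = g' u) :
    OvG e g v = OvG e g' v := by
  unfold OvG
  congr 1
  funext t b
  by_cases hv : ∃ x : Fin (R' + 1) × Fin (R' + 1), sh (e b) x = v
  · obtain ⟨x, hx⟩ := hv
    rw [hgg (e b) x hx]
  · push Not at hv
    rw [lo_out _ _ _ hv, lo_out _ _ _ hv]

/-- centre of the window at `v` -/
def cen (R' : ℕ) (v : Site L) : Site L := (v.1 - ((R' : ℕ) : ZMod L), v.2 - ((R' : ℕ) : ZMod L))

lemma sh_cen (v : Site L) :
    sh (cen R' v) ((⟨R', by omega⟩, ⟨R', by omega⟩) : Fin (2 * R' + 1) × Fin (2 * R' + 1)) = v := by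
  unfold sh cen
  ext <;> simp

lemma sh_big (u v : Site L) (x : Fin (R' + 1) × Fin (R' + 1)) (h : sh u x = v) :
    sh u ((⟨x.1.1, by omega⟩, ⟨x.2.1, by omega⟩) : Fin (2 * R' + 1) × Fin (2 * R' + 1)) = v := h

/-- A sum over families of labels with a local constraint maps tensor network vectors to tensor
network vectors. -/
theorem net {Λ : Type} [Fintype Λ] [Nonempty Λ] {K : Type*} [Fintype K]
    (A0 : Site L → Fin d → K → K → K → K → ℂ) {M N : ℕ} (e : Fin N ≃ Site L)
    (val : Λ → (Fin M → Option (Lm d (R' + 1)))) (w : Λ → ℂ) (X : Site L → (Site L → Λ) → Prop)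
    (hX : ∀ (v : Site L) (g g' : Site L → Λ),
      (∀ (u : Site L) (x : Fin (2 * R' + 1) × Fin (2 * R' + 1)), sh u x = v → g u = g' u) →
      (X (cen R' v) g ↔ X (cen R' v) g')) :
    ∃ A : Site L → Fin d → (K × (Fin (2 * R' + 1) × Fin (2 * R' + 1) → Λ)) →
      (K × (Fin (2 * R' + 1) × Fin (2 * R' + 1) → Λ)) →
      (K × (Fin (2 * R' + 1) × Fin (2 * R' + 1) → Λ)) →
      (K × (Fin (2 * R' + 1) × Fin (2 * R' + 1) → Λ)) → ℂ,
      (∑ g : Site L → Λ, (open Classical in if ∀ u, X u g then ∏ u, w (g u) else 0) •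
        tp (OvG e fun u => val (g u))).mulVec (contract A0) = contract A := by
  classical
  set f : Site L → Fin d → (Fin (2 * R' + 1) × Fin (2 * R' + 1) → Λ) →
      K → K → K → K → ℂ := fun v a' W l r' dn up =>
    (if X (cen R' v) (ext v W) then w (ext v W (cen R' v)) else 0) *
      ∑ a, OvG e (fun u => val (ext v W u)) v a' a * A0 v a l r' dn up with hf
  refine ⟨_, Eq.trans ?_ (peps_core f).symm⟩
  funext s
  have hfw : ∀ (g : Site L → Λ) (v : Site L) (a' : Fin d) (l r' dn up : K),
      f v a' (win g v) l r' dn up =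
        (if X (cen R' v) g then w (g (cen R' v)) else 0) *
          ∑ a, OvG e (fun u => val (g u)) v a' a * A0 v a l r' dn up := by
    intro g v a' l r' dn up
    simp only [hf]
    have h1 : ∀ (u : Site L) (x : Fin (2 * R' + 1) × Fin (2 * R' + 1)), sh u x = v →
        ext v (win (R' := 2 * R') g v) u = g u := fun u x hx => ext_win g v u ⟨x, hx⟩
    rw [h1 _ _ (sh_cen v)]
    have h2 : OvG e (fun u => val (ext v (win (R' := 2 * R') g v) u)) v =
        OvG e (fun u => val (g u)) v := by
      apply OvG_congr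
      intro u x hx
      rw [h1 u _ (sh_big u v x hx)]
    rw [h2]
    have h3 : X (cen R' v) (ext v (win (R' := 2 * R') g v)) ↔ X (cen R' v) g := hX v _ _ h1
    by_cases hx : X (cen R' v) g
    · rw [if_pos hx, if_pos (h3.2 hx)]
    · rw [if_neg hx, if_neg fun hh => hx (h3.1 hh)]
  have hprod : ∀ g : Site L → Λ, (if ∀ u, X u g then ∏ u, w (g u) else 0) =
      ∏ v, (if X (cen R' v) g then w (g (cen R' v)) else 0) := by
    intro g
    have e1 : ∏ v : Site L, (if X (cen R' v) g then w (g (cen R' v)) else 0) =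
        ∏ u : Site L, (if X u g then w (g u) else 0) :=
      (Equiv.subRight (((R' : ℕ) : ZMod L), ((R' : ℕ) : ZMod L))).prod_comp
        (fun u => if X u g then w (g u) else 0)
    rw [e1]
    split_ifs with hc
    · exact Finset.prod_congr rfl fun u _ => (if_pos (hc u)).symm
    · push Not at hc
      obtain ⟨u, hu⟩ := hc
      symm
      apply Finset.prod_eq_zero (mem_univ u)
      rw [if_neg hu]
  unfold Matrix.mulVec dotProduct
  simp only [Matrix.sum_apply, Matrix.smul_apply, smul_eq_mul, Finset.sum_mul]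
  rw [Finset.sum_comm]
  refine Finset.sum_congr rfl fun g _ => ?_
  unfold contract
  simp only [Finset.mul_sum]
  rw [Finset.sum_comm]
  refine Finset.sum_congr rfl fun h0 _ => ?_
  rw [Finset.sum_comm]
  refine Finset.sum_congr rfl fun v0 _ => ?_
  simp only [hfw]
  rw [Finset.prod_mul_distrib, ← hprod, Finset.prod_univ_sum, Fintype.piFinset_univ,
    Finset.mul_sum]
  refine Finset.sum_congr rfl fun x _ => ?_
  unfold tp
  rw [Finset.prod_mul_distrib]
  ring

end net

end Pool.Agent.TH235.PQ
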