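import Pool.Agent.TH235.PQ.Net

set_option autoImplicit false
set_option linter.unusedSectionVars false

open scoped BigOperators Matrix
open Finset Pool.Agent.TH235.PP

namespace Pool.Agent.TH235.PQ

section ops

variable {d R' L : ℕ} [NeZero L]

lemma cast_inj' {R L : ℕ} [NeZero L] (hL : R ≤ L) (i j : Fin R)
    (h : ((i : ℕ) : ZMod L) = ((j : ℕ) : ZMod L)) : i = j := by
  have hi : ((i : ℕ) : ZMod L).val = i := ZMod.val_cast_of_lt (lt_of_lt_of_le i.2 hL)
  have hj : ((j : ℕ) : ZMod L).val = j := ZMod.val_cast_of_lt (lt_of_lt_of_le j.2 hL)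
  apply Fin.ext
  rw [← hi, ← hj, h]

lemma sh_inj {R L : ℕ} [NeZero L] (hL : R ≤ L) (u : Site L) :
    Function.Injective (sh u : Fin R × Fin R → Site L) := by
  intro x x' h
  unfold sh at h
  rw [Prod.mk.injEq] at h
  ext1
  · exact cast_inj' hL _ _ (add_left_cancel h.1)
  · exact cast_inj' hL _ _ (add_left_cancel h.2)

lemma term_mul (hL : R' + 1 ≤ L) (h1 h2 : BoxOp d (R' + 1)) (u : Site L) :
    term h1 u * term h2 u = term (h1 * h2) u := by
  classical
  have hinj := sh_inj hL u
  ext s t
  rw [Matrix.mul_apply]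
  unfold term
  by_cases hst : ∀ v, (∀ x : Fin (R' + 1) × Fin (R' + 1), sh u x ≠ v) → s v = t v
  · rw [if_pos hst, Matrix.mul_apply]
    symm
    set ex : (Fin (R' + 1) × Fin (R' + 1) → Fin d) → (Site L → Fin d) := fun p v =>
      if hv : ∃ x : Fin (R' + 1) × Fin (R' + 1), sh u x = v then p hv.choose else s v with hex
    have hex1 : ∀ p x, ex p (sh u x) = p x := by
      intro p x
      have hv : ∃ x' : Fin (R' + 1) × Fin (R' + 1), sh u x' = sh u x := ⟨x, rfl⟩
      simp only [hex]
      rw [dif_pos hv, hinj hv.choose_spec]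
    have hex2 : ∀ p v, (∀ x : Fin (R' + 1) × Fin (R' + 1), sh u x ≠ v) → ex p v = s v := by
      intro p v hv
      simp only [hex]
      rw [dif_neg (by push Not; exact hv)]
    refine Fintype.sum_of_injective ex ?_ _ _ ?_ ?_
    · intro p p' hpp
      funext x
      rw [← hex1 p x, ← hex1 p' x, hpp]
    · intro w hw
      by_cases hsw : ∀ v, (∀ x : Fin (R' + 1) × Fin (R' + 1), sh u x ≠ v) → s v = w v
      · exfalso
        apply hw
        refine ⟨fun x => w (sh u x), ?_⟩
        funext v
        by_cases hv : ∃ x : Fin (R' + 1) × Fin (R' + 1), sh u x = v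
        · obtain ⟨x, rfl⟩ := hv
          exact hex1 (fun x => w (sh u x)) x
        · push Not at hv
          exact (hex2 (fun x => w (sh u x)) v hv).trans (hsw v hv)
      · rw [if_neg hsw, zero_mul]
    · intro p
      rw [if_pos (fun v hv => (hex2 p v hv).symm), if_pos (fun v hv => by
        rw [hex2 p v hv]; exact hst v hv)]
      simp only [hex1]
  · rw [if_neg hst]
    apply Finset.sum_eq_zero
    intro w _
    by_cases h1 : ∀ v, (∀ x : Fin (R' + 1) × Fin (R' + 1), sh u x ≠ v) → s v = w v
    · by_cases h2 : ∀ v, (∀ x : Fin (R' + 1) × Fin (R' + 1), sh u x ≠ v) → w v = t v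
      · exact absurd (fun v hv => (h1 v hv).trans (h2 v hv)) hst
      · rw [if_neg h2, mul_zero]
    · rw [if_neg h1, zero_mul]

lemma term_one (u : Site L) : term (1 : BoxOp d (R' + 1)) u = 1 := by
  classical
  ext s t
  by_cases hst : s = t
  · subst hst
    rw [Matrix.one_apply_eq]
    unfold term
    rw [if_pos (fun v _ => rfl), Matrix.one_apply_eq]
  · rw [Matrix.one_apply_ne hst]
    unfold term
    split_ifs with hc
    · apply Matrix.one_apply_ne
      intro hh
      apply hst
      funext v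
      by_cases hv : ∃ x : Fin (R' + 1) × Fin (R' + 1), sh u x = v
      · obtain ⟨x, rfl⟩ := hv
        exact congrFun hh x
      · push Not at hv
        exact hc v hv
    · rfl

lemma term_add (h1 h2 : BoxOp d (R' + 1)) (u : Site L) :
    term (h1 + h2) u = term h1 u + term h2 u := by
  classical
  ext s t
  rw [Matrix.add_apply]
  unfold term
  split_ifs
  · rfl
  · simp

lemma term_sub (h1 h2 : BoxOp d (R' + 1)) (u : Site L) :
    term (h1 - h2) u = term h1 u - term h2 u := by
  classical
  ext s t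
  rw [Matrix.sub_apply]
  unfold term
  split_ifs
  · rfl
  · simp

lemma term_smul (c : ℂ) (h : BoxOp d (R' + 1)) (u : Site L) :
    term (c • h) u = c • term h u := by
  classical
  ext s t
  rw [Matrix.smul_apply]
  unfold term
  split_ifs
  · rfl
  · simp

lemma term_pow (hL : R' + 1 ≤ L) (c : ℂ) (h : BoxOp d (R' + 1)) (u : Site L) (m : ℕ) :
    term ((1 + c • h) ^ m - 1) u = (1 + c • term h u) ^ m - 1 := by
  rw [term_sub, term_one]
  congr 1
  induction m with
  | zero => rw [pow_zero, pow_zero, term_one]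
  | succ m ih => rw [pow_succ, pow_succ, ← term_mul hL, ih, term_add, term_one, term_smul]

lemma term_comm (h : BoxOp d (R' + 1)) (u u' : Site L)
    (hd : ∀ x x' : Fin (R' + 1) × Fin (R' + 1), sh u x ≠ sh u' x') :
    Commute (term h u) (term h u') := by
  rw [term_eq h u, term_eq h u']
  refine Commute.sum_left _ _ _ fun pq _ => Commute.sum_right _ _ _ fun pq' _ => ?_
  refine Commute.smul_left (Commute.smul_right ?_ _) _
  unfold Commute SemiconjBy
  rw [tp_mul, tp_mul]
  congr 1
  funext v
  by_cases hv : ∃ x : Fin (R' + 1) × Fin (R' + 1), sh u x = v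
  · obtain ⟨x, rfl⟩ := hv
    rw [loc_out u' _ _ _ (fun x' => (hd x x').symm), mul_one, one_mul]
  · push Not at hv
    rw [loc_out u _ _ _ hv, mul_one, one_mul]

/-- two terms are adjacent if their boxes intersect -/
def adjR (R' : ℕ) {L N : ℕ} (e : Fin N ≃ Site L) (b b' : Fin N) : Prop :=
  b ≠ b' ∧ ∃ x x' : Fin (R' + 1) × Fin (R' + 1), sh (e b) x = sh (e b') x'

lemma adjR_symm {N : ℕ} (e : Fin N ≃ Site L) (b b' : Fin N) (h : adjR R' e b b') :
    adjR R' e b' b := by
  obtain ⟨h1, x, x', h2⟩ := h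
  exact ⟨h1.symm, x', x, h2.symm⟩

lemma adjR_irr {N : ℕ} (e : Fin N ≃ Site L) (b : Fin N) : ¬ adjR R' e b b := fun h => h.1 rfl

lemma adjR_card {N : ℕ} (e : Fin N ≃ Site L) (b : Fin N) : open Classical in
    (univ.filter fun b' => adjR R' e b b').card ≤ (R' + 1) ^ 4 := by
  classical
  have h1 : (univ.filter fun b' => adjR R' e b b') ⊆
      (univ : Finset ((Fin (R' + 1) × Fin (R' + 1)) × (Fin (R' + 1) × Fin (R' + 1)))).image
        (fun p => e.symm ((e b).1 + ((p.1.1 : ℕ) : ZMod L) - ((p.2.1 : ℕ) : ZMod L),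
          (e b).2 + ((p.1.2 : ℕ) : ZMod L) - ((p.2.2 : ℕ) : ZMod L))) := by
    intro b' hb'
    rw [mem_filter] at hb'
    obtain ⟨-, -, x, x', hx⟩ := hb'
    rw [mem_image]
    refine ⟨(x, x'), mem_univ _, ?_⟩
    rw [Equiv.symm_apply_eq]
    unfold sh at hx
    rw [Prod.mk.injEq] at hx
    ext
    · simp only []
      rw [hx.1]; ring
    · simp only []
      rw [hx.2]; ring
  have h2 := (card_le_card h1).trans card_image_le
  have h3 : (univ : Finset ((Fin (R' + 1) × Fin (R' + 1)) × (Fin (R' + 1) × Fin (R' + 1)))).card =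
      (R' + 1) ^ 4 := by
    rw [Finset.card_univ]
    simp only [Fintype.card_prod, Fintype.card_fin]
    ring
  rw [h3] at h2
  convert h2

lemma y_comm (c : ℂ) (h : BoxOp d (R' + 1)) {N : ℕ} (e : Fin N ≃ Site L) (b b' : Fin N)
    (hb : ¬ adjR R' e b b') :
    (c • term h (e b)) * (c • term h (e b')) = (c • term h (e b')) * (c • term h (e b)) := by
  by_cases hbb : b = b'
  · rw [hbb]
  · have hd : ∀ x x' : Fin (R' + 1) × Fin (R' + 1), sh (e b) x ≠ sh (e b') x' := by
      intro x x' hx
      exact hb ⟨hbb, x, x', hx⟩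
    exact ((term_comm h (e b) (e b') hd).smul_left c).smul_right c

end ops

section sizes

variable {N : ℕ}

lemma sz_zero {Λ : Type*} (q : ℕ) (φ : Fin (nn q) → Option Λ)
    (h : ¬ ∃ n, (φ n).isSome = true) : sz q φ = 0 := by
  classical
  cases q with
  | zero => unfold sz; rw [if_neg h]
  | succ q => unfold sz; rw [if_neg h]

open Classical in
lemma actn_succ (adj : Fin N → Fin N → Prop) (q : ℕ) (G : Fin (nn (q + 1)) → Fin N → Bool)
    (b : Fin N) : actn adj (q + 1) G b =
      (if occ G b ∧ ∃ b', adj b b' ∧ occ G b' then 1 else 0) +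
        actn adj q (nlf G) b + actn adj q (nrg G) b := rfl

/-- admissible patterns have small label trees -/
lemma sz_le {Λ : Type*} (adj : Fin N → Fin N → Prop) (q : ℕ)
    (H : Fin (nn q) → Fin N → Option Λ) (b : Fin N)
    (hadm : adm adj q (fun n b => (H n b).isSome) b) :
    sz q (fun n => H n b) ≤ 2 * actn adj q (fun n b => (H n b).isSome) b + 1 := by
  classical
  induction q with
  | zero => unfold sz; split_ifs <;> omega
  | succ q ih =>
    have hsz : sz (q + 1) (fun n => H n b) = if ∃ n, (H n b).isSome = true then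
        1 + sz q (nlf (q := q) fun n => H n b) + sz q (nrg (q := q) fun n => H n b) else 0 := rfl
    rw [hsz]
    by_cases hex : ∃ n, (H n b).isSome = true
    swap
    · rw [if_neg hex]; omega
    rw [if_pos hex]
    obtain ⟨h1, h2, h3, h4⟩ := hadm
    have i1 := ih (nlf (q := q) H) h3
    have i2 := ih (nrg (q := q) H) h4
    by_cases hA : occ (nlf (q := q) (fun n b => (H n b).isSome)) b ∨
        occ (nrg (q := q) (fun n b => (H n b).isSome)) b
    · have hoc : occ (fun n b => (H n b).isSome) b := hex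
      have hac : actn adj (q + 1) (fun n b => (H n b).isSome) b =
          1 + actn adj q (nlf (q := q) (fun n b => (H n b).isSome)) b +
          actn adj q (nrg (q := q) (fun n b => (H n b).isSome)) b := by
        have hcc : occ (fun n b => (H n b).isSome) b ∧
          ∃ b', adj b b' ∧ occ (fun n b => (H n b).isSome) b' := ⟨hoc, h2 hA⟩
        rw [actn_succ, if_pos hcc]
      rw [hac]
      have j1 : sz q (nlf (q := q) fun n => H n b) ≤
          2 * actn adj q (nlf (q := q) (fun n b => (H n b).isSome)) b + 1 := i1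
      have j2 : sz q (nrg (q := q) fun n => H n b) ≤
          2 * actn adj q (nrg (q := q) (fun n b => (H n b).isSome)) b + 1 := i2
      omega
    · push Not at hA
      have z1 : sz q (nlf (q := q) fun n => H n b) = 0 := sz_zero q _ hA.1
      have z2 : sz q (nrg (q := q) fun n => H n b) = 0 := sz_zero q _ hA.2
      omega

lemma occ_congr {m : ℕ} (G G' : Fin m → Fin N → Bool) (b : Fin N) (h : ∀ n, G n b = G' n b) :
    occ G b ↔ occ G' b := by
  unfold occ
  simp only [h]

lemma occ_adj_congr {m : ℕ} (adj : Fin N → Fin N → Prop) (G G' : Fin m → Fin N → Bool)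
    (b : Fin N) (h : ∀ n b', adj b b' → G n b' = G' n b') :
    (∃ b', adj b b' ∧ occ G b') ↔ (∃ b', adj b b' ∧ occ G' b') := by
  constructor
  · rintro ⟨b', hb, n, hn⟩
    exact ⟨b', hb, n, by rw [← h n b' hb]; exact hn⟩
  · rintro ⟨b', hb, n, hn⟩
    exact ⟨b', hb, n, by rw [h n b' hb]; exact hn⟩

lemma adm_congr (adj : Fin N → Fin N → Prop) (q : ℕ) (G G' : Fin (nn q) → Fin N → Bool)
    (b : Fin N) (h1 : ∀ n, G n b = G' n b) (h2 : ∀ n b', adj b b' → G n b' = G' n b') :
    adm adj q G b ↔ adm adj q G' b := by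
  classical
  induction q with
  | zero => unfold adm; rfl
  | succ q ih =>
    have e1 := ih (nlf G) (nlf G') (fun n => h1 _) (fun n b' hb => h2 _ b' hb)
    have e2 := ih (nrg G) (nrg G') (fun n => h1 _) (fun n b' hb => h2 _ b' hb)
    have o1 := occ_congr (nlf G) (nlf G') b (fun n => h1 _)
    have o2 := occ_congr (nrg G) (nrg G') b (fun n => h1 _)
    have o3 := occ_adj_congr adj G G' b h2
    have o4 : (∀ b', adj b b' → ¬ occ G b') ↔ (∀ b', adj b b' → ¬ occ G' b') := by
      have := not_congr o3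
      push Not at this
      exact this
    have o5 : nroot G b = nroot G' b := h1 _
    change ((nroot G b = true → ¬ occ (nlf G) b ∧ ¬ occ (nrg G) b ∧ ∀ b', adj b b' → ¬ occ G b') ∧
      (occ (nlf G) b ∨ occ (nrg G) b → ∃ b', adj b b' ∧ occ G b') ∧
      adm adj q (nlf G) b ∧ adm adj q (nrg G) b) ↔
      ((nroot G' b = true → ¬ occ (nlf G') b ∧ ¬ occ (nrg G') b ∧
        ∀ b', adj b b' → ¬ occ G' b') ∧
      (occ (nlf G') b ∨ occ (nrg G') b → ∃ b', adj b b' ∧ occ G' b') ∧
      adm adj q (nlf G') b ∧ adm adj q (nrg G') b)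
    rw [e1, e2, o1, o2, o3, o4, o5]

lemma actn_congr (adj : Fin N → Fin N → Prop) (q : ℕ) (G G' : Fin (nn q) → Fin N → Bool)
    (b : Fin N) (h1 : ∀ n, G n b = G' n b) (h2 : ∀ n b', adj b b' → G n b' = G' n b') :
    actn adj q G b = actn adj q G' b := by
  classical
  induction q with
  | zero =>
    have o1 := occ_congr G G' b h1
    have o3 := occ_adj_congr adj G G' b h2
    unfold actn
    simp only [o1, o3]
  | succ q ih =>
    have e1 := ih (nlf G) (nlf G') (fun n => h1 _) (fun n b' hb => h2 _ b' hb)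
    have e2 := ih (nrg G) (nrg G') (fun n => h1 _) (fun n b' hb => h2 _ b' hb)
    have o1 := occ_congr G G' b h1
    have o3 := occ_adj_congr adj G G' b h2
    unfold actn
    rw [e1, e2]
    simp only [o1, o3]

end sizes

end Pool.Agent.TH235.PQ
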